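import Pool.Agent.L5helper26.RO.Cx

/-!
Orbits of `(F, Ψ)` which are attracted to the line `y = 0` at some place.
-/

set_option autoImplicit false
set_option linter.unusedSectionVars false

open MvPolynomial

namespace Pool.Agent.L5helper26.JN

open NumberField Height Module IsDedekindDomain
open Pool.Agent.W180.OP (Pl av wt nrm le_nrm nrm_pos nrm_nonneg exists_nrm nrm_le cs cs_nonneg abv_mv
  not_small)
open Pool.Agent.R847.SN (IsExt exists_isExt)
open Pool.Agent.L5helper26.RO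

section

variable {K : Type} [Field K] {m : ℕ}

/-- The restriction of a form to the line `y = 0`. -/
noncomputable def rs (g : MvPolynomial (Fin 2 ⊕ Fin m) K) : MvPolynomial (Fin 2) K :=
  aeval (Sum.elim X fun _ => 0) g

theorem eval_rs (g : MvPolynomial (Fin 2 ⊕ Fin m) K) (x : Fin 2 → K) :
    eval x (rs g) = eval (Sum.elim x 0) g := by
  induction g using MvPolynomial.induction_on with
  | C a => simp [rs]
  | add p q hp hq =>
    rw [rs] at hp hq ⊢
    rw [map_add, map_add, map_add, hp, hq]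
  | mul_X p i hp =>
    rw [rs] at hp ⊢
    rw [map_mul, map_mul, map_mul, hp, aeval_X, eval_X]
    rcases i with i | i
    · simp
    · simp

theorem rs_hom {g : MvPolynomial (Fin 2 ⊕ Fin m) K} {D : ℕ} (hg : g.IsHomogeneous D) :
    (rs g).IsHomogeneous D := by
  have h := IsHomogeneous.aeval hg (Sum.elim X fun _ => 0 : Fin 2 ⊕ Fin m → MvPolynomial (Fin 2) K)
    (n := 1) (fun i => by
      rcases i with i | i
      · exact isHomogeneous_X _ _
      · exact isHomogeneous_zero _ _ _)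
  rwa [one_mul] at h

theorem mono_bound (f : AbsoluteValue K ℝ) (x : Fin 2 → K) (y : Fin m → K)
    (hxy : nrm f y ≤ nrm f x) (κ : Fin 2 ⊕ Fin m →₀ ℕ) {D : ℕ} (hκ : κ.degree = D) :
    f (∏ i, (Sum.elim x y i) ^ κ i - ∏ i, (Sum.elim x (0 : Fin m → K) i) ^ κ i) * nrm f x ≤
      nrm f y * nrm f x ^ D := by
  have hx0 := nrm_nonneg f x
  have hy0 := nrm_nonneg f y
  by_cases hall : ∀ j, κ (Sum.inr j) = 0
  · have e : ∏ i, (Sum.elim x y i) ^ κ i = ∏ i, (Sum.elim x (0 : Fin m → K) i) ^ κ i := by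
      refine Finset.prod_congr rfl fun i _ => ?_
      rcases i with i | i
      · rfl
      · rw [hall i, pow_zero, pow_zero]
    rw [e, sub_self, map_zero, zero_mul]
    positivity
  · push Not at hall
    obtain ⟨j, hj⟩ := hall
    have e : ∏ i, (Sum.elim x (0 : Fin m → K) i) ^ κ i = 0 := by
      refine Finset.prod_eq_zero (Finset.mem_univ (Sum.inr j)) ?_
      change (0 : K) ^ κ (Sum.inr j) = 0
      exact zero_pow hj
    rw [e, sub_zero, map_prod, Fintype.prod_sum_type]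
    set a : ℕ := ∑ i : Fin 2, κ (Sum.inl i) with ha
    set b : ℕ := ∑ i : Fin m, κ (Sum.inr i) with hb
    have hab : a + b = D := by
      rw [← hκ, Finsupp.degree_eq_sum, Fintype.sum_sum_type]
    have hb1 : 1 ≤ b := by
      have h1 : κ (Sum.inr j) ≤ b :=
        Finset.single_le_sum (f := fun i : Fin m => κ (Sum.inr i)) (fun _ _ => Nat.zero_le _)
          (Finset.mem_univ j)
      omega
    have h1 : ∏ i : Fin 2, f (Sum.elim x y (Sum.inl i) ^ κ (Sum.inl i)) ≤ nrm f x ^ a := by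
      rw [ha, ← Finset.prod_pow_eq_pow_sum]
      refine Finset.prod_le_prod (fun i _ => f.nonneg _) fun i _ => ?_
      rw [map_pow]
      exact pow_le_pow_left₀ (f.nonneg _) (le_nrm f x i) _
    have h2 : ∏ i : Fin m, f (Sum.elim x y (Sum.inr i) ^ κ (Sum.inr i)) ≤ nrm f y ^ b := by
      rw [hb, ← Finset.prod_pow_eq_pow_sum]
      refine Finset.prod_le_prod (fun i _ => f.nonneg _) fun i _ => ?_
      rw [map_pow]
      exact pow_le_pow_left₀ (f.nonneg _) (le_nrm f y i) _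
    have h3 : nrm f y ^ b ≤ nrm f y * nrm f x ^ (b - 1) := by
      have e1 : b = (b - 1) + 1 := by omega
      conv_lhs => rw [e1, pow_succ, mul_comm]
      exact mul_le_mul_of_nonneg_left (pow_le_pow_left₀ hy0 hxy _) hy0
    have h4 : (∏ i : Fin 2, f (Sum.elim x y (Sum.inl i) ^ κ (Sum.inl i))) *
        ∏ i : Fin m, f (Sum.elim x y (Sum.inr i) ^ κ (Sum.inr i)) ≤
        nrm f x ^ a * (nrm f y * nrm f x ^ (b - 1)) :=
      mul_le_mul h1 (h2.trans h3) (Finset.prod_nonneg fun i _ => f.nonneg _) (by positivity)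
    calc _ ≤ nrm f x ^ a * (nrm f y * nrm f x ^ (b - 1)) * nrm f x :=
          mul_le_mul_of_nonneg_right h4 hx0
      _ = nrm f y * (nrm f x ^ a * (nrm f x ^ (b - 1) * nrm f x)) := by ring
      _ = nrm f y * nrm f x ^ D := by
          rw [← pow_succ, ← pow_add]
          congr 2
          omega

/-- The value on the line at a zero near to the line. -/
theorem line_bound (f : AbsoluteValue K ℝ) {D : ℕ} (g : MvPolynomial (Fin 2 ⊕ Fin m) K)
    (hg : g.IsHomogeneous D) : ∃ C : ℝ, 0 ≤ C ∧ ∀ (x : Fin 2 → K) (y : Fin m → K),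
      nrm f y ≤ nrm f x → eval (Sum.elim x y) g = 0 →
      f (eval x (rs g)) * nrm f x ≤ C * (nrm f y * nrm f x ^ D) := by
  refine ⟨∑ κ ∈ g.support, f (g.coeff κ), Finset.sum_nonneg fun _ _ => f.nonneg _,
    fun x y hxy h0 => ?_⟩
  have hx0 := nrm_nonneg f x
  have e : eval x (rs g) = -∑ κ ∈ g.support, g.coeff κ *
      (∏ i, (Sum.elim x y i) ^ κ i - ∏ i, (Sum.elim x (0 : Fin m → K) i) ^ κ i) := by
    rw [eval_rs]
    have h1 : eval (Sum.elim x (0 : Fin m → K)) g =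
        -(eval (Sum.elim x y) g - eval (Sum.elim x 0) g) := by rw [h0]; ring
    rw [h1, eval_eq', eval_eq', ← Finset.sum_sub_distrib]
    congr 1
    refine Finset.sum_congr rfl fun κ _ => ?_
    ring
  rw [e, AbsoluteValue.map_neg]
  calc _ ≤ (∑ κ ∈ g.support, f (g.coeff κ *
        (∏ i, (Sum.elim x y i) ^ κ i - ∏ i, (Sum.elim x (0 : Fin m → K) i) ^ κ i))) * nrm f x :=
        mul_le_mul_of_nonneg_right (f.sum_le _ _) hx0
    _ ≤ _ := by
        rw [Finset.sum_mul, Finset.sum_mul]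
        refine Finset.sum_le_sum fun κ hκ => ?_
        rw [map_mul, mul_assoc]
        refine mul_le_mul_of_nonneg_left ?_ (f.nonneg _)
        refine mono_bound f x y hxy κ ?_
        have h1 := hg (mem_support_iff.1 hκ)
        exact (DFunLike.congr_fun (Finsupp.degree_eq_weight_one (σ := Fin 2 ⊕ Fin m) (R := ℕ))
          κ).trans h1

end

variable {k : Type} [Field k] [NumberField k]

section

variable {d : ℕ} (F : Fin 2 → MvPolynomial (Fin 2) k) (hF : ∀ i, (F i).IsHomogeneous d)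
  (h0 : ∀ x : Fin 2 → AlgebraicClosure k, (∀ i, aeval x (F i) = 0) → x = 0)

include hF h0 in
theorem line_finite (hd : 2 ≤ d) (hne : NoExc (cl F)) (v : Pl k) {m : ℕ} (x : ℕ → Fin 2 → k)
    (y : ℕ → Fin m → k) (hx0 : x 0 ≠ 0) (hxs : ∀ n, x (n + 1) = sp F (x n))
    (hpar : ∀ n m, n ≠ m → cr (x n) (x m) ≠ 0) (n0 : ℕ) (c : ℝ) (hc : 0 < c)
    (hesc : ∀ n, n0 ≤ n → Real.exp (c * d ^ n) * nrm (av v) (y n) ≤ nrm (av v) (x n))
    {D : ℕ} (g : MvPolynomial (Fin 2 ⊕ Fin m) k) (hg : g.IsHomogeneous D) (hg0 : rs g ≠ 0) :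
    {n | eval (Sum.elim (x n) (y n)) g = 0}.Finite := by
  classical
  have hxit : ∀ n, x n = (sp F)^[n] (x 0) := by
    intro n
    induction n with
    | zero => rfl
    | succ n ih => rw [hxs, Function.iterate_succ_apply', ← ih]
  have hxn : ∀ n, x n ≠ 0 := by
    intro n
    rw [hxit]
    exact sp_iter_ne F (base_zero F h0) hx0 n
  obtain ⟨W, hW⟩ := exists_isExt v
  obtain ⟨C, hC, hzb⟩ := line_bound (av v) g hg
  set a := rs g with ha
  have hah : a.IsHomogeneous D := rs_hom hg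
  set a' : MvPolynomial (Fin 2) (AlgebraicClosure k) :=
    map (algebraMap k (AlgebraicClosure k)) a with ha'
  have ha'0 : a' ≠ 0 := by
    intro h
    apply hg0
    apply map_injective _ (algebraMap k (AlgebraicClosure k)).injective
    rw [map_zero]
    exact h
  obtain ⟨c0, t, hc0, ht, hfac⟩ := bin_eval (hah.map (algebraMap k (AlgebraicClosure k))) ha'0
  have hdR : (2 : ℝ) ≤ d := by exact_mod_cast hd
  set ε : ℝ := c / (2 * (D + 1)) with hε
  have hε0 : 0 < ε := by positivity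
  have hsil : ∀ i, ∃ n1 : ℕ, ∀ n, n1 ≤ n → Real.exp (-(ε * d ^ n)) ≤ dl v W (t i) (x n) := by
    intro i
    obtain ⟨n1, h⟩ := sil F hF h0 hd hne hW (x 0) hx0 (fun n m hnm => by
      rw [← hxit, ← hxit]; exact hpar n m hnm) (t i) (ht i) ε hε0
    exact ⟨n1, fun n hn => by rw [hxit]; exact h n hn⟩
  choose n1 hn1 using hsil
  set N1 := ∑ i, n1 i with hN1
  have hN1le : ∀ i, n1 i ≤ N1 := fun i =>
    Finset.single_le_sum (f := n1) (fun _ _ => Nat.zero_le _) (Finset.mem_univ i)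
  have hWc0 : 0 < W c0 := W.pos_iff.2 hc0
  obtain ⟨n2, hn2⟩ : ∃ n2 : ℕ, (C / W c0) / (c / 2) < n2 := exists_nat_gt _
  refine (Set.finite_lt_nat (n0 + N1 + n2 + 1)).subset fun n hn => ?_
  rw [Set.mem_ofPred_eq] at hn ⊢
  by_contra hlt
  push Not at hlt
  have hX := nrm_pos (av v) (hxn n)
  have hY := nrm_nonneg (av v) (y n)
  have hes := hesc n (by omega)
  have hdn : (0 : ℝ) < (d : ℝ) ^ n := by positivity
  have hxy : nrm (av v) (y n) ≤ nrm (av v) (x n) := by
    refine le_trans ?_ hes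
    have h1 : 1 ≤ Real.exp (c * d ^ n) := Real.one_le_exp (by positivity)
    nlinarith
  have h1 := hzb (x n) (y n) hxy hn
  -- the value on the line
  have h2 : av v (eval (x n) a) = W c0 * ((∏ i, dl v W (t i) (x n)) * nrm (av v) (x n) ^ D) := by
    have e1 : algebraMap k (AlgebraicClosure k) (eval (x n) a) = eval (up (x n)) a' := by
      rw [ha', eval_map]
      exact eval₂_comp (algebraMap k (AlgebraicClosure k)) (x n) a
    rw [← hW.1, e1, hfac, map_mul, map_prod]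
    congr 1
    have e2 : ∀ i, W (cr (t i) (up (x n))) = dl v W (t i) (x n) * nrm (av v) (x n) := fun i => by
      rw [dl, div_mul_cancel₀ _ hX.ne']
    rw [Finset.prod_congr rfl fun i _ => e2 i, Finset.prod_mul_distrib, Finset.prod_const,
      Finset.card_univ, Fintype.card_fin]
  have h3 : Real.exp (-(ε * d ^ n)) ^ D ≤ ∏ i, dl v W (t i) (x n) := by
    have e1 : Real.exp (-(ε * d ^ n)) ^ D = ∏ _i : Fin D, Real.exp (-(ε * d ^ n)) := by
      rw [Finset.prod_const, Finset.card_univ, Fintype.card_fin]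
    rw [e1]
    exact Finset.prod_le_prod (fun i _ => (Real.exp_pos _).le) fun i _ =>
      hn1 i n (by have := hN1le i; omega)
  have h4 : W c0 * Real.exp (-(ε * d ^ n)) ^ D * nrm (av v) (x n) ^ D ≤ av v (eval (x n) a) := by
    rw [h2, mul_assoc]
    gcongr
  have h5 : W c0 * Real.exp (-(ε * d ^ n)) ^ D * nrm (av v) (x n) ^ D * nrm (av v) (x n) *
      Real.exp (c * d ^ n) ≤ C * nrm (av v) (x n) ^ D * nrm (av v) (x n) := by
    calc _ ≤ av v (eval (x n) a) * nrm (av v) (x n) * Real.exp (c * d ^ n) := by gcongr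
      _ ≤ C * (nrm (av v) (y n) * nrm (av v) (x n) ^ D) * Real.exp (c * d ^ n) := by gcongr
      _ = C * nrm (av v) (x n) ^ D * (Real.exp (c * d ^ n) * nrm (av v) (y n)) := by ring
      _ ≤ _ := by gcongr
  have h6 : W c0 * (Real.exp (-(ε * d ^ n)) ^ D * Real.exp (c * d ^ n)) ≤ C := by
    have e1 : 0 < nrm (av v) (x n) ^ D * nrm (av v) (x n) := by positivity
    refine le_of_mul_le_mul_right (le_trans (le_of_eq ?_) (h5.trans (le_of_eq ?_))) e1
    · ring
    · ring
  rw [← Real.exp_nat_mul, ← Real.exp_add] at h6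
  have h7 : c / 2 * d ^ n ≤ (D : ℝ) * -(ε * d ^ n) + c * d ^ n := by
    have e1 : (D : ℝ) * ε ≤ c / 2 := by
      rw [hε, mul_div_assoc', div_le_div_iff₀ (by positivity) (by norm_num)]
      nlinarith
    have e2 : (D : ℝ) * -(ε * d ^ n) = -((D : ℝ) * ε * d ^ n) := by ring
    rw [e2]
    have e3 : (D : ℝ) * ε * d ^ n ≤ c / 2 * d ^ n := mul_le_mul_of_nonneg_right e1 hdn.le
    linarith
  have h8 : W c0 * (c / 2 * d ^ n) ≤ C := by
    refine le_trans ?_ h6
    refine mul_le_mul_of_nonneg_left ?_ hWc0.le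
    have e1 := Real.add_one_le_exp ((D : ℝ) * -(ε * d ^ n) + c * d ^ n)
    linarith
  have h9 : (n2 : ℝ) ≤ (d : ℝ) ^ n := by
    have e1 : n2 ≤ n := by omega
    have e2 : n < d ^ n := Nat.lt_pow_self (by omega)
    have e3 : n2 ≤ d ^ n := by omega
    exact_mod_cast e3
  have h10 := hn2.trans_le h9
  rw [div_lt_iff₀ (by positivity), div_lt_iff₀ hWc0] at h10
  linarith

end

section

variable {K : Type} [Field K] {d m : ℕ}

/-- The self-map of the cone. -/
noncomputable def spm (Ψ : Fin m → MvPolynomial (Fin m) K) (y : Fin m → K) : Fin m → K :=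
  fun i => eval y (Ψ i)

/-- The growth of the quotient of the norms. -/
theorem ratio_step (hd : 2 ≤ d) (F : Fin 2 → MvPolynomial (Fin 2) K)
    (Ψ : Fin m → MvPolynomial (Fin m) K) (f : AbsoluteValue K ℝ) (κ : ℝ) (hκ : 0 ≤ κ)
    (hA : ∀ (x : Fin 2 → K) (y : Fin m → K), x ≠ 0 →
      nrm f (spm Ψ y) * nrm f x ^ d ≤ Real.exp κ * (nrm f y ^ d * nrm f (sp F x)))
    (x : Fin 2 → K) (y : Fin m → K) (hx : x ≠ 0) (t : ℝ)
    (h : Real.exp (κ + t) * nrm f y ≤ nrm f x) :
    Real.exp (κ + d * t) * nrm f (spm Ψ y) ≤ nrm f (sp F x) := by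
  have hX := nrm_pos f hx
  have hY := nrm_nonneg f y
  have hP := nrm_nonneg f (spm Ψ y)
  have hQ := nrm_nonneg f (sp F x)
  have h1 : Real.exp (d * (κ + t)) * nrm f y ^ d ≤ nrm f x ^ d := by
    rw [Real.exp_nat_mul, ← mul_pow]
    exact pow_le_pow_left₀ (by positivity) h d
  have h2 := hA x y hx
  have hXd : 0 < nrm f x ^ d := by positivity
  have hdR : (2 : ℝ) ≤ d := by exact_mod_cast hd
  have h3 : Real.exp (κ + d * t) * Real.exp κ ≤ Real.exp (d * (κ + t)) := by
    rw [← Real.exp_add, Real.exp_le_exp]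
    nlinarith
  refine le_of_mul_le_mul_right ?_ hXd
  calc Real.exp (κ + d * t) * nrm f (spm Ψ y) * nrm f x ^ d =
        Real.exp (κ + d * t) * (nrm f (spm Ψ y) * nrm f x ^ d) := by ring
    _ ≤ Real.exp (κ + d * t) * (Real.exp κ * (nrm f y ^ d * nrm f (sp F x))) := by gcongr
    _ = (Real.exp (κ + d * t) * Real.exp κ) * nrm f y ^ d * nrm f (sp F x) := by ring
    _ ≤ Real.exp (d * (κ + t)) * nrm f y ^ d * nrm f (sp F x) := by gcongr
    _ ≤ nrm f x ^ d * nrm f (sp F x) := by gcongr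
    _ = _ := by ring

/-- The escape, from a point which is near enough to the line. -/
theorem ratio_orbit (hd : 2 ≤ d) (F : Fin 2 → MvPolynomial (Fin 2) K)
    (Ψ : Fin m → MvPolynomial (Fin m) K) (f : AbsoluteValue K ℝ) (κ : ℝ) (hκ : 0 ≤ κ)
    (hA : ∀ (x : Fin 2 → K) (y : Fin m → K), x ≠ 0 →
      nrm f (spm Ψ y) * nrm f x ^ d ≤ Real.exp κ * (nrm f y ^ d * nrm f (sp F x)))
    (x : ℕ → Fin 2 → K) (y : ℕ → Fin m → K) (hx : ∀ n, x n ≠ 0)
    (hxs : ∀ n, x (n + 1) = sp F (x n)) (hys : ∀ n, y (n + 1) = spm Ψ (y n))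
    (n0 : ℕ) (t : ℝ) (ht : 0 < t) (h : Real.exp (κ + t) * nrm f (y n0) ≤ nrm f (x n0)) :
    ∃ c : ℝ, 0 < c ∧ ∀ n, n0 ≤ n → Real.exp (c * d ^ n) * nrm f (y n) ≤ nrm f (x n) := by
  have hind : ∀ i : ℕ, Real.exp (κ + (d : ℝ) ^ i * t) * nrm f (y (n0 + i)) ≤ nrm f (x (n0 + i)) := by
    intro i
    induction i with
    | zero => rw [pow_zero, one_mul, Nat.add_zero]; exact h
    | succ i ih =>
      have h1 := ratio_step hd F Ψ f κ hκ hA _ _ (hx _) _ ih
      rw [← hxs, ← hys] at h1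
      rw [pow_succ, mul_comm ((d : ℝ) ^ i) d, mul_assoc]
      exact h1
  have hd0 : (0 : ℝ) < d := by exact_mod_cast (by omega : 0 < d)
  refine ⟨((d : ℝ) ^ n0)⁻¹ * t, by positivity, fun n hn => ?_⟩
  obtain ⟨i, rfl⟩ := Nat.exists_eq_add_of_le hn
  refine le_trans ?_ (hind i)
  refine mul_le_mul_of_nonneg_right (Real.exp_le_exp.2 ?_) (nrm_nonneg _ _)
  have e : ((d : ℝ) ^ n0)⁻¹ * t * (d : ℝ) ^ (n0 + i) = (d : ℝ) ^ i * t := by
    rw [pow_add]
    field_simp
  rw [e]
  linarith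

theorem nrm_spm (Ψ : Fin m → MvPolynomial (Fin m) K) (hΨ : ∀ i, (Ψ i).IsHomogeneous d)
    (f : AbsoluteValue K ℝ) : ∃ C : ℝ, 0 ≤ C ∧ ∀ y : Fin m → K,
      nrm f (spm Ψ y) ≤ C * nrm f y ^ d := by
  refine ⟨∑ i, cs f (Ψ i), Finset.sum_nonneg fun i _ => cs_nonneg _ _, fun y => ?_⟩
  have hy := nrm_nonneg f y
  refine nrm_le (mul_nonneg (Finset.sum_nonneg fun i _ => cs_nonneg _ _) (by positivity))
    fun i => ?_
  refine (abv_mv f (Ψ i) (hΨ i) y).trans ?_
  refine mul_le_mul_of_nonneg_right ?_ (by positivity)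
  exact Finset.single_le_sum (f := fun i => cs f (Ψ i)) (fun i _ => cs_nonneg _ _)
    (Finset.mem_univ i)

/-- Every absolute value has a constant. -/
theorem exists_const (hd : 2 ≤ d) (F : Fin 2 → MvPolynomial (Fin 2) K) (hF : ∀ i, (F i).IsHomogeneous d)
    (h0 : ∀ x : Fin 2 → AlgebraicClosure K, (∀ i, aeval x (F i) = 0) → x = 0)
    (Ψ : Fin m → MvPolynomial (Fin m) K) (hΨ : ∀ i, (Ψ i).IsHomogeneous d)
    (f : AbsoluteValue K ℝ) :
    ∃ κ : ℝ, 0 ≤ κ ∧ ∀ (x : Fin 2 → K) (y : Fin m → K), x ≠ 0 →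
      nrm f (spm Ψ y) * nrm f x ^ d ≤ Real.exp κ * (nrm f y ^ d * nrm f (sp F x)) := by
  obtain ⟨C, hC, hΨb⟩ := nrm_spm Ψ hΨ f
  obtain ⟨M, q, hq, hqe⟩ := Pool.Agent.R847.HG.exists_cert (N := 1) F hF h0
  obtain ⟨c, hc, hFb⟩ := not_small (by norm_num : 0 < 2) F (fun _ => d) hF (fun L _ _ x hx => by
    funext a
    have h1 := congrArg (aeval x) (hqe a)
    rw [map_sum, map_pow, aeval_X] at h1
    have h2 : ∑ j, aeval x (q (a, j) * F j) = 0 :=
      Finset.sum_eq_zero fun j _ => by rw [map_mul, hx, mul_zero]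
    rw [h2] at h1
    exact (pow_eq_zero_iff (by omega)).1 h1.symm) f
  refine ⟨|Real.log (C / c + 1)|, abs_nonneg _, fun x y hx => ?_⟩
  have hX := nrm_nonneg f x
  have hY := nrm_nonneg f y
  have hQ := nrm_nonneg f (sp F x)
  have h1 : c * nrm f x ^ d ≤ nrm f (sp F x) := by
    obtain ⟨i, hi⟩ := hFb x hx
    exact hi.trans (le_nrm f (sp F x) i)
  have h2 := hΨb y
  have h3 : C / c + 1 ≤ Real.exp |Real.log (C / c + 1)| := by
    rw [← Real.log_le_iff_le_exp (by positivity)]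
    exact le_abs_self _
  calc nrm f (spm Ψ y) * nrm f x ^ d ≤ C * nrm f y ^ d * nrm f x ^ d := by gcongr
    _ = C / c * (nrm f y ^ d * (c * nrm f x ^ d)) := by field_simp
    _ ≤ C / c * (nrm f y ^ d * nrm f (sp F x)) := by gcongr
    _ ≤ (C / c + 1) * (nrm f y ^ d * nrm f (sp F x)) := by
        refine mul_le_mul_of_nonneg_right (by linarith) (by positivity)
    _ ≤ _ := mul_le_mul_of_nonneg_right h3 (by positivity)

end

end Pool.Agent.L5helper26.JN
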