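import Pool.Agent.L5helper26.JN.A

/-!
Points of large height relative to the second component are attracted to the line at some place.
-/

set_option autoImplicit false
set_option linter.unusedSectionVars false

open MvPolynomial

namespace Pool.Agent.L5helper26.JN

open NumberField Height Module IsDedekindDomain
open Pool.Agent.W180.OP (Pl av wt wt_nonneg nrm le_nrm nrm_pos nrm_nonneg exists_nrm nrm_le cs
  cs_nonneg abv_mv fv)
open Pool.Agent.L5helper26.RO

variable {k : Type} [Field k] [NumberField k]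

/-- Attraction to the line `y = 0` at some place. -/
def Near (d : ℕ) {m : ℕ} (x : ℕ → Fin 2 → k) (y : ℕ → Fin m → k) : Prop :=
  ∃ (v : Pl k) (n0 : ℕ) (c : ℝ), 0 < c ∧
    ∀ n, n0 ≤ n → Real.exp (c * d ^ n) * nrm (av v) (y n) ≤ nrm (av v) (x n)

theorem nrm_append (f : AbsoluteValue k ℝ) {m : ℕ} (x : Fin 2 → k) (y : Fin m → k) :
    nrm f (Fin.append x y) ≤ max (nrm f x) (nrm f y) := by
  refine nrm_le (le_max_of_le_left (nrm_nonneg _ _)) fun i => ?_
  refine Fin.addCases (fun j => ?_) (fun j => ?_) i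
  · rw [Fin.append_left]
    exact le_max_of_le_left (le_nrm _ _ _)
  · rw [Fin.append_right]
    exact le_max_of_le_right (le_nrm _ _ _)

/-- A point whose height is large relative to the height of the second component. -/
theorem near_of_height {d m : ℕ} (hd : 2 ≤ d) (F : Fin 2 → MvPolynomial (Fin 2) k)
    (hF : ∀ i, (F i).IsHomogeneous d)
    (h0 : ∀ x : Fin 2 → AlgebraicClosure k, (∀ i, aeval x (F i) = 0) → x = 0)
    (Ψ : Fin m → MvPolynomial (Fin m) k) (hΨ : ∀ i, (Ψ i).IsHomogeneous d) :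
    ∃ C : ℝ, ∀ (x : ℕ → Fin 2 → k) (y : ℕ → Fin m → k), (∀ n, x n ≠ 0) →
      (∀ n, x (n + 1) = sp F (x n)) → (∀ n, y (n + 1) = spm Ψ (y n)) →
      logHeight (y 0) + C < logHeight (Fin.append (x 0) (y 0)) → Near d x y := by
  classical
  obtain ⟨M, q, hq, hqe⟩ := Pool.Agent.R847.HG.exists_cert (N := 1) F hF h0
  choose κ hκ0 hκ using fun v : Pl k => exists_const hd F hF h0 Ψ hΨ (av v)
  let A : Set k := (⋃ a, (fun m => (q a).coeff m) '' ((q a).support : Set (Fin 2 →₀ ℕ))) ∪
    (⋃ i, (fun κ => (Ψ i).coeff κ) '' ((Ψ i).support : Set (Fin m →₀ ℕ)))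
  have hA : A.Finite := by
    refine Set.Finite.union (Set.finite_iUnion fun a => ?_) (Set.finite_iUnion fun i => ?_)
    · exact ((q a).support.finite_toSet).image _
    · exact ((Ψ i).support.finite_toSet).image _
  obtain ⟨S, hS1, hS2⟩ := exists_S A hA
  refine ⟨∑ v ∈ S, wt v * (κ v + 1), fun x y hx hxs hys hlt => ?_⟩
  by_contra hne
  -- at all places
  have hin : ∀ v, nrm (av v) (x 0) ≤ Real.exp (κ v + 1) * nrm (av v) (y 0) := by
    intro v
    by_contra h
    push Not at h
    obtain ⟨c, hc, h1⟩ := ratio_orbit hd F Ψ (av v) (κ v) (hκ0 v) (hκ v) x y hx hxs hys 0 1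
      one_pos h.le
    exact hne ⟨v, 0, c, hc, h1⟩
  -- at the good places
  have hout : ∀ v, v ∉ S → nrm (av v) (x 0) ≤ nrm (av v) (y 0) := by
    intro v hv
    obtain ⟨hna, hint⟩ := hS2 v hv
    have hΨc : ∀ i κ, av v ((Ψ i).coeff κ) ≤ 1 := by
      intro i κ
      by_cases hm : κ ∈ (Ψ i).support
      · exact hint _ (Or.inr (Set.mem_iUnion.2 ⟨i, κ, hm, rfl⟩))
      · rw [notMem_support_iff.1 hm, map_zero]
        exact zero_le_one
    have hqc : ∀ a m, av v ((q a).coeff m) ≤ 1 := by
      intro a m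
      by_cases hm : m ∈ (q a).support
      · exact hint _ (Or.inl (Set.mem_iUnion.2 ⟨a, m, hm, rfl⟩))
      · rw [notMem_support_iff.1 hm, map_zero]
        exact zero_le_one
    have hgood : ∀ z : Fin 2 → k, z ≠ 0 → nrm (av v) z ^ d ≤ nrm (av v) (sp F z) := by
      intro z hz
      have hn := nrm_pos (av v) hz
      obtain ⟨a, ha⟩ := exists_nrm (av v) (by norm_num : 0 < 2) z
      have h1 := congrArg (eval z) (hqe a)
      rw [map_pow, eval_X, map_sum] at h1
      have h2 : nrm (av v) z ^ (M + d) ≤ nrm (av v) z ^ M * nrm (av v) (sp F z) := by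
        rw [← ha, ← map_pow, ← h1, ha]
        refine Pool.Agent.R847.HG.na_sum_le hna _ _ _ (mul_nonneg (pow_nonneg hn.le _)
          (nrm_nonneg _ _)) fun j _ => ?_
        rw [map_mul, map_mul]
        exact mul_le_mul (na_eval (av v) hna _ (hq (a, j)) (hqc (a, j)) z)
          (le_nrm (av v) (sp F z) j) ((av v).nonneg _) (pow_nonneg hn.le _)
      rw [pow_add] at h2
      exact le_of_mul_le_mul_left h2 (pow_pos hn _)
    have hup : ∀ z : Fin m → k, nrm (av v) (spm Ψ z) ≤ nrm (av v) z ^ d := fun z =>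
      nrm_le (pow_nonneg (nrm_nonneg _ _) _) fun i => na_eval (av v) hna (Ψ i) (hΨ i) (hΨc i) z
    by_contra hgt
    push Not at hgt
    have hy0 := nrm_nonneg (av v) (y 0)
    have hx0 := nrm_pos (av v) (hx 0)
    obtain ⟨t, ht, htx⟩ : ∃ t : ℝ, 0 < t ∧ Real.exp (0 + t) * nrm (av v) (y 0) ≤
        nrm (av v) (x 0) := by
      rcases eq_or_lt_of_le hy0 with h | h
      · exact ⟨1, one_pos, by rw [← h, mul_zero]; exact hx0.le⟩
      · refine ⟨Real.log (nrm (av v) (x 0) / nrm (av v) (y 0)), Real.log_pos ?_, ?_⟩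
        · rwa [one_lt_div h]
        · rw [zero_add, Real.exp_log (by positivity), div_mul_cancel₀ _ h.ne']
    obtain ⟨c, hc, h1⟩ := ratio_orbit hd F Ψ (av v) 0 le_rfl (fun x y hx => by
      have e1 := hgood x hx
      have e2 := hup y
      have e3 := nrm_nonneg (av v) y
      have e4 := nrm_nonneg (av v) x
      rw [Real.exp_zero, one_mul]
      exact mul_le_mul e2 e1 (by positivity) (by positivity)) x y hx hxs hys 0 t ht htx
    exact hne ⟨v, 0, c, hc, h1⟩
  -- normalisation
  have hy0 : y 0 ≠ 0 := by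
    intro h
    have h1 := hin (Sum.inl (Classical.arbitrary (InfinitePlace k)))
    have h2 := nrm_pos (av (Sum.inl (Classical.arbitrary (InfinitePlace k)) : Pl k)) (hx 0)
    have h3 : nrm (av (Sum.inl (Classical.arbitrary (InfinitePlace k)) : Pl k)) (y 0) ≤ 0 := by
      rw [h]
      refine nrm_le le_rfl fun j => ?_
      rw [Pi.zero_apply, map_zero]
    have h4 := Real.exp_pos (κ (Sum.inl (Classical.arbitrary (InfinitePlace k))) + 1)
    nlinarith
  obtain ⟨j, hj⟩ := Function.ne_iff.1 hy0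
  have hj : y 0 j ≠ 0 := hj
  set t : k := (y 0 j)⁻¹ with ht
  have ht0 : t ≠ 0 := inv_ne_zero hj
  set u : Fin m → k := t • y 0 with hu
  set w : Fin 2 → k := t • x 0 with hw
  have huj : u j = 1 := inv_mul_cancel₀ hj
  have hsm : ∀ (v : Pl k) (n : ℕ) (z : Fin n → k), nrm (av v) (t • z) ≤ av v t * nrm (av v) z := by
    intro v n z
    refine nrm_le (mul_nonneg ((av v).nonneg _) (nrm_nonneg _ _)) fun i => ?_
    change av v (t * z i) ≤ _
    rw [map_mul]
    exact mul_le_mul_of_nonneg_left (le_nrm _ _ _) ((av v).nonneg _)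
  have hsc : ∀ v : Pl k, av v t * nrm (av v) (y 0) ≤ nrm (av v) u := by
    intro v
    obtain ⟨i, hi⟩ := exists_nrm (av v) (Fin.pos j) (y 0)
    rw [← hi, ← map_mul]
    exact le_nrm (av v) u i
  have hw1 : ∀ v, nrm (av v) w ≤ Real.exp (κ v + 1) * nrm (av v) u := by
    intro v
    have e1 := hsm v 2 (x 0)
    have e2 := mul_le_mul_of_nonneg_left (hin v) ((av v).nonneg t)
    have e3 := mul_le_mul_of_nonneg_left (hsc v) (Real.exp_pos (κ v + 1)).le
    linarith
  have hw2 : ∀ v, v ∉ S → nrm (av v) w ≤ nrm (av v) u := by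
    intro v hv
    have e1 := hsm v 2 (x 0)
    have e2 := mul_le_mul_of_nonneg_left (hout v hv) ((av v).nonneg t)
    have e3 := hsc v
    linarith
  have hh1 : logHeight (y 0) = logHeight u := by
    rw [hu, logHeight_smul_eq_logHeight _ ht0]
  have happ : Fin.append w u = t • Fin.append (x 0) (y 0) := by
    funext i
    refine Fin.addCases (fun l => ?_) (fun l => ?_) i
    · rw [Fin.append_left, Pi.smul_apply, Fin.append_left]; rfl
    · rw [Fin.append_right, Pi.smul_apply, Fin.append_right]; rfl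
  have hh2 : logHeight (Fin.append (x 0) (y 0)) = logHeight (Fin.append w u) := by
    rw [happ, logHeight_smul_eq_logHeight _ ht0]
  obtain ⟨S2, hS21, hS22⟩ := exists_S (Set.range (Fin.append w u)) (Set.finite_range _)
  have hvc0 : Fin.append w u ≠ 0 := by
    intro h
    have := congrFun h (Fin.natAdd 2 j)
    rw [Fin.append_right, huj] at this
    exact one_ne_zero this
  have hu0 : u ≠ 0 := by
    intro h
    have := congrFun h j
    rw [huj] at this
    exact one_ne_zero this
  have g1 := Pool.Agent.R847.SN.height_le (S ∪ S2) (fun w => Finset.mem_union_left _ (hS1 w))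
    (Fin.append w u) hvc0
    (fun v hv e => (hS22 v fun h => hv (Finset.mem_union_right _ h)).2 _ ⟨e, rfl⟩)
  have g2 := height_ge u j huj (S ∪ S2)
  have g3 : ∑ v ∈ S ∪ S2, wt v * Real.log (nrm (av v) (Fin.append w u)) ≤
      ∑ v ∈ S ∪ S2, (wt v * Real.log (nrm (av v) u) + if v ∈ S then wt v * (κ v + 1) else 0) := by
    refine Finset.sum_le_sum fun v _ => ?_
    have hnu := nrm_pos (av v) hu0
    split_ifs with hv
    · rw [← mul_add]
      refine mul_le_mul_of_nonneg_left ?_ (wt_nonneg v)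
      have e1 : κ v + 1 = Real.log (Real.exp (κ v + 1)) := (Real.log_exp _).symm
      rw [e1, ← Real.log_mul hnu.ne' (Real.exp_pos _).ne']
      refine Real.log_le_log (nrm_pos (av v) hvc0) ?_
      refine (nrm_append (av v) w u).trans (max_le ?_ ?_)
      · have := hw1 v
        linarith
      · have h1 : 1 ≤ Real.exp (κ v + 1) := Real.one_le_exp (by have := hκ0 v; linarith)
        nlinarith
    · rw [add_zero]
      refine mul_le_mul_of_nonneg_left ?_ (wt_nonneg v)
      exact Real.log_le_log (nrm_pos (av v) hvc0)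
        ((nrm_append (av v) w u).trans (max_le (hw2 v hv) le_rfl))
  rw [Finset.sum_add_distrib, Finset.sum_ite_mem, Finset.union_inter_cancel_left] at g3
  rw [hh1, hh2] at hlt
  linarith

end Pool.Agent.L5helper26.JN
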