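import Pool.Agent.L5helper26.JN.B

/-!
From number fields to the complex numbers.
-/

set_option autoImplicit false
set_option linter.unusedSectionVars false

open MvPolynomial

namespace Pool.Agent.L5helper26.JN

open NumberField Height Module IsDedekindDomain
open Pool.Agent.W180.OP (Pl av wt wt_nonneg nrm le_nrm nrm_pos nrm_nonneg exists_nrm nrm_le)
open Pool.Agent.L5helper26.RO

theorem rs_map {K L : Type} [Field K] [Field L] (j : K →+* L) {m : ℕ}
    (g : MvPolynomial (Fin 2 ⊕ Fin m) K) : rs (map j g) = map j (rs g) := by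
  induction g using MvPolynomial.induction_on with
  | C a => simp [rs]
  | add p q hp hq =>
    rw [rs] at hp hq ⊢
    rw [rs] at hp hq ⊢
    rw [map_add, map_add, map_add, map_add, hp, hq]
  | mul_X p i hp =>
    rw [rs] at hp ⊢
    rw [rs] at hp ⊢
    rw [map_mul, map_mul, map_mul, map_mul, hp, map_X, aeval_X, aeval_X]
    rcases i with i | i
    · simp
    · simp

/-- An orbit which is attracted to the line returns only finitely often to a closed set which does
not contain the line. -/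
theorem fin_core {k : Type} [Field k] [NumberField k] (j : k →+* ℂ) {d : ℕ} (hd : 2 ≤ d)
    (F : Fin 2 → MvPolynomial (Fin 2) k) (hF : ∀ i, (F i).IsHomogeneous d)
    (h0 : ∀ x : Fin 2 → ℂ, (∀ i, eval x (mp j F i) = 0) → x = 0) (hne : NoExc (mp j F))
    {m : ℕ} (x : ℕ → Fin 2 → k) (y : ℕ → Fin m → k) (hx : x 0 ≠ 0)
    (hxs : ∀ n, x (n + 1) = sp F (x n)) (hpar : ∀ n m, n ≠ m → cr (x n) (x m) ≠ 0)
    (hnear : Near d x y) (g : MvPolynomial (Fin 2 ⊕ Fin m) ℂ) (D : ℕ) (hg : g.IsHomogeneous D)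
    (p : Fin 2 → ℂ) (hgp : eval (Sum.elim p 0) g ≠ 0) :
    {n | eval (Sum.elim (fun i => j (x n i)) fun i => j (y n i)) g = 0}.Finite := by
  letI : Algebra k ℂ := j.toAlgebra
  obtain ⟨r, c, q, hc, hgq, hq⟩ := exists_cmp (K := k) g
  obtain ⟨h0', hne'⟩ := cl_data j (by omega) F hF h0 hne
  obtain ⟨v, n0, c', hc', hes⟩ := hnear
  have hex : ∃ i, rs (q i) ≠ 0 := by
    by_contra hall
    push Not at hall
    apply hgp
    rw [← eval_rs, hgq]
    have h1 : rs (∑ i, C (c i) * map (algebraMap k ℂ) (q i)) = 0 := by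
      rw [rs, map_sum]
      refine Finset.sum_eq_zero fun i _ => ?_
      rw [map_mul]
      have h2 := rs_map (algebraMap k ℂ) (q i)
      rw [hall i, map_zero, rs] at h2
      rw [h2, mul_zero]
    rw [h1, map_zero]
  obtain ⟨i, hi⟩ := hex
  refine (line_finite F hF h0' hd hne' v x y hx hxs hpar n0 c' hc' hes (q i) (hq D hg i)
    hi).subset fun n hn => ?_
  rw [Set.mem_ofPred_eq] at hn ⊢
  refine (eval_cmp hc hgq (Sum.elim (x n) (y n))).1 ?_ i
  have e : (fun l => algebraMap k ℂ (Sum.elim (x n) (y n) l)) =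
      Sum.elim (fun i => j (x n i)) fun i => j (y n i) := by
    funext l
    rcases l with l | l
    · rfl
    · rfl
  rw [e]
  exact hn

/-- The same with the components exchanged. -/
theorem fin_core' {k : Type} [Field k] [NumberField k] (j : k →+* ℂ) {d : ℕ} (hd : 2 ≤ d)
    (G : Fin 2 → MvPolynomial (Fin 2) k) (hG : ∀ i, (G i).IsHomogeneous d)
    (h0 : ∀ x : Fin 2 → ℂ, (∀ i, eval x (mp j G i) = 0) → x = 0) (hne : NoExc (mp j G))
    (x : ℕ → Fin 2 → k) (y : ℕ → Fin 2 → k) (hy : y 0 ≠ 0)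
    (hys : ∀ n, y (n + 1) = sp G (y n)) (hpar : ∀ n m, n ≠ m → cr (y n) (y m) ≠ 0)
    (hnear : Near d y x) (g : MvPolynomial (Fin 2 ⊕ Fin 2) ℂ) (D : ℕ) (hg : g.IsHomogeneous D)
    (p : Fin 2 → ℂ) (hgp : eval (Sum.elim 0 p) g ≠ 0) :
    {n | eval (Sum.elim (fun i => j (x n i)) fun i => j (y n i)) g = 0}.Finite := by
  have hsw : ∀ a b : Fin 2 → ℂ, eval (Sum.elim a b) (rename Sum.swap g) = eval (Sum.elim b a) g := by
    intro a b
    rw [eval_rename]
    congr 2
    funext i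
    rcases i with i | i
    · rfl
    · rfl
  have h := fin_core j hd G hG h0 hne y x hy hys hpar hnear (rename Sum.swap g) D
    hg.rename_isHomogeneous p (by rw [hsw]; exact hgp)
  refine h.subset fun n hn => ?_
  rw [Set.mem_ofPred_eq] at hn ⊢
  rw [hsw]
  exact hn

/-! ### Places from absolute values of the complex numbers -/

section

variable {k : Type} [Field k] [NumberField k]

theorem nrm_rpow' (v : Pl k) (f : AbsoluteValue k ℝ) (s : ℝ) (hs : 0 < s)
    (h : ∀ x, f x = av v x ^ s) {m : ℕ} (x : Fin m → k) : nrm f x = nrm (av v) x ^ s := by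
  rcases Nat.eq_zero_or_pos m with rfl | hm
  · rw [nrm, nrm, Real.iSup_of_isEmpty, Real.iSup_of_isEmpty, Real.zero_rpow hs.ne']
  obtain ⟨i, hi⟩ := exists_nrm f hm x
  obtain ⟨j, hj⟩ := exists_nrm (av v) hm x
  apply le_antisymm
  · rw [← hi, h]
    exact Real.rpow_le_rpow ((av v).nonneg _) (le_nrm _ _ _) hs.le
  · rw [← hj, ← h]
    exact le_nrm _ _ _

theorem spm_zero {K : Type} [Field K] {d m : ℕ} (hd : 1 ≤ d) (Ψ : Fin m → MvPolynomial (Fin m) K)
    (hΨ : ∀ i, (Ψ i).IsHomogeneous d) : spm Ψ 0 = 0 := by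
  funext l
  change eval 0 (Ψ l) = 0
  rw [MvPolynomial.eval_zero, constantCoeff_eq]
  refine (hΨ l).coeff_eq_zero ?_
  rw [map_zero]
  omega

/-- An orbit which is not bounded away from the line with respect to an absolute value. -/
theorem near_of_unbounded (j : k →+* ℂ) {d m : ℕ} (hd : 2 ≤ d)
    (F : Fin 2 → MvPolynomial (Fin 2) k) (hF : ∀ i, (F i).IsHomogeneous d)
    (h0 : ∀ x : Fin 2 → AlgebraicClosure k, (∀ i, aeval x (F i) = 0) → x = 0)
    (Ψ : Fin m → MvPolynomial (Fin m) k) (hΨ : ∀ i, (Ψ i).IsHomogeneous d)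
    (x : ℕ → Fin 2 → k) (y : ℕ → Fin m → k) (hx : ∀ n, x n ≠ 0)
    (hxs : ∀ n, x (n + 1) = sp F (x n)) (hys : ∀ n, y (n + 1) = spm Ψ (y n))
    (f : AbsoluteValue ℂ ℝ) (hf : IsNonarchimedean f ∨ ∃ σ : ℂ →+* ℂ, ∀ z, f z = ‖σ z‖)
    (hub : ∀ B : ℝ, ∃ n : ℕ, ∃ i : Fin 2, ∀ l : Fin m, B * f (j (y n l)) < f (j (x n i))) :
    Near d x y := by
  let f' : AbsoluteValue k ℝ := f.comp (f := j) j.injective
  have hf' : ∀ z, f' z = f (j z) := fun z => rfl
  have hub' : ∀ B : ℝ, 0 ≤ B → ∃ n, B * nrm f' (y n) < nrm f' (x n) := by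
    intro B hB
    obtain ⟨n, i, hn⟩ := hub B
    refine ⟨n, ?_⟩
    rcases Nat.eq_zero_or_pos m with rfl | hm
    · rw [nrm, Real.iSup_of_isEmpty, mul_zero]
      exact nrm_pos f' (hx n)
    · obtain ⟨l, hl⟩ := exists_nrm f' hm (y n)
      rw [← hl]
      exact (hn l).trans_le (le_nrm f' (x n) i)
  obtain ⟨κ, hκ, hA⟩ := exists_const hd F hF h0 Ψ hΨ f'
  obtain ⟨n0, hn0⟩ := hub' (Real.exp (κ + 1)) (Real.exp_pos _).le
  obtain ⟨c, hc0, hes⟩ := ratio_orbit hd F Ψ f' κ hκ hA x y hx hxs hys n0 1 one_pos hn0.le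
  have hplace : (∃ (v : Pl k) (s : ℝ), 0 < s ∧ ∀ z, f' z = av v z ^ s) ∨
      ∃ n, y n = 0 := by
    rcases hf with hna | ⟨σ, hσ⟩
    · have hna' : IsNonarchimedean f' := fun z w => by
        rw [hf', hf', hf', map_add]
        exact hna _ _
      by_cases hnt : f'.IsNontrivial
      · exact Or.inl (exists_place f' hna' hnt)
      · right
        have h1 : ∀ z, z ≠ 0 → f' z = 1 := by
          intro z hz
          by_contra h
          exact hnt ⟨z, hz, h⟩
        obtain ⟨n, hn⟩ := hub' 1 zero_le_one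
        refine ⟨n, ?_⟩
        by_contra hy
        obtain ⟨i, hi⟩ := Function.ne_iff.1 hy
        have h3 : 1 ≤ nrm f' (y n) := by
          rw [← h1 (y n i) hi]
          exact le_nrm _ _ _
        have h2 : nrm f' (x n) ≤ 1 := nrm_le zero_le_one fun l => by
          by_cases h : x n l = 0
          · rw [h, map_zero]
            exact zero_le_one
          · rw [h1 _ h]
        linarith
    · refine Or.inl ⟨Sum.inl (InfinitePlace.mk (σ.comp j)), 1, one_pos, fun z => ?_⟩
      rw [Real.rpow_one, hf', hσ]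
      rfl
  rcases hplace with ⟨v, s, hs, hvs⟩ | ⟨n1, hn1⟩
  · refine ⟨v, n0, c / s, div_pos hc0 hs, fun n hn => ?_⟩
    have h1 := hes n hn
    rw [nrm_rpow' v f' s hs hvs, nrm_rpow' v f' s hs hvs] at h1
    have h2 : Real.exp (c * d ^ n) = (Real.exp (c / s * d ^ n)) ^ s := by
      rw [← Real.exp_mul]
      congr 1
      field_simp
    rw [h2, ← Real.mul_rpow (Real.exp_pos _).le (nrm_nonneg _ _)] at h1
    exact (Real.rpow_le_rpow_iff (mul_nonneg (Real.exp_pos _).le (nrm_nonneg _ _))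
      (nrm_nonneg _ _) hs).1 h1
  · have hz : ∀ n, n1 ≤ n → y n = 0 := by
      intro n hn
      obtain ⟨i, rfl⟩ := Nat.exists_eq_add_of_le hn
      induction i with
      | zero => exact hn1
      | succ i ih =>
        have h1 : y (n1 + (i + 1)) = spm Ψ (y (n1 + i)) := hys (n1 + i)
        rw [h1, ih (Nat.le_add_right _ _)]
        exact spm_zero (by omega) Ψ hΨ
    refine ⟨Sum.inl (Classical.arbitrary (InfinitePlace k)), n1, 1, one_pos, fun n hn => ?_⟩
    rw [hz n hn]
    have h1 : nrm (av (Sum.inl (Classical.arbitrary (InfinitePlace k)) : Pl k)) (0 : Fin m → k) ≤ 0 :=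
      nrm_le le_rfl fun l => by rw [Pi.zero_apply, map_zero]
    have h2 := nrm_nonneg (av (Sum.inl (Classical.arbitrary (InfinitePlace k)) : Pl k)) (x n)
    have h3 := Real.exp_pos (1 * (d : ℝ) ^ n)
    nlinarith

end

end Pool.Agent.L5helper26.JN
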