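import Pool.Agent.L5helper26.JN.C

/-!
The statements over the complex numbers.
-/

set_option autoImplicit false
set_option linter.unusedSectionVars false

open MvPolynomial

namespace Pool.Agent.L5helper26.JN

open NumberField Height Module IsDedekindDomain
open Pool.Agent.W180.OP (Pl av wt wt_nonneg nrm le_nrm nrm_pos nrm_nonneg exists_nrm nrm_le)
open Pool.Agent.L5helper26.RO

/-- The self-map of the cone. -/
noncomputable def cm {ι K : Type} [Field K] (f : ι → MvPolynomial ι K) (x : ι → K) : ι → K :=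
  fun i => eval x (f i)

/-- The join. -/
noncomputable def jo {ι κ K : Type} [Field K] (f : ι → MvPolynomial ι K)
    (g : κ → MvPolynomial κ K) : ι ⊕ κ → MvPolynomial (ι ⊕ κ) K :=
  Sum.elim (fun i => rename Sum.inl (f i)) fun i => rename Sum.inr (g i)

theorem cm_jo {ι κ K : Type} [Field K] (f : ι → MvPolynomial ι K) (g : κ → MvPolynomial κ K)
    (a : ι ⊕ κ → K) : cm (jo f g) a =
      Sum.elim (cm f fun i => a (Sum.inl i)) (cm g fun i => a (Sum.inr i)) := by
  funext i
  rcases i with i | i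
  · change eval a (rename Sum.inl (f i)) = eval _ (f i)
    rw [eval_rename]
    rfl
  · change eval a (rename Sum.inr (g i)) = eval _ (g i)
    rw [eval_rename]
    rfl

theorem cm_jo_iter {ι κ K : Type} [Field K] (f : ι → MvPolynomial ι K)
    (g : κ → MvPolynomial κ K) (x : ι → K) (y : κ → K) (n : ℕ) :
    (cm (jo f g))^[n] (Sum.elim x y) = Sum.elim ((cm f)^[n] x) ((cm g)^[n] y) := by
  induction n with
  | zero => rfl
  | succ n ih =>
    rw [Function.iterate_succ_apply', ih, cm_jo, Function.iterate_succ_apply',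
      Function.iterate_succ_apply']
    rfl

theorem cm_map {ι K L : Type} [Field K] [Field L] (j : K →+* L) (f : ι → MvPolynomial ι K)
    (x : ι → K) : cm (fun i => map j (f i)) (fun i => j (x i)) = fun i => j (cm f x i) := by
  funext i
  change eval _ (map j (f i)) = j (eval x (f i))
  rw [eval_map]
  exact (eval₂_comp j x (f i)).symm

theorem cm_map_iter {ι K L : Type} [Field K] [Field L] (j : K →+* L) (f : ι → MvPolynomial ι K)
    (x : ι → K) (n : ℕ) : (cm fun i => map j (f i))^[n] (fun i => j (x i)) =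
      fun i => j ((cm f)^[n] x i) := by
  induction n with
  | zero => rfl
  | succ n ih => rw [Function.iterate_succ_apply', ih, cm_map, Function.iterate_succ_apply']

/-- The points of the orbit are pairwise different. -/
def Inf (F : Fin 2 → MvPolynomial (Fin 2) ℂ) (x : Fin 2 → ℂ) : Prop :=
  ∀ n m : ℕ, n ≠ m → ¬ ∃ c : ℂ, c ≠ 0 ∧ (cm F)^[n] x = c • (cm F)^[m] x

/-- Finitely many returns to each closed set which does not contain the line. -/
def Fin1 {m : ℕ} (Φ : Fin 2 ⊕ Fin m → MvPolynomial (Fin 2 ⊕ Fin m) ℂ)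
    (a : Fin 2 ⊕ Fin m → ℂ) : Prop :=
  ∀ S : Set (MvPolynomial (Fin 2 ⊕ Fin m) ℂ), (∀ g ∈ S, ∃ e : ℕ, g.IsHomogeneous e) →
    (∃ g ∈ S, ∃ p : Fin 2 → ℂ, eval (Sum.elim p 0) g ≠ 0) →
      {n : ℕ | ∀ g ∈ S, eval ((cm Φ)^[n] a) g = 0}.Finite

section

variable {k : Type} [Field k] [NumberField k] (j : k →+* ℂ) {d m : ℕ}
  (F : Fin 2 → MvPolynomial (Fin 2) k) (hF : ∀ i, (F i).IsHomogeneous d)
  (h0 : ∀ x : Fin 2 → ℂ, (∀ i, eval x (mp j F i) = 0) → x = 0)
  (Ψ : Fin m → MvPolynomial (Fin m) k) (hΨ : ∀ i, (Ψ i).IsHomogeneous d)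
  (hne : NoExc (mp j F))

include h0 in
theorem inf_ne (hd : 2 ≤ d) (hF : ∀ i, (F i).IsHomogeneous d) {x : Fin 2 → k}
    (hinf : Inf (mp j F) fun i => j (x i)) : x ≠ 0 := by
  rintro rfl
  refine hinf 0 1 (by omega) ⟨1, one_ne_zero, ?_⟩
  have h1 : (fun i : Fin 2 => j ((0 : Fin 2 → k) i)) = 0 := funext fun i => map_zero j
  rw [one_smul, Function.iterate_zero, id, Function.iterate_one, h1]
  have h2 := spm_zero (K := ℂ) (by omega : 1 ≤ d) (mp j F) fun i => (hF i).map _
  exact h2.symm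

include hF h0 hne in
theorem inf_par (hd : 2 ≤ d) {x : Fin 2 → k} (hinf : Inf (mp j F) fun i => j (x i)) :
    ∀ n m, n ≠ m → cr ((sp F)^[n] x) ((sp F)^[m] x) ≠ 0 := by
  have hx := inf_ne j F h0 hd hF hinf
  obtain ⟨h0', -⟩ := cl_data j (by omega) F hF h0 hne
  intro n m hnm h
  refine hinf n m hnm ?_
  have e : ∀ n, (cm (mp j F))^[n] (fun i => j (x i)) = fun i => j ((sp F)^[n] x i) :=
    fun n => cm_map_iter j F x n
  rw [e, e]
  exact (par_iff j (sp_iter_ne F (base_zero F h0') hx n) (sp_iter_ne F (base_zero F h0') hx m)).2 h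

include hF h0 hne in
theorem fin1_of_near (hd : 2 ≤ d) (x : Fin 2 → k) (y : Fin m → k)
    (hinf : Inf (mp j F) fun i => j (x i))
    (hnear : Near d (fun n => (sp F)^[n] x) fun n => (spm Ψ)^[n] y) :
    Fin1 (jo (mp j F) fun i => map j (Ψ i)) (Sum.elim (fun i => j (x i)) fun i => j (y i)) := by
  rintro S hS ⟨g, hgS, p, hp⟩
  obtain ⟨D, hD⟩ := hS g hgS
  refine (fin_core j hd F hF h0 hne (fun n => (sp F)^[n] x) (fun n => (spm Ψ)^[n] y)
    (inf_ne j F h0 hd hF hinf) (fun n => Function.iterate_succ_apply' _ _ _)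
    (inf_par j F hF h0 hne hd hinf) hnear g D hD p hp).subset fun n hn => ?_
  have h1 := hn g hgS
  rw [cm_jo_iter] at h1
  have e1 : (cm (mp j F))^[n] (fun i => j (x i)) = fun i => j ((sp F)^[n] x i) :=
    cm_map_iter j F x n
  have e2 : (cm fun i => map j (Ψ i))^[n] (fun i => j (y i)) = fun i => j ((spm Ψ)^[n] y i) :=
    cm_map_iter j Ψ y n
  rw [e1, e2] at h1
  exact h1

end

end Pool.Agent.L5helper26.JN
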