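import Pool.Agent.L5helper26.JN.D

/-!
The statements over the complex numbers: the criterion, heights, planes through the line.
-/

set_option autoImplicit false
set_option linter.unusedSectionVars false

open MvPolynomial

namespace Pool.Agent.L5helper26.JN

open NumberField Height Module IsDedekindDomain
open Pool.Agent.W180.OP (Pl av wt wt_nonneg nrm le_nrm nrm_pos nrm_nonneg exists_nrm nrm_le)
open Pool.Agent.L5helper26.RO

section

variable {k : Type} [Field k] [NumberField k] (j : k →+* ℂ) {d m : ℕ}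
  (F : Fin 2 → MvPolynomial (Fin 2) k) (hF : ∀ i, (F i).IsHomogeneous d)
  (h0 : ∀ x : Fin 2 → ℂ, (∀ i, eval x (mp j F i) = 0) → x = 0)
  (Ψ : Fin m → MvPolynomial (Fin m) k) (hΨ : ∀ i, (Ψ i).IsHomogeneous d)
  (hne : NoExc (mp j F))

include hF h0 hΨ hne in
theorem height_k (hd : 2 ≤ d) : ∃ C : ℝ, ∀ (x : Fin 2 → k) (y : Fin m → k),
    Inf (mp j F) (fun i => j (x i)) → logHeight y + C < logHeight (Sum.elim x y) →
      Fin1 (jo (mp j F) fun i => map j (Ψ i)) (Sum.elim (fun i => j (x i)) fun i => j (y i)) := by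
  obtain ⟨h0', -⟩ := cl_data j (by omega) F hF h0 hne
  obtain ⟨C, hC⟩ := near_of_height hd F hF h0' Ψ hΨ
  refine ⟨C, fun x y hinf hlt => ?_⟩
  have hx := inf_ne j F h0 hd hF hinf
  refine fin1_of_near j F hF h0 Ψ hne hd x y hinf (hC (fun n => (sp F)^[n] x)
    (fun n => (spm Ψ)^[n] y) (fun n => sp_iter_ne F (base_zero F h0') hx n)
    (fun n => Function.iterate_succ_apply' _ _ _) (fun n => Function.iterate_succ_apply' _ _ _) ?_)
  have h1 : logHeight (Fin.append x y) = logHeight (Sum.elim x y) := by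
    have e : Fin.append x y = Sum.elim x y ∘ finSumFinEquiv.symm := by
      funext i
      refine Fin.addCases (fun l => ?_) (fun l => ?_) i
      · simp
      · simp
    rw [e]
    exact logHeight_comp_equiv _ _
  change logHeight y + C < logHeight (Fin.append x y)
  rw [h1]
  exact hlt

include hF h0 hΨ hne in
theorem unbounded_k (hd : 2 ≤ d) (x : Fin 2 → k) (y : Fin m → k)
    (hinf : Inf (mp j F) fun i => j (x i)) (f : AbsoluteValue ℂ ℝ)
    (hf : IsNonarchimedean f ∨ ∃ σ : ℂ →+* ℂ, ∀ z, f z = ‖σ z‖)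
    (hub : ∀ B : ℝ, ∃ n : ℕ, ∃ i : Fin 2, ∀ l : Fin m,
      B * f ((cm (jo (mp j F) fun i => map j (Ψ i)))^[n]
        (Sum.elim (fun i => j (x i)) fun i => j (y i)) (Sum.inr l)) <
      f ((cm (jo (mp j F) fun i => map j (Ψ i)))^[n]
        (Sum.elim (fun i => j (x i)) fun i => j (y i)) (Sum.inl i))) :
    Fin1 (jo (mp j F) fun i => map j (Ψ i)) (Sum.elim (fun i => j (x i)) fun i => j (y i)) := by
  obtain ⟨h0', -⟩ := cl_data j (by omega) F hF h0 hne
  have hx := inf_ne j F h0 hd hF hinf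
  refine fin1_of_near j F hF h0 Ψ hne hd x y hinf (near_of_unbounded j hd F hF h0' Ψ hΨ _ _
    (fun n => sp_iter_ne F (base_zero F h0') hx n)
    (fun n => Function.iterate_succ_apply' _ _ _) (fun n => Function.iterate_succ_apply' _ _ _)
    f hf fun B => ?_)
  obtain ⟨n, i, hn⟩ := hub B
  refine ⟨n, i, fun l => ?_⟩
  have h1 := hn l
  rw [cm_jo_iter] at h1
  have e1 : (cm (mp j F))^[n] (fun i => j (x i)) = fun i => j ((sp F)^[n] x i) :=
    cm_map_iter j F x n
  have e2 : (cm fun i => map j (Ψ i))^[n] (fun i => j (y i)) = fun i => j ((spm Ψ)^[n] y i) :=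
    cm_map_iter j Ψ y n
  rw [e1, e2] at h1
  exact h1

end

theorem exists_descJ {d m : ℕ} (F : Fin 2 → MvPolynomial (Fin 2) ℂ)
    (hF : ∀ i, (F i).IsHomogeneous d) (hFa : ∀ i κ, IsAlgebraic ℚ ((F i).coeff κ))
    (Ψ : Fin m → MvPolynomial (Fin m) ℂ) (hΨ : ∀ i, (Ψ i).IsHomogeneous d)
    (hΨa : ∀ i κ, IsAlgebraic ℚ ((Ψ i).coeff κ)) (C : Finset ℂ) (hC : ∀ t ∈ C, IsAlgebraic ℚ t) :
    ∃ (k : Type) (_ : Field k) (_ : NumberField k) (j : k →+* ℂ)
      (F' : Fin 2 → MvPolynomial (Fin 2) k) (Ψ' : Fin m → MvPolynomial (Fin m) k),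
      mp j F' = F ∧ (fun i => map j (Ψ' i)) = Ψ ∧ (∀ i, (F' i).IsHomogeneous d) ∧
      (∀ i, (Ψ' i).IsHomogeneous d) ∧ ∀ t ∈ C, t ∈ j.range := by
  classical
  let C' : Finset ℂ := (Finset.univ.biUnion fun i => (F i).support.image fun κ => (F i).coeff κ) ∪
    (Finset.univ.biUnion fun i => (Ψ i).support.image fun κ => (Ψ i).coeff κ) ∪ C
  have hC' : ∀ t ∈ C', IsAlgebraic ℚ t := by
    intro t ht
    simp only [C', Finset.mem_union, Finset.mem_biUnion, Finset.mem_image, Finset.mem_univ,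
      true_and] at ht
    rcases ht with (⟨i, κ, -, rfl⟩ | ⟨i, κ, -, rfl⟩) | h
    · exact hFa i κ
    · exact hΨa i κ
    · exact hC t h
  obtain ⟨k, _, _, j, hj⟩ := exists_nf C' hC'
  have hFj : ∀ i κ, (F i).coeff κ ∈ j.range := by
    intro i κ
    by_cases hκ : κ ∈ (F i).support
    · refine hj _ ?_
      simp only [C', Finset.mem_union, Finset.mem_biUnion, Finset.mem_image, Finset.mem_univ,
        true_and]
      exact Or.inl (Or.inl ⟨i, κ, hκ, rfl⟩)
    · rw [notMem_support_iff.1 hκ]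
      exact zero_mem _
  have hΨj : ∀ i κ, (Ψ i).coeff κ ∈ j.range := by
    intro i κ
    by_cases hκ : κ ∈ (Ψ i).support
    · refine hj _ ?_
      simp only [C', Finset.mem_union, Finset.mem_biUnion, Finset.mem_image, Finset.mem_univ,
        true_and]
      exact Or.inl (Or.inr ⟨i, κ, hκ, rfl⟩)
    · rw [notMem_support_iff.1 hκ]
      exact zero_mem _
  choose F' hF' using fun i => exists_lift j (F i) (hFj i)
  choose Ψ' hΨ' using fun i => exists_lift j (Ψ i) (hΨj i)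
  exact ⟨k, inferInstance, inferInstance, j, F', Ψ', funext hF', funext hΨ',
    fun i => hom_of_map j (by rw [hF']; exact hF i),
    fun i => hom_of_map j (by rw [hΨ']; exact hΨ i),
    fun t ht => hj t (Finset.mem_union_right _ ht)⟩

/-- The Northcott property for the plane spanned by the line and a point. -/
theorem finite_plane {k : Type} [Field k] [NumberField k] {m : ℕ} (y : Fin m → k) (hy : y ≠ 0)
    (C : ℝ) : {x : Fin 2 → k | logHeight (Sum.elim x y) ≤ C}.Finite := by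
  obtain ⟨l, hl⟩ := Function.ne_iff.1 hy
  have hl : y l ≠ 0 := hl
  have h1 : {z : k | logHeight₁ z ≤ C}.Finite := Northcott.finite_le C
  have h2 : (Set.pi Set.univ fun _ : Fin 2 =>
      (fun z => z * y l) '' {z : k | logHeight₁ z ≤ C}).Finite :=
    Set.Finite.pi fun _ => h1.image _
  refine h2.subset fun x hx i _ => ?_
  rw [Set.mem_ofPred_eq] at hx
  refine ⟨x i / y l, ?_, by change x i / y l * y l = x i; rw [div_mul_cancel₀ _ hl]⟩
  rw [Set.mem_ofPred_eq, logHeight₁_div_eq_logHeight]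
  refine le_trans ?_ hx
  have h3 := logHeight_comp_le ![Sum.inl i, Sum.inr l] (Sum.elim x y)
  have e : Sum.elim x y ∘ ![Sum.inl i, Sum.inr l] = ![x i, y l] := by
    funext l
    fin_cases l
    · rfl
    · rfl
  rw [e] at h3
  exact h3

section

variable {d m : ℕ} (F : Fin 2 → MvPolynomial (Fin 2) ℂ) (hF : ∀ i, (F i).IsHomogeneous d)
  (hFa : ∀ i κ, IsAlgebraic ℚ ((F i).coeff κ))
  (h0 : ∀ x : Fin 2 → ℂ, (∀ i, eval x (F i) = 0) → x = 0)
  (Ψ : Fin m → MvPolynomial (Fin m) ℂ) (hΨ : ∀ i, (Ψ i).IsHomogeneous d)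
  (hΨa : ∀ i κ, IsAlgebraic ℚ ((Ψ i).coeff κ)) (hne : NoExc F)

include hF hFa h0 hΨ hΨa hne in
theorem unboundedJ (hd : 2 ≤ d) (a : Fin 2 ⊕ Fin m → ℂ) (ha : ∀ i, IsAlgebraic ℚ (a i))
    (hinf : Inf F fun i => a (Sum.inl i)) (f : AbsoluteValue ℂ ℝ)
    (hf : IsNonarchimedean f ∨ ∃ σ : ℂ →+* ℂ, ∀ z, f z = ‖σ z‖)
    (hub : ∀ B : ℝ, ∃ n : ℕ, ∃ i : Fin 2, ∀ l : Fin m,
      B * f ((cm (jo F Ψ))^[n] a (Sum.inr l)) < f ((cm (jo F Ψ))^[n] a (Sum.inl i))) :
    Fin1 (jo F Ψ) a := by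
  classical
  obtain ⟨k, _, _, j, F', Ψ', e1, e2, h3, h4, h5⟩ := exists_descJ F hF hFa Ψ hΨ hΨa
    (Finset.univ.image a) (by
      intro t ht
      obtain ⟨i, -, rfl⟩ := Finset.mem_image.1 ht
      exact ha i)
  choose a' ha' using fun i => h5 (a i) (Finset.mem_image.2 ⟨i, Finset.mem_univ _, rfl⟩)
  subst e1 e2
  have e : a = Sum.elim (fun i => j (a' (Sum.inl i))) fun i => j (a' (Sum.inr i)) := by
    funext i
    rcases i with i | i
    · exact (ha' _).symm
    · exact (ha' _).symm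
  rw [e] at hinf hub ⊢
  exact unbounded_k j F' h3 h0 Ψ' h4 hne hd _ _ hinf f hf hub

include hF h0 hΨ hne in
theorem heightJ (hd : 2 ≤ d) (E : IntermediateField ℚ ℂ) [NumberField E]
    (hFE : ∀ i κ, (F i).coeff κ ∈ E) (hΨE : ∀ i κ, (Ψ i).coeff κ ∈ E) :
    ∃ C : ℝ, ∀ (x : Fin 2 → E) (y : Fin m → E), Inf F (fun i => (x i : ℂ)) →
      logHeight y + C < logHeight (Sum.elim x y) →
        Fin1 (jo F Ψ) (Sum.elim (fun i => (x i : ℂ)) fun i => (y i : ℂ)) := by
  have hr : ∀ t ∈ E, t ∈ (algebraMap E ℂ).range := fun t ht => ⟨⟨t, ht⟩, rfl⟩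
  choose F' hF' using fun i => exists_lift (algebraMap E ℂ) (F i) fun m => hr _ (hFE i m)
  choose Ψ' hΨ' using fun i => exists_lift (algebraMap E ℂ) (Ψ i) fun m => hr _ (hΨE i m)
  have e1 : mp (algebraMap E ℂ) F' = F := funext hF'
  have e2 : (fun i => map (algebraMap E ℂ) (Ψ' i)) = Ψ := funext hΨ'
  subst e1 e2
  exact height_k (algebraMap E ℂ) F' (fun i => hom_of_map (algebraMap E ℂ) (hF i)) h0 Ψ'
    (fun i => hom_of_map (algebraMap E ℂ) (hΨ i)) hne hd

include hF hFa h0 hΨ hΨa hne in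
theorem planeJ (hd : 2 ≤ d) (E : IntermediateField ℚ ℂ) [NumberField E] (y : Fin m → ℂ)
    (hy : y ≠ 0) (hyE : ∀ i, y i ∈ E) :
    {x : Fin 2 → ℂ | (∀ i, x i ∈ E) ∧ Inf F x ∧ ¬ Fin1 (jo F Ψ) (Sum.elim x y)}.Finite := by
  classical
  let C : Finset ℂ := (Finset.univ.biUnion fun i => (F i).support.image fun κ => (F i).coeff κ) ∪
    (Finset.univ.biUnion fun i => (Ψ i).support.image fun κ => (Ψ i).coeff κ)
  have hC : ∀ t ∈ C, IsAlgebraic ℚ t := by
    intro t ht
    simp only [C, Finset.mem_union, Finset.mem_biUnion, Finset.mem_image, Finset.mem_univ,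
      true_and] at ht
    rcases ht with ⟨i, κ, -, rfl⟩ | ⟨i, κ, -, rfl⟩
    · exact hFa i κ
    · exact hΨa i κ
  let E1 : IntermediateField ℚ ℂ := IntermediateField.adjoin ℚ (C : Set ℂ)
  have hE1 : FiniteDimensional ℚ E1 := IntermediateField.finiteDimensional_adjoin
    (fun y hy => (hC y hy).isIntegral)
  let E2 : IntermediateField ℚ ℂ := E ⊔ E1
  have hE2 : FiniteDimensional ℚ E2 := IntermediateField.finiteDimensional_sup E E1
  have : NumberField E2 := ⟨⟩
  have hCE : ∀ t ∈ C, t ∈ E2 := fun t ht =>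
    (le_sup_right : E1 ≤ E2) (IntermediateField.subset_adjoin ℚ _ ht)
  have hEE : ∀ t ∈ E, t ∈ E2 := fun t ht => (le_sup_left : E ≤ E2) ht
  have hFE : ∀ i κ, (F i).coeff κ ∈ E2 := by
    intro i κ
    by_cases hκ : κ ∈ (F i).support
    · refine hCE _ ?_
      simp only [C, Finset.mem_union, Finset.mem_biUnion, Finset.mem_image, Finset.mem_univ,
        true_and]
      exact Or.inl ⟨i, κ, hκ, rfl⟩
    · rw [notMem_support_iff.1 hκ]
      exact E2.zero_mem
  have hΨE : ∀ i κ, (Ψ i).coeff κ ∈ E2 := by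
    intro i κ
    by_cases hκ : κ ∈ (Ψ i).support
    · refine hCE _ ?_
      simp only [C, Finset.mem_union, Finset.mem_biUnion, Finset.mem_image, Finset.mem_univ,
        true_and]
      exact Or.inr ⟨i, κ, hκ, rfl⟩
    · rw [notMem_support_iff.1 hκ]
      exact E2.zero_mem
  obtain ⟨c, hc'⟩ := heightJ F hF h0 Ψ hΨ hne hd E2 hFE hΨE
  let y' : Fin m → E2 := fun i => ⟨y i, hEE _ (hyE i)⟩
  have hy' : y' ≠ 0 := by
    intro h
    apply hy
    funext i
    exact congrArg Subtype.val (congrFun h i)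
  refine ((finite_plane y' hy' (logHeight y' + c)).image
    fun x : Fin 2 → E2 => fun i => (x i : ℂ)).subset ?_
  rintro x ⟨hxE, hinf, hx⟩
  refine ⟨fun i => ⟨x i, hEE _ (hxE i)⟩, ?_, rfl⟩
  rw [Set.mem_ofPred_eq]
  by_contra hlt
  push Not at hlt
  exact hx (hc' (fun i => ⟨x i, hEE _ (hxE i)⟩) y' hinf hlt)

end

end Pool.Agent.L5helper26.JN
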