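import Pool.Agent.L5helper26.JN.E

/-!
Two rational functions: on each line joining a point of one invariant line to a point of the other
one, the exceptional points form at most one coset of the roots of unity.
-/

set_option autoImplicit false
set_option linter.unusedSectionVars false

open MvPolynomial

namespace Pool.Agent.L5helper26.JN

open NumberField Height Module IsDedekindDomain
open Pool.Agent.W180.OP (Pl av wt wt_nonneg nrm le_nrm nrm_pos nrm_nonneg exists_nrm nrm_le)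
open Pool.Agent.L5helper26.RO

section

variable {k : Type} [Field k] [NumberField k]

/-- An element which is bounded by one at all places is a root of unity. -/
theorem root_of_unity (u : k) (hu : u ≠ 0) (h : ∀ v : Pl k, av v u ≤ 1) :
    ∃ w : ℕ, 0 < w ∧ u ^ w = 1 := by
  obtain ⟨S, hS1, -⟩ := exists_S (∅ : Set k) Set.finite_empty
  have hht : ∀ n : ℕ, logHeight₁ (u ^ n) ≤ 0 := by
    intro n
    have e : logHeight₁ (u ^ n) = logHeight ![u ^ n, 1] := by
      have := logHeight₁_div_eq_logHeight (u ^ n) (1 : k)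
      rw [div_one] at this
      exact this
    rw [e]
    have hv : ∀ v : Pl k, nrm (av v) ![u ^ n, 1] ≤ 1 := by
      intro v
      refine nrm_le zero_le_one fun i => ?_
      fin_cases i
      · change av v (u ^ n) ≤ 1
        rw [map_pow]
        exact pow_le_one₀ ((av v).nonneg _) (h v)
      · change av v 1 ≤ 1
        rw [map_one]
    refine (Pool.Agent.R847.SN.height_le S hS1 ![u ^ n, 1] ?_ fun v _ e =>
      (le_nrm (av v) _ e).trans (hv v)).trans ?_
    · intro h1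
      have := congrFun h1 1
      exact one_ne_zero this
    · refine Finset.sum_nonpos fun v _ => ?_
      exact mul_nonpos_of_nonneg_of_nonpos (wt_nonneg v)
        (Real.log_nonpos (nrm_nonneg _ _) (hv v))
  have hfin : {z : k | logHeight₁ z ≤ 0}.Finite := Northcott.finite_le 0
  have hni : ¬ Function.Injective fun n : ℕ => u ^ n := by
    intro hinj
    have h1 : (Set.range fun n : ℕ => u ^ n).Finite := hfin.subset (by
      rintro z ⟨n, rfl⟩
      exact hht n)
    exact Set.infinite_range_of_injective hinj h1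
  rw [Function.Injective] at hni
  push Not at hni
  obtain ⟨a, b, hab, hne⟩ := hni
  have hab : u ^ a = u ^ b := hab
  rcases lt_or_gt_of_ne hne with hlt | hlt
  · refine ⟨b - a, by omega, ?_⟩
    have h1 : u ^ a * u ^ (b - a) = u ^ a * 1 := by
      rw [← pow_add, mul_one, hab]
      congr 1
      omega
    exact mul_left_cancel₀ (pow_ne_zero _ hu) h1
  · refine ⟨a - b, by omega, ?_⟩
    have h1 : u ^ b * u ^ (a - b) = u ^ b * 1 := by
      rw [← pow_add, mul_one, ← hab]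
      congr 1
      omega
    exact mul_left_cancel₀ (pow_ne_zero _ hu) h1

theorem spm_smul {K : Type} [Field K] {d m : ℕ} (Ψ : Fin m → MvPolynomial (Fin m) K)
    (hΨ : ∀ i, (Ψ i).IsHomogeneous d) (t : K) (y : Fin m → K) :
    spm Ψ (t • y) = t ^ d • spm Ψ y := by
  funext i
  change eval (fun l => t * y l) (Ψ i) = t ^ d * eval y (Ψ i)
  rw [eval_eq, eval_eq, Finset.mul_sum]
  apply Finset.sum_congr rfl
  intro κ hκ
  have hdeg : κ.degree = d := by
    have := hΨ i (mem_support_iff.1 hκ)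
    rw [Finsupp.degree_eq_weight_one]; exact this
  rw [Finset.prod_congr rfl fun l _ => mul_pow t _ (κ l), Finset.prod_mul_distrib,
    Finset.prod_pow_eq_pow_sum]
  have h4 : ∑ l ∈ κ.support, κ l = d := hdeg
  rw [h4]
  ring

theorem spm_iter_smul {K : Type} [Field K] {d m : ℕ} (Ψ : Fin m → MvPolynomial (Fin m) K)
    (hΨ : ∀ i, (Ψ i).IsHomogeneous d) (t : K) (y : Fin m → K) (n : ℕ) :
    (spm Ψ)^[n] (t • y) = t ^ (d ^ n) • (spm Ψ)^[n] y := by
  induction n with
  | zero => simp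
  | succ n ih =>
    rw [Function.iterate_succ_apply', ih, spm_smul Ψ hΨ, Function.iterate_succ_apply', ← pow_mul,
      ← pow_succ]

/-- Bounds if the orbit is not attracted to the line. -/
theorem not_near {d m : ℕ} (hd : 2 ≤ d) (F : Fin 2 → MvPolynomial (Fin 2) k)
    (hF : ∀ i, (F i).IsHomogeneous d)
    (h0 : ∀ x : Fin 2 → AlgebraicClosure k, (∀ i, aeval x (F i) = 0) → x = 0)
    (Ψ : Fin m → MvPolynomial (Fin m) k) (hΨ : ∀ i, (Ψ i).IsHomogeneous d)
    (x : ℕ → Fin 2 → k) (y : ℕ → Fin m → k) (hx : ∀ n, x n ≠ 0)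
    (hxs : ∀ n, x (n + 1) = sp F (x n)) (hys : ∀ n, y (n + 1) = spm Ψ (y n))
    (hn : ¬ Near d x y) (v : Pl k) :
    ∃ B : ℝ, 0 < B ∧ ∀ n, nrm (av v) (x n) ≤ B * nrm (av v) (y n) := by
  obtain ⟨κ, hκ, hA⟩ := exists_const hd F hF h0 Ψ hΨ (av v)
  refine ⟨Real.exp (κ + 1), Real.exp_pos _, fun n => ?_⟩
  by_contra h
  push Not at h
  obtain ⟨c, hc, h1⟩ := ratio_orbit hd F Ψ (av v) κ hκ hA x y hx hxs hys n 1 one_pos h.le
  exact hn ⟨v, n, c, hc, h1⟩

theorem le_one_of_pow {d : ℕ} (hd : 2 ≤ d) (r B : ℝ) (hr : 0 ≤ r) (h : ∀ n : ℕ, r ^ (d ^ n) ≤ B) :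
    r ≤ 1 := by
  by_contra hlt
  push Not at hlt
  obtain ⟨N, hN⟩ := pow_unbounded_of_one_lt B hlt
  have h1 : N ≤ d ^ N := (Nat.lt_pow_self (by omega)).le
  have h2 : r ^ N ≤ r ^ (d ^ N) := pow_le_pow_right₀ hlt.le h1
  have h3 := h N
  linarith

/-- Two exceptional points on the same line differ by a root of unity. -/
theorem coset_k {d : ℕ} (hd : 2 ≤ d) (F : Fin 2 → MvPolynomial (Fin 2) k)
    (hF : ∀ i, (F i).IsHomogeneous d)
    (hF0 : ∀ x : Fin 2 → AlgebraicClosure k, (∀ i, aeval x (F i) = 0) → x = 0)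
    (G : Fin 2 → MvPolynomial (Fin 2) k) (hG : ∀ i, (G i).IsHomogeneous d)
    (hG0 : ∀ x : Fin 2 → AlgebraicClosure k, (∀ i, aeval x (G i) = 0) → x = 0)
    (x y : Fin 2 → k) (hx : x ≠ 0) (hy : y ≠ 0) (s t : k) (hs : s ≠ 0) (ht : t ≠ 0)
    (h1 : ¬ Near d (fun n => (sp F)^[n] x) fun n => (sp G)^[n] (s • y))
    (h2 : ¬ Near d (fun n => (sp G)^[n] (t • y)) fun n => (sp F)^[n] x) :
    ∃ w : ℕ, 0 < w ∧ (t / s) ^ w = 1 := by
  refine root_of_unity (t / s) (div_ne_zero ht hs) fun v => ?_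
  have hsy : s • y ≠ 0 := smul_ne_zero hs hy
  have hty : t • y ≠ 0 := smul_ne_zero ht hy
  obtain ⟨B1, hB1, hb1⟩ := not_near hd F hF hF0 G hG (fun n => (sp F)^[n] x)
    (fun n => (sp G)^[n] (s • y)) (fun n => sp_iter_ne F (base_zero F hF0) hx n)
    (fun n => Function.iterate_succ_apply' _ _ _) (fun n => Function.iterate_succ_apply' _ _ _) h1 v
  obtain ⟨B2, hB2, hb2⟩ := not_near hd G hG hG0 F hF (fun n => (sp G)^[n] (t • y))
    (fun n => (sp F)^[n] x) (fun n => sp_iter_ne G (base_zero G hG0) hty n)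
    (fun n => Function.iterate_succ_apply' _ _ _) (fun n => Function.iterate_succ_apply' _ _ _) h2 v
  refine le_one_of_pow hd (av v (t / s)) (B2 * B1) ((av v).nonneg _) fun n => ?_
  have e1 : ∀ r : k, nrm (av v) ((sp G)^[n] (r • y)) =
      av v r ^ (d ^ n) * nrm (av v) ((sp G)^[n] y) := by
    intro r
    have e2 : (sp G)^[n] (r • y) = r ^ (d ^ n) • (sp G)^[n] y := spm_iter_smul G hG r y n
    rw [e2]
    apply le_antisymm
    · refine nrm_le (mul_nonneg (pow_nonneg ((av v).nonneg _) _) (nrm_nonneg _ _)) fun i => ?_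
      change av v (r ^ (d ^ n) * (sp G)^[n] y i) ≤ _
      rw [map_mul, map_pow]
      exact mul_le_mul_of_nonneg_left (le_nrm _ _ _) (pow_nonneg ((av v).nonneg _) _)
    · obtain ⟨i, hi⟩ := exists_nrm (av v) (by norm_num : 0 < 2) ((sp G)^[n] y)
      rw [← hi, ← map_pow, ← map_mul]
      exact le_nrm (av v) (r ^ (d ^ n) • (sp G)^[n] y) i
  have h3 : nrm (av v) ((sp G)^[n] (t • y)) ≤ B2 * (B1 * nrm (av v) ((sp G)^[n] (s • y))) :=
    (hb2 n).trans (mul_le_mul_of_nonneg_left (hb1 n) hB2.le)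
  rw [e1, e1] at h3
  have hY := nrm_pos (av v) (sp_iter_ne G (base_zero G hG0) hy n)
  have hS : 0 < av v s ^ (d ^ n) := pow_pos ((av v).pos_iff.2 hs) _
  rw [map_div₀, div_pow, div_le_iff₀ hS]
  refine le_of_mul_le_mul_right ?_ hY
  linarith

end

/-- Finitely many returns to each closed set which contains neither of the two lines. -/
def Fin2 (Φ : Fin 2 ⊕ Fin 2 → MvPolynomial (Fin 2 ⊕ Fin 2) ℂ) (a : Fin 2 ⊕ Fin 2 → ℂ) : Prop :=
  ∀ S : Set (MvPolynomial (Fin 2 ⊕ Fin 2) ℂ), (∀ g ∈ S, ∃ e : ℕ, g.IsHomogeneous e) →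
    (∃ g ∈ S, ∃ p : Fin 2 → ℂ, eval (Sum.elim p 0) g ≠ 0) →
    (∃ g ∈ S, ∃ p : Fin 2 → ℂ, eval (Sum.elim 0 p) g ≠ 0) →
      {n : ℕ | ∀ g ∈ S, eval ((cm Φ)^[n] a) g = 0}.Finite

section

variable {k : Type} [Field k] [NumberField k] (j : k →+* ℂ) {d : ℕ}
  (F : Fin 2 → MvPolynomial (Fin 2) k) (hF : ∀ i, (F i).IsHomogeneous d)
  (hF0 : ∀ x : Fin 2 → ℂ, (∀ i, eval x (mp j F i) = 0) → x = 0) (hFne : NoExc (mp j F))
  (G : Fin 2 → MvPolynomial (Fin 2) k) (hG : ∀ i, (G i).IsHomogeneous d)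
  (hG0 : ∀ x : Fin 2 → ℂ, (∀ i, eval x (mp j G i) = 0) → x = 0) (hGne : NoExc (mp j G))

include hF hF0 hFne hG hG0 hGne in
theorem fin2_k (hd : 2 ≤ d) (x y : Fin 2 → k) (hx : Inf (mp j F) fun i => j (x i))
    (hy : Inf (mp j G) fun i => j (y i))
    (h : Near d (fun n => (sp F)^[n] x) (fun n => (sp G)^[n] y) ∨
      Near d (fun n => (sp G)^[n] y) fun n => (sp F)^[n] x) :
    Fin2 (jo (mp j F) (mp j G)) (Sum.elim (fun i => j (x i)) fun i => j (y i)) := by
  intro S hS hS1 hS2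
  rcases h with h | h
  · exact fin1_of_near j F hF hF0 G hFne hd x y hx h S hS hS1
  · obtain ⟨g, hgS, p, hp⟩ := hS2
    obtain ⟨D, hD⟩ := hS g hgS
    refine (fin_core' j hd G hG hG0 hGne (fun n => (sp F)^[n] x) (fun n => (sp G)^[n] y)
      (inf_ne j G hG0 hd hG hy) (fun n => Function.iterate_succ_apply' _ _ _)
      (inf_par j G hG hG0 hGne hd hy) h g D hD p hp).subset fun n hn => ?_
    have h1 := hn g hgS
    rw [cm_jo_iter] at h1
    have e1 : (cm (mp j F))^[n] (fun i => j (x i)) = fun i => j ((sp F)^[n] x i) :=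
      cm_map_iter j F x n
    have e2 : (cm (mp j G))^[n] (fun i => j (y i)) = fun i => j ((sp G)^[n] y i) :=
      cm_map_iter j G y n
    rw [e1, e2] at h1
    exact h1

end

theorem inf_smul {d : ℕ} (G : Fin 2 → MvPolynomial (Fin 2) ℂ) (hG : ∀ i, (G i).IsHomogeneous d)
    (y : Fin 2 → ℂ) (hy : Inf G y) (t : ℂ) (ht : t ≠ 0) : Inf G (t • y) := by
  intro n m hnm
  rintro ⟨c, hc, h⟩
  have e : ∀ n, (cm G)^[n] (t • y) = t ^ (d ^ n) • (cm G)^[n] y := fun n =>
    spm_iter_smul G hG t y n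
  rw [e, e] at h
  refine hy n m hnm ⟨(t ^ (d ^ n))⁻¹ * (c * t ^ (d ^ m)), ?_, ?_⟩
  · have := pow_ne_zero (d ^ n) ht
    have := pow_ne_zero (d ^ m) ht
    positivity
  · rw [mul_smul, mul_smul, ← h, smul_smul, inv_mul_cancel₀ (pow_ne_zero _ ht), one_smul]

/-- **Two rational functions.** -/
theorem cosetJ {d : ℕ} (hd : 2 ≤ d) (F : Fin 2 → MvPolynomial (Fin 2) ℂ)
    (hF : ∀ i, (F i).IsHomogeneous d) (hFa : ∀ i κ, IsAlgebraic ℚ ((F i).coeff κ))
    (hF0 : ∀ x : Fin 2 → ℂ, (∀ i, eval x (F i) = 0) → x = 0) (hFne : NoExc F)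
    (G : Fin 2 → MvPolynomial (Fin 2) ℂ)
    (hG : ∀ i, (G i).IsHomogeneous d) (hGa : ∀ i κ, IsAlgebraic ℚ ((G i).coeff κ))
    (hG0 : ∀ x : Fin 2 → ℂ, (∀ i, eval x (G i) = 0) → x = 0) (hGne : NoExc G)
    (x y : Fin 2 → ℂ) (hxa : ∀ i, IsAlgebraic ℚ (x i)) (hya : ∀ i, IsAlgebraic ℚ (y i))
    (hx : Inf F x) (hy : Inf G y) :
    ∃ s : ℂ, s ≠ 0 ∧ ∀ t : ℂ, t ≠ 0 → IsAlgebraic ℚ t → (∀ w : ℕ, 0 < w → (t / s) ^ w ≠ 1) →
      Fin2 (jo F G) (Sum.elim x (t • y)) := by
  classical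
  by_cases hex : ∃ s : ℂ, s ≠ 0 ∧ IsAlgebraic ℚ s ∧ ¬ Fin2 (jo F G) (Sum.elim x (s • y))
  · obtain ⟨s, hs, hsa, hsn⟩ := hex
    refine ⟨s, hs, fun t ht hta hw => ?_⟩
    by_contra htn
    obtain ⟨k, _, _, j, F', G', e1, e2, h3, h4, h5⟩ := exists_descJ F hF hFa G hG hGa
      (Finset.univ.image x ∪ Finset.univ.image y ∪ {s, t}) (by
        intro u hu
        simp only [Finset.mem_union, Finset.mem_image, Finset.mem_univ, true_and,
          Finset.mem_insert, Finset.mem_singleton] at hu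
        rcases hu with (⟨i, rfl⟩ | ⟨i, rfl⟩) | rfl | rfl
        · exact hxa i
        · exact hya i
        · exact hsa
        · exact hta)
    have e2' : mp j G' = G := e2
    choose x' hx' using fun i => h5 (x i) (by simp)
    choose y' hy' using fun i => h5 (y i) (by simp)
    obtain ⟨s', hs'⟩ := h5 s (by simp)
    obtain ⟨t', ht'⟩ := h5 t (by simp)
    have hs0 : s' ≠ 0 := by rintro rfl; exact hs (by rw [← hs', map_zero])
    have ht0 : t' ≠ 0 := by rintro rfl; exact ht (by rw [← ht', map_zero])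
    subst e1 e2'
    obtain ⟨hF0', -⟩ := cl_data j (by omega) F' h3 hF0 hFne
    obtain ⟨hG0', -⟩ := cl_data j (by omega) G' h4 hG0 hGne
    have ex : x = fun i => j (x' i) := funext fun i => (hx' i).symm
    have ey : y = fun i => j (y' i) := funext fun i => (hy' i).symm
    have hsm : ∀ (r : ℂ) (r' : k), j r' = r → r • y = fun i => j ((r' • y') i) := by
      intro r r' hr
      funext i
      change r * y i = j (r' * y' i)
      rw [map_mul, hr, hy']
    have hxne : x' ≠ 0 := inf_ne j F' hF0 hd h3 (by rw [← ex]; exact hx)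
    have hyne : y' ≠ 0 := inf_ne j G' hG0 hd h4 (by rw [← ey]; exact hy)
    have hkey : ∀ (r : ℂ) (r' : k), r ≠ 0 → j r' = r →
        ¬ Fin2 (jo (mp j F') (mp j G')) (Sum.elim x (r • y)) →
        ¬ Near d (fun n => (sp F')^[n] x') (fun n => (sp G')^[n] (r' • y')) ∧
        ¬ Near d (fun n => (sp G')^[n] (r' • y')) (fun n => (sp F')^[n] x') := by
      intro r r' hr0 hr hn
      rw [← not_or]
      intro h
      apply hn
      have hy2 := inf_smul (mp j G') hG y hy r hr0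
      rw [hsm r r' hr] at hy2 ⊢
      rw [ex]
      exact fin2_k j F' h3 hF0 hFne G' h4 hG0 hGne hd x' (r' • y') (by rw [← ex]; exact hx) hy2 h
    obtain ⟨w, hw0, hw1⟩ := coset_k hd F' h3 hF0' G' h4 hG0' x' y' hxne hyne s' t' hs0 ht0
      (hkey s s' hs hs' hsn).1 (hkey t t' ht ht' htn).2
    refine hw w hw0 ?_
    rw [← hs', ← ht', ← map_div₀, ← map_pow, hw1, map_one]
  · push Not at hex
    exact ⟨1, one_ne_zero, fun t ht hta _ => hex t ht hta⟩

end Pool.Agent.L5helper26.JN
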