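import Pool.Agent.L5helper26.JN.F

/-!
The theorem of Silverman at a point which is not exceptional; the function may have exceptional
points.
-/

set_option autoImplicit false
set_option linter.unusedSectionVars false

open MvPolynomial

namespace Pool.Agent.L5helper26.JN

open NumberField Height Module IsDedekindDomain
open Pool.Agent.W180.OP (Pl av wt nrm le_nrm nrm_pos nrm_nonneg exists_nrm nrm_le cs cs_nonneg abv_mv)
open Pool.Agent.R847.SN (IsExt exists_isExt)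
open Pool.Agent.L5helper26.RO

section

variable {K : Type} [Field K] {d : ℕ} (F : Fin 2 → MvPolynomial (Fin 2) K)
  (hF : ∀ i, (F i).IsHomogeneous d) (h0 : ∀ x : Fin 2 → K, (∀ i, eval x (F i) = 0) → x = 0)

/-- The point is not exceptional. -/
def NE (t : Fin 2 → K) : Prop := ∃ w : Fin 2 → K, w ≠ 0 ∧
  cr t (sp F (sp F w)) = 0 ∧ cr t w ≠ 0

include hF h0 in
/-- A preimage of a point which is not exceptional is not exceptional. -/
theorem ne_back [IsAlgClosed K] (hd : 1 ≤ d) {t z : Fin 2 → K} (ht : t ≠ 0) (hz : z ≠ 0)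
    (h : cr t (sp F z) = 0) (hne : NE F t) : NE F z := by
  by_contra hn
  have hz2 : ∀ w : Fin 2 → K, w ≠ 0 → cr z (sp F (sp F w)) = 0 → cr z w = 0 := by
    intro w hw hw1
    by_contra hw2
    exact hn ⟨w, hw, hw1, hw2⟩
  have hFz : sp F z ≠ 0 := sp_ne F h0 hz
  -- a preimage `a` of `z` is `t`
  have hpre : ∀ a : Fin 2 → K, a ≠ 0 → cr z (sp F a) = 0 → cr t a = 0 := by
    intro a ha ha1
    obtain ⟨b, hb, hb1⟩ := exists_pre F hF h0 hd 1 a ha
    have hb1 : cr a (sp F b) = 0 := hb1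
    have hFb : sp F b ≠ 0 := sp_ne F h0 hb
    have h1 := sp_cr F hF ha hFb hb1
    have h2 : cr z (sp F (sp F b)) = 0 := cr_trans (sp_ne F h0 ha) ha1 h1
    have h3 := sp_cr F hF hz hb (hz2 b hb h2)
    -- `t = F z = F b = a`
    have h4 : cr t (sp F b) = 0 := cr_trans hFz h h3
    have h5 : cr (sp F b) a = 0 := by rw [cr_comm, hb1, neg_zero]
    exact cr_trans hFb h4 h5
  obtain ⟨a, ha, ha1⟩ := exists_pre F hF h0 hd 1 z hz
  have ha1 : cr z (sp F a) = 0 := ha1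
  have hta := hpre a ha ha1
  have hFt : cr z (sp F t) = 0 := by
    have h1 := sp_cr F hF ht ha hta
    have h2 : cr (sp F a) (sp F t) = 0 := by rw [cr_comm, h1, neg_zero]
    exact cr_trans (sp_ne F h0 ha) ha1 h2
  obtain ⟨w, hw, hw1, hw2⟩ := hne
  apply hw2
  have hFw : sp F w ≠ 0 := sp_ne F h0 hw
  -- `F w` is a preimage of `t`, so it is `z`
  have h1 : cr z (sp F (sp F (sp F w))) = 0 := by
    have h2 := sp_cr F hF ht (sp_ne F h0 hFw) hw1
    exact cr_trans (sp_ne F h0 ht) hFt h2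
  have h3 := hz2 (sp F w) hFw h1
  exact hpre w hw h3

include hF h0 in
theorem ne_back3 [IsAlgClosed K] (hd : 1 ≤ d) {t z : Fin 2 → K} (ht : t ≠ 0) (hz : z ≠ 0)
    (h : cr t ((sp F)^[3] z) = 0) (hne : NE F t) : NE F z := by
  have h1 : sp F z ≠ 0 := sp_ne F h0 hz
  have h2 : sp F (sp F z) ≠ 0 := sp_ne F h0 h1
  have h3 := ne_back F hF h0 hd ht h2 h hne
  have h4 := ne_back F hF h0 hd h2 h1 (cr_self _) h3
  exact ne_back F hF h0 hd h1 hz (cr_self _) h4

include hF h0 in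
/-- The third iterate is nowhere totally ramified. -/
theorem not_total2 [IsAlgClosed K] [CharZero K] (hd : 2 ≤ d) (t z : Fin 2 → K)
    (hne : NE F t) (ht : t ≠ 0) (hz : z ≠ 0)
    (h : ∀ x : Fin 2 → K, x ≠ 0 → cr t ((sp F)^[3] x) = 0 → cr z x = 0) : False := by
  set u := sp F z with hu
  set s := sp F u with hs
  have hu0 : u ≠ 0 := sp_ne F h0 hz
  have hs0 : s ≠ 0 := sp_ne F h0 hu0
  have hst : ∀ n (x y : Fin 2 → K), x ≠ 0 → y ≠ 0 → cr x y = 0 →
      cr ((sp F)^[n] x) ((sp F)^[n] y) = 0 := by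
    intro n
    induction n with
    | zero => intro x y _ _ h; exact h
    | succ n ih =>
      intro x y hx hy h
      rw [Function.iterate_succ_apply', Function.iterate_succ_apply']
      exact sp_cr F hF (sp_iter_ne F h0 hx n) (sp_iter_ne F h0 hy n) (ih x y hx hy h)
  -- a point `x` whose `j`-th image is mapped to `t`
  have hkey : ∀ j, j ≤ 3 → ∀ x : Fin 2 → K, x ≠ 0 → cr t ((sp F)^[3 - j] x) = 0 →
      cr ((sp F)^[j] z) x = 0 := by
    intro j hj x hx hx1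
    obtain ⟨w, hw, hw1⟩ := exists_pre F hF h0 (by omega) j x hx
    have h1 := hst (3 - j) x _ hx (sp_iter_ne F h0 hw j) hw1
    rw [← Function.iterate_add_apply, Nat.sub_add_cancel hj] at h1
    have h2 : cr t ((sp F)^[3] w) = 0 := cr_trans (sp_iter_ne F h0 hx _) hx1 h1
    have h3 := hst j z w hz hw (h w hw h2)
    have h4 : cr ((sp F)^[j] w) x = 0 := by rw [cr_comm, hw1, neg_zero]
    exact cr_trans (sp_iter_ne F h0 hw j) h3 h4
  have o1 : Only F t s := fun x hx hx1 => hkey 2 (by norm_num) x hx hx1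
  have hts : cr t (sp F s) = 0 := by
    obtain ⟨w, hw, hw1⟩ := exists_pre F hF h0 (by omega) 1 t ht
    have h1 := o1 w hw hw1
    have h2 := sp_cr F hF hs0 hw h1
    have h3 : cr (sp F w) (sp F s) = 0 := by rw [cr_comm, h2, neg_zero]
    exact cr_trans (sp_ne F h0 hw) hw1 h3
  have o2 : Only F s u := by
    intro x hx hx1
    apply hkey 1 (by norm_num) x hx
    change cr t (sp F (sp F x)) = 0
    exact cr_trans (sp_ne F h0 hs0) hts (sp_cr F hF hs0 (sp_ne F h0 hx) hx1)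
  have o3 : Only F u z := by
    intro x hx hx1
    apply hkey 0 (by norm_num) x hx
    change cr t (sp F (sp F (sp F x))) = 0
    have h1 := sp_cr F hF hu0 (sp_ne F h0 hx) hx1
    have h2 := sp_cr F hF hs0 (sp_ne F h0 (sp_ne F h0 hx)) h1
    exact cr_trans (sp_ne F h0 hs0) hts h2
  by_cases c1 : cr t s = 0
  · obtain ⟨w, hw, hw1, hw2⟩ := hne
    apply hw2
    have h1 := o1 _ (sp_ne F h0 hw) hw1
    have h2 : cr t (sp F w) = 0 := cr_trans hs0 c1 h1
    have h3 := o1 _ hw h2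
    exact cr_trans hs0 c1 h3
  by_cases c2 : cr s u = 0
  · apply c1
    have h1 := sp_cr F hF hs0 hu0 c2
    exact cr_trans (sp_ne F h0 hs0) hts h1
  by_cases c3 : cr t u = 0
  · obtain ⟨w, hw, hw1, hw2⟩ := hne
    apply hw2
    have h1 := o1 _ (sp_ne F h0 hw) hw1
    have h2 := o2 _ hw h1
    exact cr_trans hu0 c3 h2
  have c1' : cr s t ≠ 0 := by rw [cr_comm]; exact neg_ne_zero.2 c1
  have c2' : cr u s ≠ 0 := by rw [cr_comm]; exact neg_ne_zero.2 c2
  have c3' : cr u t ≠ 0 := by rw [cr_comm]; exact neg_ne_zero.2 c3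
  refine three F hF h0 hd (t := ![t, s, u]) (s := ![s, u, z]) ?_ ?_ ?_ ?_
  · intro i; fin_cases i
    · exact ht
    · exact hs0
    · exact hu0
  · intro i; fin_cases i
    · exact hs0
    · exact hu0
    · exact hz
  · intro i; fin_cases i
    · exact o1
    · exact o2
    · exact o3
  · intro i j hij
    fin_cases i <;> fin_cases j <;> first | exact absurd rfl hij | assumption

include hF h0 in
/-- The third iterate has two different preimages over each point. -/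
theorem two_pre2 [IsAlgClosed K] [CharZero K] (hd : 2 ≤ d) (t : Fin 2 → K)
    (hne : NE F t) (ht : t ≠ 0) : ∃ (c : K) (z : Fin (d ^ 3) → Fin 2 → K) (a b : Fin (d ^ 3)), c ≠ 0 ∧
      (∀ i, z i ≠ 0) ∧ cr (z a) (z b) ≠ 0 ∧ ∀ x, cr t ((sp F)^[3] x) = c * ∏ i, cr (z i) x := by
  obtain ⟨c, z, hc, hz, h⟩ := fac F hF h0 (by omega) 3 t ht
  by_contra hcon
  push Not at hcon
  have hpos : 0 < d ^ 3 := Nat.pow_pos (by omega)
  have hall : ∀ a b, cr (z a) (z b) = 0 := by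
    intro a b
    by_contra hab
    obtain ⟨x, hx⟩ := hcon c z a b hc hz hab
    exact hx (h x)
  refine not_total2 F hF h0 hd t (z ⟨0, hpos⟩) hne ht (hz _) fun x hx hx1 => ?_
  rw [h] at hx1
  obtain ⟨i, -, hi⟩ := Finset.prod_eq_zero_iff.1 ((mul_eq_zero.1 hx1).resolve_left hc)
  exact cr_trans (hz i) (hall _ _) hi

end

section

variable {k : Type} [Field k] [NumberField k] {d : ℕ} (F : Fin 2 → MvPolynomial (Fin 2) k)
  (hF : ∀ i, (F i).IsHomogeneous d)
  (h0 : ∀ x : Fin 2 → AlgebraicClosure k, (∀ i, aeval x (F i) = 0) → x = 0)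

include hF h0 in
theorem step3b (hd : 2 ≤ d) {v : Pl k}
    {W : AbsoluteValue (AlgebraicClosure k) ℝ} (hW : IsExt v W)
    (t : Fin 2 → AlgebraicClosure k) (ht : t ≠ 0) (hne : NE (cl F) t) :
    ∃ (c : ℝ) (Z : Finset (Fin 2 → AlgebraicClosure k)), 0 < c ∧ (∀ z ∈ Z, z ≠ 0 ∧ NE (cl F) z) ∧
      ∀ x : Fin 2 → k, x ≠ 0 → ∃ z ∈ Z, c * dl v W z x ^ (d ^ 3 - 1) ≤
        dl v W t ((sp F)^[3] x) := by
  classical
  obtain ⟨e, z, a, b, he, hz, hab, hfac⟩ := two_pre2 (cl F) (cl_hom F hF) (cl_zero F h0) hd t hne ht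
  obtain ⟨c2, hc2, hnb⟩ := not_both hW (z a) (z b) hab
  obtain ⟨C, hC, hup⟩ := nrm_sp_iter F hF (av v) 3
  have hep : 0 < W e := W.pos_iff.2 he
  refine ⟨W e / C * c2, Finset.univ.image z, by positivity, fun y hy => ?_, fun x hx => ?_⟩
  · obtain ⟨i, -, rfl⟩ := Finset.mem_image.1 hy
    refine ⟨hz i, ne_back3 (cl F) (cl_hom F hF) (cl_zero F h0) (by omega) ht (hz i) ?_ hne⟩
    rw [hfac]
    have h1 : ∏ l, cr (z l) (z i) = 0 := Finset.prod_eq_zero (Finset.mem_univ i) (cr_self _)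
    rw [h1, mul_zero]
  have hn := nrm_pos (av v) hx
  have hn3 : 0 < nrm (av v) ((sp F)^[3] x) :=
    nrm_pos (av v) (sp_iter_ne F (base_zero F h0) hx 3)
  have hpos : 0 < d ^ 3 := Nat.pow_pos (by omega)
  have hne' : (Finset.univ : Finset (Fin (d ^ 3))).Nonempty := ⟨⟨0, hpos⟩, Finset.mem_univ _⟩
  obtain ⟨i0, -, hi0⟩ := Finset.exists_min_image Finset.univ (fun i => dl v W (z i) x) hne'
  refine ⟨z i0, Finset.mem_image_of_mem _ (Finset.mem_univ _), ?_⟩
  -- the product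
  have h1 : dl v W t ((sp F)^[3] x) * nrm (av v) ((sp F)^[3] x) =
      W e * ((∏ i, dl v W (z i) x) * nrm (av v) x ^ (d ^ 3)) := by
    rw [dl, div_mul_cancel₀ _ hn3.ne', ← sp_iter_up, hfac, map_mul, map_prod]
    congr 1
    have h2 : ∀ i, W (cr (z i) (up x)) = dl v W (z i) x * nrm (av v) x := fun i => by
      rw [dl, div_mul_cancel₀ _ hn.ne']
    rw [Finset.prod_congr rfl fun i _ => h2 i, Finset.prod_mul_distrib, Finset.prod_const,
      Finset.card_univ, Fintype.card_fin]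
  have h2 : W e / C * ∏ i, dl v W (z i) x ≤ dl v W t ((sp F)^[3] x) := by
    have h3 := hup x
    have h4 : 0 ≤ ∏ i, dl v W (z i) x := Finset.prod_nonneg fun i _ => dl_nonneg _ _ _ _
    have h5 : 0 ≤ dl v W t ((sp F)^[3] x) := dl_nonneg _ _ _ _
    have h6 : dl v W t ((sp F)^[3] x) * nrm (av v) ((sp F)^[3] x) ≤
        dl v W t ((sp F)^[3] x) * (C * nrm (av v) x ^ (d ^ 3)) :=
      mul_le_mul_of_nonneg_left h3 h5
    rw [h1] at h6
    have h7 : 0 < nrm (av v) x ^ (d ^ 3) := by positivity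
    rw [div_mul_eq_mul_div, div_le_iff₀ hC]
    refine le_of_mul_le_mul_right ?_ h7
    linarith
  refine le_trans ?_ h2
  rw [mul_assoc]
  refine mul_le_mul_of_nonneg_left ?_ (by positivity)
  -- one factor is large
  obtain ⟨i1, hi1⟩ : ∃ i1, c2 ≤ dl v W (z i1) x := by
    rcases hnb x hx with h | h
    · exact ⟨a, h⟩
    · exact ⟨b, h⟩
  rw [← Finset.mul_prod_erase Finset.univ _ (Finset.mem_univ i1)]
  refine mul_le_mul hi1 ?_ (pow_nonneg (dl_nonneg _ _ _ _) _) (dl_nonneg _ _ _ _)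
  have h3 : (Finset.univ.erase i1).card = d ^ 3 - 1 := by
    rw [Finset.card_erase_of_mem (Finset.mem_univ _), Finset.card_univ, Fintype.card_fin]
  rw [← h3, ← Finset.prod_const]
  exact Finset.prod_le_prod (fun i _ => dl_nonneg _ _ _ _) fun i _ => hi0 i (Finset.mem_univ _)

include hF h0 in
theorem step_iterb (hd : 2 ≤ d) {v : Pl k}
    {W : AbsoluteValue (AlgebraicClosure k) ℝ} (hW : IsExt v W) (j : ℕ) :
    ∀ (t : Fin 2 → AlgebraicClosure k), t ≠ 0 → NE (cl F) t →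
    ∃ (c : ℝ) (Z : Finset (Fin 2 → AlgebraicClosure k)), 0 < c ∧
      (∀ z ∈ Z, z ≠ 0 ∧ NE (cl F) z) ∧ ∀ x : Fin 2 → k, x ≠ 0 → ∃ z ∈ Z, c * dl v W z x ^ ((d ^ 3 - 1) ^ j) ≤
        dl v W t ((sp F)^[3 * j] x) := by
  classical
  induction j with
  | zero =>
    intro t ht hne
    refine ⟨1, {t}, one_pos, fun z hz => ?_, fun x _ => ⟨t, Finset.mem_singleton_self t, ?_⟩⟩
    · rw [Finset.mem_singleton.1 hz]
      exact ⟨ht, hne⟩
    · simp
  | succ j ih =>
    intro t ht hne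
    obtain ⟨c, Z, hc, hZ, h⟩ := ih t ht hne
    have h3 : ∀ z : Fin 2 → AlgebraicClosure k, ∃ (c : ℝ)
        (Z : Finset (Fin 2 → AlgebraicClosure k)), 0 < c ∧ (∀ z ∈ Z, z ≠ 0 ∧ NE (cl F) z) ∧
        (z ≠ 0 ∧ NE (cl F) z → ∀ x : Fin 2 → k, x ≠ 0 → ∃ w ∈ Z, c * dl v W w x ^ (d ^ 3 - 1) ≤
        dl v W z ((sp F)^[3] x)) := by
      intro z
      by_cases hz : ¬ (z ≠ 0 ∧ NE (cl F) z)
      · exact ⟨1, ∅, one_pos, fun z hz => absurd hz (Finset.notMem_empty _),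
          fun h => absurd h hz⟩
      · push Not at hz
        obtain ⟨c, Z, hc, hZ, h⟩ := step3b F hF h0 hd hW z hz.1 hz.2
        exact ⟨c, Z, hc, hZ, fun _ => h⟩
    choose c' Z' hc' hZ' h' using h3
    -- the minimum of the constants
    obtain ⟨m, hm, hmin⟩ : ∃ m : ℝ, 0 < m ∧ ∀ z ∈ Z, m ≤ c' z := by
      rcases Z.eq_empty_or_nonempty with rfl | hne'
      · exact ⟨1, one_pos, fun z hz => absurd hz (Finset.notMem_empty _)⟩
      · obtain ⟨z0, hz0, hm⟩ := Finset.exists_min_image Z c' hne'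
        exact ⟨c' z0, hc' z0, hm⟩
    set N := (d ^ 3 - 1) ^ j with hN
    refine ⟨c * m ^ N, Z.biUnion Z', by positivity, fun w hw => ?_, fun x hx => ?_⟩
    · obtain ⟨z, -, hw⟩ := Finset.mem_biUnion.1 hw
      exact hZ' z w hw
    · obtain ⟨z, hz, h1⟩ := h ((sp F)^[3] x) (sp_iter_ne F (base_zero F h0) hx 3)
      obtain ⟨w, hw, h2⟩ := h' z (hZ z hz) x hx
      refine ⟨w, Finset.mem_biUnion.2 ⟨z, hz, hw⟩, ?_⟩
      have e1 : 3 * (j + 1) = 3 * j + 3 := by ring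
      rw [e1, Function.iterate_add_apply]
      refine le_trans ?_ h1
      rw [mul_assoc]
      refine mul_le_mul_of_nonneg_left ?_ hc.le
      have h4 : m * dl v W w x ^ (d ^ 3 - 1) ≤ dl v W z ((sp F)^[3] x) :=
        (mul_le_mul_of_nonneg_right (hmin z hz) (pow_nonneg (dl_nonneg _ _ _ _) _)).trans h2
      calc m ^ N * dl v W w x ^ ((d ^ 3 - 1) ^ (j + 1)) = (m * dl v W w x ^ (d ^ 3 - 1)) ^ N := by
            rw [mul_pow, ← pow_mul, pow_succ, hN, mul_comm ((d ^ 3 - 1) ^ j)]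
        _ ≤ _ := pow_le_pow_left₀ (mul_nonneg hm.le (pow_nonneg (dl_nonneg _ _ _ _) _)) h4 N

include hF h0 in
/-- Silverman's theorem, for one place. -/
theorem silb (hd : 2 ≤ d) {v : Pl k}
    {W : AbsoluteValue (AlgebraicClosure k) ℝ} (hW : IsExt v W) (x : Fin 2 → k) (hx : x ≠ 0)
    (hpar : ∀ n m, n ≠ m → cr ((sp F)^[n] x) ((sp F)^[m] x) ≠ 0)
    (t : Fin 2 → AlgebraicClosure k) (ht : t ≠ 0) (hne : NE (cl F) t) (ε : ℝ) (hε : 0 < ε) :
    ∃ n0 : ℕ, ∀ n, n0 ≤ n → Real.exp (-(ε * d ^ n)) ≤ dl v W t ((sp F)^[n] x) := by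
  classical
  have hwt := Pool.Agent.R405.PP.wt_pos v
  have hdR : (2 : ℝ) ≤ d := by exact_mod_cast hd
  obtain ⟨A, hA, hup⟩ := height_upper F hF hd x
  have hxn : ∀ n, (sp F)^[n] x ≠ 0 := fun n => sp_iter_ne F (base_zero F h0) hx n
  -- the depth
  have hd3 : 1 ≤ d ^ 3 := Nat.one_le_pow _ _ (by omega)
  set ρ : ℝ := ((d ^ 3 - 1 : ℕ) : ℝ) / ((d : ℝ) ^ 3) with hρ
  have hρ0 : 0 ≤ ρ := by positivity
  have hρ1 : ρ < 1 := by
    rw [hρ, div_lt_one (by positivity), Nat.cast_sub hd3]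
    push_cast
    linarith
  obtain ⟨j, hj⟩ : ∃ j : ℕ, ρ ^ j < ε / 2 / (3 * A / wt v) :=
    exists_pow_lt_of_lt_one (by positivity) hρ1
  obtain ⟨c, Z, hc, hZ, hstep⟩ := step_iterb F hF h0 hd hW j t ht hne
  -- Roth's theorem for the preimages
  have hR : ∀ z : Fin 2 → AlgebraicClosure k, ∃ C : ℝ, 0 ≤ C ∧ (z ≠ 0 → ∀ x : Fin 2 → k, x ≠ 0 →
      cr z (up x) ≠ 0 → Real.exp (-((3 * logHeight x + C) / wt v)) ≤ dl v W z x) := by
    intro z
    by_cases hz : z = 0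
    · exact ⟨0, le_rfl, fun h => absurd hz h⟩
    · obtain ⟨C, hC, h⟩ := roth hW z hz
      exact ⟨C, hC, fun _ => h⟩
  choose C hC hroth using hR
  set C' : ℝ := ∑ z ∈ Z, C z with hC'
  have hC'0 : 0 ≤ C' := Finset.sum_nonneg fun z _ => hC z
  have hCle : ∀ z ∈ Z, C z ≤ C' := fun z hz =>
    Finset.single_le_sum (f := C) (fun z _ => hC z) hz
  -- the points are not equal to the preimages from some time on
  have hev : ∀ z : Fin 2 → AlgebraicClosure k, ∃ m0 : ℕ, z ≠ 0 → ∀ m, m0 ≤ m →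
      cr z (up ((sp F)^[m] x)) ≠ 0 := by
    intro z
    by_cases hex : ∃ m, cr z (up ((sp F)^[m] x)) = 0
    · obtain ⟨m1, hm1⟩ := hex
      refine ⟨m1 + 1, fun hz m hm h => ?_⟩
      have h1 : cr (up ((sp F)^[m1] x)) z = 0 := by rw [cr_comm, hm1, neg_zero]
      have h2 := cr_trans hz h1 h
      apply hpar m1 m (by omega)
      apply (algebraMap k (AlgebraicClosure k)).injective
      rw [map_zero, ← h2]
      simp only [cr, up, map_sub, map_mul]
    · push Not at hex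
      exact ⟨0, fun _ m _ => hex m⟩
  choose m0 hm0 using hev
  set M0 : ℕ := ∑ z ∈ Z, m0 z with hM0
  have hMle : ∀ z ∈ Z, m0 z ≤ M0 := fun z hz =>
    Finset.single_le_sum (f := m0) (fun z _ => Nat.zero_le _) hz
  set N : ℕ := (d ^ 3 - 1) ^ j with hN
  -- the error terms
  obtain ⟨n1, hn1⟩ : ∃ n1 : ℕ, (N * C' / wt v - Real.log c) / (ε / 2) ≤ n1 := exists_nat_ge _
  refine ⟨3 * j + M0 + n1, fun n hn => ?_⟩
  obtain ⟨m, rfl⟩ : ∃ m, n = 3 * j + m := ⟨n - 3 * j, by omega⟩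
  obtain ⟨z, hz, h1⟩ := hstep ((sp F)^[m] x) (hxn m)
  rw [← Function.iterate_add_apply] at h1
  have h2 := hroth z (hZ z hz).1 ((sp F)^[m] x) (hxn m)
    (hm0 z (hZ z hz).1 m (by have := hMle z hz; omega))
  have h3 : Real.exp (-((3 * (A * d ^ m) + C') / wt v)) ≤ dl v W z ((sp F)^[m] x) := by
    refine le_trans (Real.exp_le_exp.2 ?_) h2
    have h4 := hup m
    have h5 := hCle z hz
    rw [neg_le_neg_iff]
    gcongr
  refine le_trans ?_ h1
  have h4 : c * Real.exp (-((3 * (A * d ^ m) + C') / wt v)) ^ N ≤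
      c * dl v W z ((sp F)^[m] x) ^ N := by gcongr
  refine le_trans ?_ h4
  rw [← Real.exp_nat_mul, ← Real.exp_log hc, ← Real.exp_add, Real.exp_le_exp]
  -- compare
  have h5 : (N : ℝ) * (3 * A / wt v) * d ^ m ≤ ε / 2 * d ^ (3 * j + m) := by
    have e1 : (N : ℝ) = ρ ^ j * (d : ℝ) ^ (3 * j) := by
      rw [hN, hρ, div_pow, pow_mul, ← pow_mul]
      push_cast
      field_simp
    rw [e1, pow_add]
    have e2 : ρ ^ j * (3 * A / wt v) ≤ ε / 2 := by
      have h6 : 0 < 3 * A / wt v := by positivity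
      exact ((lt_div_iff₀ h6).1 hj).le
    have e3 : (0 : ℝ) ≤ (d : ℝ) ^ (3 * j) * d ^ m := by positivity
    calc ρ ^ j * (d : ℝ) ^ (3 * j) * (3 * A / wt v) * d ^ m =
        ρ ^ j * (3 * A / wt v) * ((d : ℝ) ^ (3 * j) * d ^ m) := by ring
      _ ≤ ε / 2 * ((d : ℝ) ^ (3 * j) * d ^ m) := mul_le_mul_of_nonneg_right e2 e3
  have h6 : N * C' / wt v - Real.log c ≤ ε / 2 * d ^ (3 * j + m) := by
    have h7 : ((n1 : ℕ) : ℝ) ≤ (d : ℝ) ^ (3 * j + m) := by
      have h8 : n1 ≤ 3 * j + m := by omega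
      have h9 : 3 * j + m < d ^ (3 * j + m) := Nat.lt_pow_self (by omega)
      have h10 : n1 ≤ d ^ (3 * j + m) := by omega
      exact_mod_cast h10
    have h8 := hn1.trans h7
    rw [div_le_iff₀ (by positivity)] at h8
    linarith
  have h7 : (N : ℝ) * -((3 * (A * d ^ m) + C') / wt v) =
      -((N : ℝ) * (3 * A / wt v) * d ^ m) - N * C' / wt v := by
    field_simp
    ring
  rw [h7]
  have h8 : ε * (d : ℝ) ^ (3 * j + m) = ε / 2 * d ^ (3 * j + m) + ε / 2 * d ^ (3 * j + m) := by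
    ring
  rw [h8]
  linarith

end

end Pool.Agent.L5helper26.JN
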