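import Pool.Agent.L5helper26.JN.G

/-!
Orbits which are attracted to the line and closed sets which contain neither the line nor an
exceptional point.
-/

set_option autoImplicit false
set_option linter.unusedSectionVars false

open MvPolynomial

namespace Pool.Agent.L5helper26.JN

open NumberField Height Module IsDedekindDomain
open Pool.Agent.W180.OP (Pl av wt nrm le_nrm nrm_pos nrm_nonneg exists_nrm nrm_le cs cs_nonneg abv_mv)
open Pool.Agent.R847.SN (IsExt exists_isExt)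
open Pool.Agent.L5helper26.RO

variable {k : Type} [Field k] [NumberField k]

/-- The form over the algebraic closure. -/
noncomputable def up2 (a : MvPolynomial (Fin 2) k) : MvPolynomial (Fin 2) (AlgebraicClosure k) :=
  map (algebraMap k (AlgebraicClosure k)) a

theorem fact_val {v : Pl k} {W : AbsoluteValue (AlgebraicClosure k) ℝ} (hW : IsExt v W) {D : ℕ}
    {a : MvPolynomial (Fin 2) k} (ha : a.IsHomogeneous D) (ha0 : a ≠ 0) :
    ∃ (c0 : AlgebraicClosure k) (t : Fin D → Fin 2 → AlgebraicClosure k), c0 ≠ 0 ∧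
      (∀ i, t i ≠ 0) ∧ (∀ z, eval z (up2 a) = c0 * ∏ i, cr (t i) z) ∧
      ∀ x : Fin 2 → k, x ≠ 0 →
        av v (eval x a) = W c0 * ((∏ i, dl v W (t i) x) * nrm (av v) x ^ D) := by
  have ha'0 : up2 a ≠ 0 := by
    intro h
    apply ha0
    apply map_injective _ (algebraMap k (AlgebraicClosure k)).injective
    rw [map_zero]
    exact h
  obtain ⟨c0, t, hc0, ht, hfac⟩ := bin_eval (ha.map (algebraMap k (AlgebraicClosure k))) ha'0
  refine ⟨c0, t, hc0, ht, hfac, fun x hx => ?_⟩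
  have hX := nrm_pos (av v) hx
  have e1 : algebraMap k (AlgebraicClosure k) (eval x a) = eval (up x) (up2 a) := by
    rw [up2, eval_map]
    exact eval₂_comp (algebraMap k (AlgebraicClosure k)) x a
  rw [← hW.1, e1]
  have e3 : eval (up x) (up2 a) = c0 * ∏ i, cr (t i) (up x) := hfac (up x)
  rw [e3, map_mul, map_prod]
  congr 1
  have e2 : ∀ i, W (cr (t i) (up x)) = dl v W (t i) x * nrm (av v) x := fun i => by
    rw [dl, div_mul_cancel₀ _ hX.ne']
  rw [Finset.prod_congr rfl fun i _ => e2 i, Finset.prod_mul_distrib, Finset.prod_const,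
    Finset.card_univ, Fintype.card_fin]

/-- A form is not small near to a point where it does not vanish. -/
theorem not_small_near {v : Pl k} {W : AbsoluteValue (AlgebraicClosure k) ℝ} (hW : IsExt v W)
    {D : ℕ} {b : MvPolynomial (Fin 2) k} (hb : b.IsHomogeneous D) (t : Fin 2 → AlgebraicClosure k)
    (htb : eval t (up2 b) ≠ 0) :
    ∃ δ : ℝ, 0 < δ ∧ ∀ x : Fin 2 → k, x ≠ 0 → dl v W t x < δ →
      δ * nrm (av v) x ^ D ≤ av v (eval x b) := by
  classical
  have hb0 : b ≠ 0 := by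
    rintro rfl
    apply htb
    rw [up2, map_zero, map_zero]
  obtain ⟨c0, s, hc0, hs, hfac, hval⟩ := fact_val hW hb hb0
  have hcr : ∀ l, cr (s l) t ≠ 0 := by
    intro l h
    apply htb
    rw [hfac, Finset.prod_eq_zero (Finset.mem_univ l) h, mul_zero]
  choose e he hnb using fun l => not_both hW (s l) t (hcr l)
  obtain ⟨δ0, hδ0, hδ⟩ : ∃ δ0 : ℝ, 0 < δ0 ∧ ∀ l, δ0 ≤ e l := by
    rcases Nat.eq_zero_or_pos D with rfl | hD
    · exact ⟨1, one_pos, fun l => l.elim0⟩
    · have : Nonempty (Fin D) := ⟨⟨0, hD⟩⟩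
      obtain ⟨l0, -, hl0⟩ := Finset.exists_min_image Finset.univ e Finset.univ_nonempty
      exact ⟨e l0, he l0, fun l => hl0 l (Finset.mem_univ _)⟩
  have hWc0 : 0 < W c0 := W.pos_iff.2 hc0
  refine ⟨min δ0 (W c0 * δ0 ^ D), by positivity, fun x hx hlt => ?_⟩
  have hX := nrm_pos (av v) hx
  have h1 : ∀ l, δ0 ≤ dl v W (s l) x := by
    intro l
    rcases hnb l x hx with h | h
    · exact (hδ l).trans h
    · exfalso
      have h2 := hlt.trans_le (min_le_left _ _)
      have h3 := hδ l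
      linarith
  have h2 : δ0 ^ D ≤ ∏ l, dl v W (s l) x := by
    have e1 : δ0 ^ D = ∏ _l : Fin D, δ0 := by
      rw [Finset.prod_const, Finset.card_univ, Fintype.card_fin]
    rw [e1]
    exact Finset.prod_le_prod (fun _ _ => hδ0.le) fun l _ => h1 l
  rw [hval x hx, ← mul_assoc]
  refine mul_le_mul_of_nonneg_right ?_ (by positivity)
  exact (min_le_right _ _).trans (mul_le_mul_of_nonneg_left h2 hWc0.le)

/-- Numbers which are bounded by `C exp (- c d ^ n)` are small from some time on. -/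
theorem eventually_small {d : ℕ} (hd : 2 ≤ d) (c C δ : ℝ) (hc : 0 < c) (hδ : 0 < δ) :
    ∃ N : ℕ, ∀ n, N ≤ n → C < δ * Real.exp (c * d ^ n) := by
  obtain ⟨N, hN⟩ : ∃ N : ℕ, C / δ / c < N := exists_nat_gt _
  refine ⟨N, fun n hn => ?_⟩
  have h9 : (N : ℝ) ≤ (d : ℝ) ^ n := by
    have e2 : n < d ^ n := Nat.lt_pow_self (by omega)
    have e3 : N ≤ d ^ n := by omega
    exact_mod_cast e3
  have h10 := hN.trans_le h9
  rw [div_lt_iff₀ hc, div_lt_iff₀ hδ] at h10
  have h11 := Real.add_one_le_exp (c * (d : ℝ) ^ n)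
  have h12 : δ * (c * (d : ℝ) ^ n) < δ * Real.exp (c * d ^ n) :=
    mul_lt_mul_of_pos_left (by linarith) hδ
  linarith

section

variable {d : ℕ} (F : Fin 2 → MvPolynomial (Fin 2) k) (hF : ∀ i, (F i).IsHomogeneous d)
  (h0 : ∀ x : Fin 2 → AlgebraicClosure k, (∀ i, aeval x (F i) = 0) → x = 0)

include hF h0 in
theorem line_finite2 (hd : 2 ≤ d) (v : Pl k) {m : ℕ} (x : ℕ → Fin 2 → k)
    (y : ℕ → Fin m → k) (hx0 : x 0 ≠ 0) (hxs : ∀ n, x (n + 1) = sp F (x n))
    (hpar : ∀ n m, n ≠ m → cr (x n) (x m) ≠ 0) (n0 : ℕ) (c : ℝ) (hc : 0 < c)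
    (hesc : ∀ n, n0 ≤ n → Real.exp (c * d ^ n) * nrm (av v) (y n) ≤ nrm (av v) (x n))
    (Q : Set (MvPolynomial (Fin 2 ⊕ Fin m) k)) (hQ : ∀ q ∈ Q, ∃ D : ℕ, q.IsHomogeneous D)
    (hQ1 : ∃ q ∈ Q, rs q ≠ 0)
    (hQ2 : ∀ t : Fin 2 → AlgebraicClosure k, t ≠ 0 → ¬ NE (cl F) t →
      ∃ q ∈ Q, eval t (up2 (rs q)) ≠ 0) :
    {n | ∀ q ∈ Q, eval (Sum.elim (x n) (y n)) q = 0}.Finite := by
  classical
  have hxit : ∀ n, x n = (sp F)^[n] (x 0) := by
    intro n
    induction n with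
    | zero => rfl
    | succ n ih => rw [hxs, Function.iterate_succ_apply', ← ih]
  have hxn : ∀ n, x n ≠ 0 := by
    intro n
    rw [hxit]
    exact sp_iter_ne F (base_zero F h0) hx0 n
  obtain ⟨W, hW⟩ := exists_isExt v
  -- values on the line
  have hsmall : ∀ (q : MvPolynomial (Fin 2 ⊕ Fin m) k) (D : ℕ), q.IsHomogeneous D →
      ∃ C : ℝ, 0 ≤ C ∧ ∀ n, n0 ≤ n → eval (Sum.elim (x n) (y n)) q = 0 →
        av v (eval (x n) (rs q)) * Real.exp (c * d ^ n) ≤ C * nrm (av v) (x n) ^ D := by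
    intro q D hq
    obtain ⟨C, hC, hzb⟩ := line_bound (av v) q hq
    refine ⟨C, hC, fun n hn hz => ?_⟩
    have hX := nrm_pos (av v) (hxn n)
    have hY := nrm_nonneg (av v) (y n)
    have hes := hesc n hn
    have hdn : (0 : ℝ) ≤ (d : ℝ) ^ n := by positivity
    have hxy : nrm (av v) (y n) ≤ nrm (av v) (x n) := by
      refine le_trans ?_ hes
      have h1 : 1 ≤ Real.exp (c * d ^ n) := Real.one_le_exp (by positivity)
      nlinarith
    have h1 := hzb (x n) (y n) hxy hz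
    refine le_of_mul_le_mul_right ?_ hX
    calc av v (eval (x n) (rs q)) * Real.exp (c * d ^ n) * nrm (av v) (x n) =
          av v (eval (x n) (rs q)) * nrm (av v) (x n) * Real.exp (c * d ^ n) := by ring
      _ ≤ C * (nrm (av v) (y n) * nrm (av v) (x n) ^ D) * Real.exp (c * d ^ n) := by gcongr
      _ = C * nrm (av v) (x n) ^ D * (Real.exp (c * d ^ n) * nrm (av v) (y n)) := by ring
      _ ≤ C * nrm (av v) (x n) ^ D * nrm (av v) (x n) := by gcongr
  obtain ⟨q0, hq0, hrs0⟩ := hQ1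
  obtain ⟨D, hD⟩ := hQ q0 hq0
  obtain ⟨C, hC, hC1⟩ := hsmall q0 D hD
  obtain ⟨c0, t, hc0, ht, hfac, hval⟩ := fact_val hW (rs_hom hD) hrs0
  have hdR : (2 : ℝ) ≤ d := by exact_mod_cast hd
  set ε : ℝ := c / (2 * (D + 1)) with hε
  have hε0 : 0 < ε := by positivity
  have hlow : ∀ i, ∃ n1 : ℕ, ∀ n, n1 ≤ n → (∀ q ∈ Q, eval (Sum.elim (x n) (y n)) q = 0) →
      Real.exp (-(ε * d ^ n)) ≤ dl v W (t i) (x n) := by
    intro i
    by_cases hne : NE (cl F) (t i)
    · obtain ⟨n1, h⟩ := silb F hF h0 hd hW (x 0) hx0 (fun n m hnm => by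
        rw [← hxit, ← hxit]; exact hpar n m hnm) (t i) (ht i) hne ε hε0
      exact ⟨n1, fun n hn _ => by rw [hxit]; exact h n hn⟩
    · obtain ⟨q1, hq1, hq1t⟩ := hQ2 (t i) (ht i) hne
      obtain ⟨D1, hD1⟩ := hQ q1 hq1
      obtain ⟨C1, hC10, hC11⟩ := hsmall q1 D1 hD1
      obtain ⟨δ, hδ, hδ1⟩ := not_small_near hW (rs_hom hD1) (t i) hq1t
      obtain ⟨N1, hN1⟩ := eventually_small hd c C1 δ hc hδ
      obtain ⟨N2, hN2⟩ := eventually_small hd ε 1 δ hε0 hδ
      refine ⟨n0 + N1 + N2, fun n hn hz => ?_⟩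
      by_contra hlt
      push Not at hlt
      have hX := nrm_pos (av v) (hxn n)
      have hE := Real.exp_pos (ε * (d : ℝ) ^ n)
      have h1 : dl v W (t i) (x n) < δ := by
        refine hlt.trans ?_
        rw [Real.exp_neg, inv_lt_iff_one_lt_mul₀ hE]
        have := hN2 n (by omega)
        linarith
      have h2 := hδ1 (x n) (hxn n) h1
      have h3 := hC11 n (by omega) (hz q1 hq1)
      have h4 := hN1 n (by omega)
      have hE' := Real.exp_pos (c * (d : ℝ) ^ n)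
      have hXD : 0 < nrm (av v) (x n) ^ D1 := by positivity
      have h5 : δ * nrm (av v) (x n) ^ D1 * Real.exp (c * d ^ n) ≤ C1 * nrm (av v) (x n) ^ D1 :=
        (mul_le_mul_of_nonneg_right h2 hE'.le).trans h3
      have h6 : C1 * nrm (av v) (x n) ^ D1 < δ * Real.exp (c * d ^ n) * nrm (av v) (x n) ^ D1 :=
        mul_lt_mul_of_pos_right h4 hXD
      linarith
  choose n1 hn1 using hlow
  set N1 := ∑ i, n1 i with hN1
  have hN1le : ∀ i, n1 i ≤ N1 := fun i =>
    Finset.single_le_sum (f := n1) (fun _ _ => Nat.zero_le _) (Finset.mem_univ i)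
  have hWc0 : 0 < W c0 := W.pos_iff.2 hc0
  obtain ⟨N2, hN2⟩ := eventually_small hd (c / 2) C (W c0) (by positivity) hWc0
  refine (Set.finite_lt_nat (n0 + N1 + N2 + 1)).subset fun n hn => ?_
  rw [Set.mem_ofPred_eq] at hn ⊢
  by_contra hlt
  push Not at hlt
  have hX := nrm_pos (av v) (hxn n)
  have hdn : (0 : ℝ) < (d : ℝ) ^ n := by positivity
  have h1 := hC1 n (by omega) (hn q0 hq0)
  rw [hval (x n) (hxn n)] at h1
  have h3 : Real.exp (-(ε * d ^ n)) ^ D ≤ ∏ i, dl v W (t i) (x n) := by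
    have e1 : Real.exp (-(ε * d ^ n)) ^ D = ∏ _i : Fin D, Real.exp (-(ε * d ^ n)) := by
      rw [Finset.prod_const, Finset.card_univ, Fintype.card_fin]
    rw [e1]
    exact Finset.prod_le_prod (fun i _ => (Real.exp_pos _).le) fun i _ =>
      hn1 i n (by have := hN1le i; omega) hn
  have h6 : W c0 * (Real.exp (-(ε * d ^ n)) ^ D * Real.exp (c * d ^ n)) ≤ C := by
    have e1 : 0 < nrm (av v) (x n) ^ D := by positivity
    refine le_of_mul_le_mul_right (le_trans ?_ h1) e1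
    calc W c0 * (Real.exp (-(ε * d ^ n)) ^ D * Real.exp (c * d ^ n)) * nrm (av v) (x n) ^ D =
          W c0 * (Real.exp (-(ε * d ^ n)) ^ D * nrm (av v) (x n) ^ D) * Real.exp (c * d ^ n) := by
          ring
      _ ≤ _ := by gcongr
  rw [← Real.exp_nat_mul, ← Real.exp_add] at h6
  have h7 : c / 2 * d ^ n ≤ (D : ℝ) * -(ε * d ^ n) + c * d ^ n := by
    have e1 : (D : ℝ) * ε ≤ c / 2 := by
      rw [hε, mul_div_assoc', div_le_div_iff₀ (by positivity) (by norm_num)]
      nlinarith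
    have e2 : (D : ℝ) * -(ε * d ^ n) = -((D : ℝ) * ε * d ^ n) := by ring
    rw [e2]
    have e3 : (D : ℝ) * ε * d ^ n ≤ c / 2 * d ^ n := mul_le_mul_of_nonneg_right e1 hdn.le
    linarith
  have h8 : W c0 * Real.exp (c / 2 * d ^ n) ≤ C := by
    refine le_trans ?_ h6
    exact mul_le_mul_of_nonneg_left (Real.exp_le_exp.2 h7) hWc0.le
  have h9 := hN2 n (by omega)
  linarith

end

end Pool.Agent.L5helper26.JN
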