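import Pool.Agent.L5helper26.JN.H

/-!
From number fields to the complex numbers, functions with exceptional points.
-/

set_option autoImplicit false
set_option linter.unusedSectionVars false

open MvPolynomial

namespace Pool.Agent.L5helper26.JN

open NumberField Height Module IsDedekindDomain
open Pool.Agent.W180.OP (Pl av wt wt_nonneg nrm le_nrm nrm_pos nrm_nonneg exists_nrm nrm_le)
open Pool.Agent.L5helper26.RO

theorem ne_of_map {L M : Type} [Field L] [Field M] (j : L →+* M) {d : ℕ}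
    (F : Fin 2 → MvPolynomial (Fin 2) L) (hF : ∀ i, (F i).IsHomogeneous d)
    (h0 : ∀ x : Fin 2 → M, (∀ i, eval x (mp j F i) = 0) → x = 0) [IsAlgClosed L] (hd : 1 ≤ d)
    (t : Fin 2 → L) (ht : t ≠ 0) (h : NE (mp j F) (j ∘ t)) : NE F t := by
  have h0' := zero_of_map j F h0
  have key : ∀ (t : Fin 2 → L), t ≠ 0 → ∀ y : Fin 2 → M, cr (j ∘ t) (sp (mp j F) y) = 0 →
      ∃ z : Fin 2 → L, z ≠ 0 ∧ cr t (sp F z) = 0 ∧ cr (j ∘ z) y = 0 := by
    intro t ht y hy
    obtain ⟨c, z, hc, hz, hfac⟩ := fac1_poly F hF h0' hd t ht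
    have h1 := congrArg (eval y) (congrArg (map j) hfac)
    simp only [map_sub, map_mul, map_C, map_prod, eval_C, eval_X, map_X] at h1
    have h2 : cr (j ∘ t) (sp (mp j F) y) = j c * ∏ i, cr (j ∘ z i) y := h1
    rw [hy] at h2
    obtain ⟨i, -, hi⟩ := Finset.prod_eq_zero_iff.1
      ((mul_eq_zero.1 h2.symm).resolve_left ((map_ne_zero j).2 hc))
    refine ⟨z i, hz i, ?_, hi⟩
    have h3 := congrArg (eval (z i)) hfac
    simp only [map_sub, map_mul, map_prod, eval_C, eval_X] at h3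
    have h4 : cr t (sp F (z i)) = c * ∏ l, cr (z l) (z i) := h3
    rw [h4, Finset.prod_eq_zero (Finset.mem_univ i) (cr_self _), mul_zero]
  obtain ⟨w, hw, hw1, hw2⟩ := h
  obtain ⟨z, hz, hz1, hz2⟩ := key t ht _ hw1
  obtain ⟨u, hu, hu1, hu2⟩ := key z hz _ hz2
  refine ⟨u, hu, ?_, fun h1 => hw2 ?_⟩
  · have h3 := sp_cr F hF hz (sp_ne F h0' hu) hu1
    exact cr_trans (sp_ne F h0' hz) hz1 h3
  · have h3 : cr (j ∘ t) (j ∘ u) = 0 := by rw [cr_map, h1, map_zero]
    exact cr_trans (comp_ne j hu) h3 hu2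

theorem cl_data2 {k : Type} [Field k] (j : k →+* ℂ) {d : ℕ} (hd : 1 ≤ d)
    (F : Fin 2 → MvPolynomial (Fin 2) k) (hF : ∀ i, (F i).IsHomogeneous d)
    (h0 : ∀ x : Fin 2 → ℂ, (∀ i, eval x (mp j F i) = 0) → x = 0) :
    (∀ x : Fin 2 → AlgebraicClosure k, (∀ i, aeval x (F i) = 0) → x = 0) ∧
    ∃ σ : AlgebraicClosure k →+* ℂ, (∀ c, σ (algebraMap k (AlgebraicClosure k) c) = j c) ∧
      ∀ t : Fin 2 → AlgebraicClosure k, t ≠ 0 → NE (mp j F) (σ ∘ t) → NE (cl F) t := by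
  letI : Algebra k ℂ := j.toAlgebra
  let σ : AlgebraicClosure k →ₐ[k] ℂ := IsAlgClosed.lift
  have h1 : mp (σ : AlgebraicClosure k →+* ℂ) (cl F) = mp j F := by
    funext i
    change map (σ : AlgebraicClosure k →+* ℂ) (map (algebraMap k (AlgebraicClosure k)) (F i)) =
      map j (F i)
    rw [map_map]
    have h2 : (σ : AlgebraicClosure k →+* ℂ).comp (algebraMap k (AlgebraicClosure k)) = j := by
      ext c
      exact σ.commutes c
    rw [h2]
  have h2 : ∀ x : Fin 2 → ℂ, (∀ i, eval x (mp (σ : AlgebraicClosure k →+* ℂ) (cl F) i) = 0) →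
      x = 0 := by
    rw [h1]
    exact h0
  refine ⟨?_, (σ : AlgebraicClosure k →+* ℂ), fun c => σ.commutes c, fun t ht h => ?_⟩
  · intro x hx
    refine zero_of_map (σ : AlgebraicClosure k →+* ℂ) (cl F) h2 x fun i => ?_
    change eval x (map (algebraMap k (AlgebraicClosure k)) (F i)) = 0
    rw [eval_map]
    exact hx i
  · refine ne_of_map (d := d) (σ : AlgebraicClosure k →+* ℂ) (cl F)
      (fun i => (hF i).map _) h2 hd t ht ?_
    rw [h1]
    exact h

/-- The closed set does not contain the line, and it contains no exceptional point on it. -/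
def Av1 {m : ℕ} (F : Fin 2 → MvPolynomial (Fin 2) ℂ) (S : Set (MvPolynomial (Fin 2 ⊕ Fin m) ℂ)) :
    Prop :=
  (∃ g ∈ S, ∃ p : Fin 2 → ℂ, eval (Sum.elim p 0) g ≠ 0) ∧
    ∀ e : Fin 2 → ℂ, e ≠ 0 → ¬ NE F e → ∃ g ∈ S, eval (Sum.elim e 0) g ≠ 0

/-- An orbit which is attracted to the line returns only finitely often. -/
theorem fin_core2 {k : Type} [Field k] [NumberField k] (j : k →+* ℂ) {d : ℕ} (hd : 2 ≤ d)
    (F : Fin 2 → MvPolynomial (Fin 2) k) (hF : ∀ i, (F i).IsHomogeneous d)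
    (h0 : ∀ x : Fin 2 → ℂ, (∀ i, eval x (mp j F i) = 0) → x = 0)
    {m : ℕ} (x : ℕ → Fin 2 → k) (y : ℕ → Fin m → k) (hx : x 0 ≠ 0)
    (hxs : ∀ n, x (n + 1) = sp F (x n)) (hpar : ∀ n m, n ≠ m → cr (x n) (x m) ≠ 0)
    (hnear : Near d x y) (S : Set (MvPolynomial (Fin 2 ⊕ Fin m) ℂ))
    (hS : ∀ g ∈ S, ∃ e : ℕ, g.IsHomogeneous e) (hav : Av1 (mp j F) S) :
    {n | ∀ g ∈ S, eval (Sum.elim (fun i => j (x n i)) fun i => j (y n i)) g = 0}.Finite := by
  letI : Algebra k ℂ := j.toAlgebra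
  choose r c q hc hgq hq using fun g : MvPolynomial (Fin 2 ⊕ Fin m) ℂ => exists_cmp (K := k) g
  obtain ⟨h0', σ, hσ, hNE⟩ := cl_data2 j (by omega) F hF h0
  obtain ⟨v, n0, c', hc', hes⟩ := hnear
  have hval : ∀ (g : MvPolynomial (Fin 2 ⊕ Fin m) ℂ) (p : Fin 2 → ℂ),
      eval (Sum.elim p 0) g = ∑ i, c g i * eval p (map j (rs (q g i))) := by
    intro g p
    conv_lhs => rw [hgq g]
    rw [map_sum]
    refine Finset.sum_congr rfl fun i _ => ?_
    rw [map_mul, eval_C, ← eval_rs]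
    congr 2
    exact rs_map (algebraMap k ℂ) (q g i)
  refine (line_finite2 F hF h0' hd v x y hx hxs hpar n0 c' hc' hes
    {p | ∃ g ∈ S, ∃ i, p = q g i} ?_ ?_ ?_).subset fun n hn => ?_
  · rintro p ⟨g, hg, i, rfl⟩
    obtain ⟨e, he⟩ := hS g hg
    exact ⟨e, hq g e he i⟩
  · obtain ⟨g, hg, p, hp⟩ := hav.1
    by_contra hall
    push Not at hall
    apply hp
    rw [hval]
    refine Finset.sum_eq_zero fun i _ => ?_
    rw [hall (q g i) ⟨g, hg, i, rfl⟩, map_zero, map_zero, mul_zero]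
  · intro t ht hnt
    have hσt : (σ ∘ t : Fin 2 → ℂ) ≠ 0 := comp_ne σ ht
    obtain ⟨g, hg, hgt⟩ := hav.2 (σ ∘ t) hσt fun h => hnt (hNE t ht h)
    by_contra hall
    push Not at hall
    apply hgt
    rw [hval]
    refine Finset.sum_eq_zero fun i _ => ?_
    have h1 := hall (q g i) ⟨g, hg, i, rfl⟩
    have h2 : eval (σ ∘ t) (map j (rs (q g i))) = σ (eval t (up2 (rs (q g i)))) := by
      rw [up2, eval_map, eval_map]
      have h3 : j = σ.comp (algebraMap k (AlgebraicClosure k)) := by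
        ext c
        exact (hσ c).symm
      rw [h3]
      exact (hom_eval₂ _ _ _ _).symm
    rw [h2, h1, map_zero, mul_zero]
  · rw [Set.mem_ofPred_eq] at hn ⊢
    rintro p ⟨g, hg, i, rfl⟩
    refine (eval_cmp (hc g) (hgq g) (Sum.elim (x n) (y n))).1 ?_ i
    have e : (fun l => algebraMap k ℂ (Sum.elim (x n) (y n) l)) =
        Sum.elim (fun i => j (x n i)) fun i => j (y n i) := by
      funext l
      rcases l with l | l
      · rfl
      · rfl
    rw [e]
    exact hn g hg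

/-- Finitely many returns to each closed set which contains neither the line nor an exceptional
point. -/
def R1 {m : ℕ} (F : Fin 2 → MvPolynomial (Fin 2) ℂ)
    (Φ : Fin 2 ⊕ Fin m → MvPolynomial (Fin 2 ⊕ Fin m) ℂ) (a : Fin 2 ⊕ Fin m → ℂ) : Prop :=
  ∀ S : Set (MvPolynomial (Fin 2 ⊕ Fin m) ℂ), (∀ g ∈ S, ∃ e : ℕ, g.IsHomogeneous e) →
    Av1 F S → {n : ℕ | ∀ g ∈ S, eval ((cm Φ)^[n] a) g = 0}.Finite

section

variable {k : Type} [Field k] [NumberField k] (j : k →+* ℂ) {d m : ℕ}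
  (F : Fin 2 → MvPolynomial (Fin 2) k) (hF : ∀ i, (F i).IsHomogeneous d)
  (h0 : ∀ x : Fin 2 → ℂ, (∀ i, eval x (mp j F i) = 0) → x = 0)
  (Ψ : Fin m → MvPolynomial (Fin m) k) (hΨ : ∀ i, (Ψ i).IsHomogeneous d)

include hF h0 in
theorem inf_par2 (hd : 2 ≤ d) {x : Fin 2 → k} (hinf : Inf (mp j F) fun i => j (x i)) :
    ∀ n m, n ≠ m → cr ((sp F)^[n] x) ((sp F)^[m] x) ≠ 0 := by
  have hx := inf_ne j F h0 hd hF hinf
  obtain ⟨h0', -⟩ := cl_data2 j (by omega) F hF h0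
  intro n m hnm h
  refine hinf n m hnm ?_
  have e : ∀ n, (cm (mp j F))^[n] (fun i => j (x i)) = fun i => j ((sp F)^[n] x i) :=
    fun n => cm_map_iter j F x n
  rw [e, e]
  exact (par_iff j (sp_iter_ne F (base_zero F h0') hx n) (sp_iter_ne F (base_zero F h0') hx m)).2 h

include hF h0 in
theorem r1_of_near (hd : 2 ≤ d) (x : Fin 2 → k) (y : Fin m → k)
    (hinf : Inf (mp j F) fun i => j (x i))
    (hnear : Near d (fun n => (sp F)^[n] x) fun n => (spm Ψ)^[n] y) :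
    R1 (mp j F) (jo (mp j F) fun i => map j (Ψ i))
      (Sum.elim (fun i => j (x i)) fun i => j (y i)) := by
  intro S hS hav
  refine (fin_core2 j hd F hF h0 (fun n => (sp F)^[n] x) (fun n => (spm Ψ)^[n] y)
    (inf_ne j F h0 hd hF hinf) (fun n => Function.iterate_succ_apply' _ _ _)
    (inf_par2 j F hF h0 hd hinf) hnear S hS hav).subset fun n hn g hg => ?_
  have h1 := hn g hg
  rw [cm_jo_iter] at h1
  have e1 : (cm (mp j F))^[n] (fun i => j (x i)) = fun i => j ((sp F)^[n] x i) :=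
    cm_map_iter j F x n
  have e2 : (cm fun i => map j (Ψ i))^[n] (fun i => j (y i)) = fun i => j ((spm Ψ)^[n] y i) :=
    cm_map_iter j Ψ y n
  rw [e1, e2] at h1
  exact h1

end

end Pool.Agent.L5helper26.JN
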