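import Pool.Agent.L5helper26.JN.J

/-!
Two rational functions, which may have exceptional points.
-/

set_option autoImplicit false
set_option linter.unusedSectionVars false

open MvPolynomial

namespace Pool.Agent.L5helper26.JN

open NumberField Height Module IsDedekindDomain
open Pool.Agent.W180.OP (Pl av wt wt_nonneg nrm le_nrm nrm_pos nrm_nonneg exists_nrm nrm_le)
open Pool.Agent.L5helper26.RO

/-- The closed set does not contain the second line, and it contains no exceptional point on it. -/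
def Av2 (G : Fin 2 → MvPolynomial (Fin 2) ℂ) (S : Set (MvPolynomial (Fin 2 ⊕ Fin 2) ℂ)) :
    Prop :=
  (∃ g ∈ S, ∃ p : Fin 2 → ℂ, eval (Sum.elim 0 p) g ≠ 0) ∧
    ∀ e : Fin 2 → ℂ, e ≠ 0 → ¬ NE G e → ∃ g ∈ S, eval (Sum.elim 0 e) g ≠ 0

/-- Finitely many returns to each closed set which contains neither of the two lines and none of the
exceptional points on them. -/
def R2 (F G : Fin 2 → MvPolynomial (Fin 2) ℂ)
    (Φ : Fin 2 ⊕ Fin 2 → MvPolynomial (Fin 2 ⊕ Fin 2) ℂ) (a : Fin 2 ⊕ Fin 2 → ℂ) : Prop :=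
  ∀ S : Set (MvPolynomial (Fin 2 ⊕ Fin 2) ℂ), (∀ g ∈ S, ∃ e : ℕ, g.IsHomogeneous e) →
    Av1 F S → Av2 G S → {n : ℕ | ∀ g ∈ S, eval ((cm Φ)^[n] a) g = 0}.Finite

theorem eval_swap (a b : Fin 2 → ℂ) (g : MvPolynomial (Fin 2 ⊕ Fin 2) ℂ) :
    eval (Sum.elim a b) (rename Sum.swap g) = eval (Sum.elim b a) g := by
  rw [eval_rename]
  congr 2
  funext i
  rcases i with i | i
  · rfl
  · rfl

section

variable {k : Type} [Field k] [NumberField k] (j : k →+* ℂ) {d : ℕ}
  (F : Fin 2 → MvPolynomial (Fin 2) k) (hF : ∀ i, (F i).IsHomogeneous d)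
  (hF0 : ∀ x : Fin 2 → ℂ, (∀ i, eval x (mp j F i) = 0) → x = 0)
  (G : Fin 2 → MvPolynomial (Fin 2) k) (hG : ∀ i, (G i).IsHomogeneous d)
  (hG0 : ∀ x : Fin 2 → ℂ, (∀ i, eval x (mp j G i) = 0) → x = 0)

include hF hF0 hG hG0 in
theorem r2_k (hd : 2 ≤ d) (x y : Fin 2 → k) (hx : Inf (mp j F) fun i => j (x i))
    (hy : Inf (mp j G) fun i => j (y i))
    (h : Near d (fun n => (sp F)^[n] x) (fun n => (sp G)^[n] y) ∨
      Near d (fun n => (sp G)^[n] y) fun n => (sp F)^[n] x) :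
    R2 (mp j F) (mp j G) (jo (mp j F) (mp j G))
      (Sum.elim (fun i => j (x i)) fun i => j (y i)) := by
  intro S hS hS1 hS2
  rcases h with h | h
  · exact r1_of_near j F hF hF0 G hd x y hx h S hS hS1
  · have hsw : Av1 (mp j G) (rename Sum.swap '' S) := by
      refine ⟨?_, fun e he hne => ?_⟩
      · obtain ⟨g, hg, p, hp⟩ := hS2.1
        exact ⟨_, ⟨g, hg, rfl⟩, p, by rw [eval_swap]; exact hp⟩
      · obtain ⟨g, hg, hp⟩ := hS2.2 e he hne
        exact ⟨_, ⟨g, hg, rfl⟩, by rw [eval_swap]; exact hp⟩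
    refine (fin_core2 j hd G hG hG0 (fun n => (sp G)^[n] y) (fun n => (sp F)^[n] x)
      (inf_ne j G hG0 hd hG hy) (fun n => Function.iterate_succ_apply' _ _ _)
      (inf_par2 j G hG hG0 hd hy) h (rename Sum.swap '' S) ?_ hsw).subset fun n hn => ?_
    · rintro _ ⟨g, hg, rfl⟩
      obtain ⟨e, he⟩ := hS g hg
      exact ⟨e, he.rename_isHomogeneous⟩
    rintro _ ⟨g, hg, rfl⟩
    have h1 := hn g hg
    rw [cm_jo_iter] at h1
    have e1 : (cm (mp j F))^[n] (fun i => j (x i)) = fun i => j ((sp F)^[n] x i) :=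
      cm_map_iter j F x n
    have e2 : (cm (mp j G))^[n] (fun i => j (y i)) = fun i => j ((sp G)^[n] y i) :=
      cm_map_iter j G y n
    rw [e1, e2] at h1
    rw [eval_swap]
    exact h1

end

/-- **Two rational functions.** -/
theorem cosetJ2 {d : ℕ} (hd : 2 ≤ d) (F : Fin 2 → MvPolynomial (Fin 2) ℂ)
    (hF : ∀ i, (F i).IsHomogeneous d) (hFa : ∀ i κ, IsAlgebraic ℚ ((F i).coeff κ))
    (hF0 : ∀ x : Fin 2 → ℂ, (∀ i, eval x (F i) = 0) → x = 0)
    (G : Fin 2 → MvPolynomial (Fin 2) ℂ)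
    (hG : ∀ i, (G i).IsHomogeneous d) (hGa : ∀ i κ, IsAlgebraic ℚ ((G i).coeff κ))
    (hG0 : ∀ x : Fin 2 → ℂ, (∀ i, eval x (G i) = 0) → x = 0)
    (x y : Fin 2 → ℂ) (hxa : ∀ i, IsAlgebraic ℚ (x i)) (hya : ∀ i, IsAlgebraic ℚ (y i))
    (hx : Inf F x) (hy : Inf G y) :
    ∃ s : ℂ, s ≠ 0 ∧ ∀ t : ℂ, t ≠ 0 → IsAlgebraic ℚ t → (∀ w : ℕ, 0 < w → (t / s) ^ w ≠ 1) →
      R2 F G (jo F G) (Sum.elim x (t • y)) := by
  classical
  by_cases hex : ∃ s : ℂ, s ≠ 0 ∧ IsAlgebraic ℚ s ∧ ¬ R2 F G (jo F G) (Sum.elim x (s • y))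
  · obtain ⟨s, hs, hsa, hsn⟩ := hex
    refine ⟨s, hs, fun t ht hta hw => ?_⟩
    by_contra htn
    obtain ⟨k, _, _, j, F', G', e1, e2, h3, h4, h5⟩ := exists_descJ F hF hFa G hG hGa
      (Finset.univ.image x ∪ Finset.univ.image y ∪ {s, t}) (by
        intro u hu
        simp only [Finset.mem_union, Finset.mem_image, Finset.mem_univ, true_and,
          Finset.mem_insert, Finset.mem_singleton] at hu
        rcases hu with (⟨i, rfl⟩ | ⟨i, rfl⟩) | rfl | rfl
        · exact hxa i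
        · exact hya i
        · exact hsa
        · exact hta)
    have e2' : mp j G' = G := e2
    choose x' hx' using fun i => h5 (x i) (by simp)
    choose y' hy' using fun i => h5 (y i) (by simp)
    obtain ⟨s', hs'⟩ := h5 s (by simp)
    obtain ⟨t', ht'⟩ := h5 t (by simp)
    have hs0 : s' ≠ 0 := by rintro rfl; exact hs (by rw [← hs', map_zero])
    have ht0 : t' ≠ 0 := by rintro rfl; exact ht (by rw [← ht', map_zero])
    subst e1 e2'
    obtain ⟨hF0', -⟩ := cl_data2 j (by omega) F' h3 hF0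
    obtain ⟨hG0', -⟩ := cl_data2 j (by omega) G' h4 hG0
    have ex : x = fun i => j (x' i) := funext fun i => (hx' i).symm
    have ey : y = fun i => j (y' i) := funext fun i => (hy' i).symm
    have hsm : ∀ (r : ℂ) (r' : k), j r' = r → r • y = fun i => j ((r' • y') i) := by
      intro r r' hr
      funext i
      change r * y i = j (r' * y' i)
      rw [map_mul, hr, hy']
    have hxne : x' ≠ 0 := inf_ne j F' hF0 hd h3 (by rw [← ex]; exact hx)
    have hyne : y' ≠ 0 := inf_ne j G' hG0 hd h4 (by rw [← ey]; exact hy)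
    have hkey : ∀ (r : ℂ) (r' : k), r ≠ 0 → j r' = r →
        ¬ R2 (mp j F') (mp j G') (jo (mp j F') (mp j G')) (Sum.elim x (r • y)) →
        ¬ Near d (fun n => (sp F')^[n] x') (fun n => (sp G')^[n] (r' • y')) ∧
        ¬ Near d (fun n => (sp G')^[n] (r' • y')) (fun n => (sp F')^[n] x') := by
      intro r r' hr0 hr hn
      rw [← not_or]
      intro h
      apply hn
      have hy2 := inf_smul (mp j G') hG y hy r hr0
      rw [hsm r r' hr] at hy2 ⊢
      rw [ex]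
      exact r2_k j F' h3 hF0 G' h4 hG0 hd x' (r' • y') (by rw [← ex]; exact hx) hy2 h
    obtain ⟨w, hw0, hw1⟩ := coset_k hd F' h3 hF0' G' h4 hG0' x' y' hxne hyne s' t' hs0 ht0
      (hkey s s' hs hs' hsn).1 (hkey t t' ht ht' htn).2
    refine hw w hw0 ?_
    rw [← hs', ← ht', ← map_div₀, ← map_pow, hw1, map_one]
  · push Not at hex
    exact ⟨1, one_ne_zero, fun t ht hta _ => hex t ht hta⟩

end Pool.Agent.L5helper26.JN
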