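import Pool.Agent.L5helper26.JN.K

/-!
Separation of the exceptional points with respect to the usual absolute value.
-/

set_option autoImplicit false
set_option linter.unusedSectionVars false

open MvPolynomial

namespace Pool.Agent.L5helper26.JN

open Pool.Agent.W180.OP (nrm le_nrm nrm_pos nrm_nonneg exists_nrm nrm_le)
open Pool.Agent.L5helper26.RO

section

variable {K : Type} [Field K] {m : ℕ}

theorem diff_bound (f : AbsoluteValue K ℝ) {D : ℕ} (g : MvPolynomial (Fin 2 ⊕ Fin m) K)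
    (hg : g.IsHomogeneous D) : ∃ C : ℝ, 0 ≤ C ∧ ∀ (x : Fin 2 → K) (y : Fin m → K),
      nrm f y ≤ nrm f x →
      f (eval (Sum.elim x y) g - eval (Sum.elim x 0) g) * nrm f x ≤
        C * (nrm f y * nrm f x ^ D) := by
  refine ⟨∑ κ ∈ g.support, f (g.coeff κ), Finset.sum_nonneg fun _ _ => f.nonneg _,
    fun x y hxy => ?_⟩
  have hx0 := nrm_nonneg f x
  have e : eval (Sum.elim x y) g - eval (Sum.elim x 0) g = ∑ κ ∈ g.support, g.coeff κ *
      (∏ i, (Sum.elim x y i) ^ κ i - ∏ i, (Sum.elim x (0 : Fin m → K) i) ^ κ i) := by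
    rw [eval_eq', eval_eq', ← Finset.sum_sub_distrib]
    refine Finset.sum_congr rfl fun κ _ => ?_
    ring
  rw [e]
  calc _ ≤ (∑ κ ∈ g.support, f (g.coeff κ *
        (∏ i, (Sum.elim x y i) ^ κ i - ∏ i, (Sum.elim x (0 : Fin m → K) i) ^ κ i))) * nrm f x :=
        mul_le_mul_of_nonneg_right (f.sum_le _ _) hx0
    _ ≤ _ := by
        rw [Finset.sum_mul, Finset.sum_mul]
        refine Finset.sum_le_sum fun κ hκ => ?_
        rw [map_mul, mul_assoc]
        refine mul_le_mul_of_nonneg_left ?_ (f.nonneg _)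
        refine mono_bound f x y hxy κ ?_
        have h1 := hg (mem_support_iff.1 hκ)
        exact (DFunLike.congr_fun (Finsupp.degree_eq_weight_one (σ := Fin 2 ⊕ Fin m) (R := ℕ))
          κ).trans h1

theorem nrm_add_le (f : AbsoluteValue K ℝ) {n : ℕ} (x y : Fin n → K) :
    nrm f (x + y) ≤ nrm f x + nrm f y :=
  nrm_le (add_nonneg (nrm_nonneg _ _) (nrm_nonneg _ _)) fun j =>
    (f.add_le _ _).trans (add_le_add (le_nrm f x j) (le_nrm f y j))

theorem nrm_smul' (f : AbsoluteValue K ℝ) (r : K) (y : Fin 2 → K) :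
    nrm f (r • y) = f r * nrm f y := by
  apply le_antisymm
  · refine nrm_le (mul_nonneg (f.nonneg _) (nrm_nonneg _ _)) fun i => ?_
    change f (r * y i) ≤ _
    rw [map_mul]
    exact mul_le_mul_of_nonneg_left (le_nrm _ _ _) (f.nonneg _)
  · obtain ⟨i, hi⟩ := exists_nrm f (by norm_num : 0 < 2) y
    rw [← hi, ← map_mul]
    exact le_nrm f (r • y) i

/-- One step of the perturbation. -/
theorem pert_step {d : ℕ} (G : Fin 2 → MvPolynomial (Fin 2) K) (hG : ∀ i, (G i).IsHomogeneous d)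
    (f : AbsoluteValue K ℝ) (c : ℝ) (hc : 0 < c)
    (hlow : ∀ x : Fin 2 → K, x ≠ 0 → c * nrm f x ^ d ≤ nrm f (sp G x)) :
    ∃ A : ℝ, 1 ≤ A ∧ ∀ (u w : Fin 2 → K) (δ : ℝ), u ≠ 0 → δ ≤ 1 → nrm f w ≤ δ * nrm f u →
      nrm f (sp G (u + w) - sp G u) ≤ A * δ * nrm f (sp G u) := by
  let g' : Fin 2 → MvPolynomial (Fin 2 ⊕ Fin 2) K := fun i =>
    aeval (fun l => X (Sum.inl l) + X (Sum.inr l)) (G i)
  have hg' : ∀ i, (g' i).IsHomogeneous d := by
    intro i
    have h := IsHomogeneous.aeval (hG i) (fun l => X (Sum.inl l) + X (Sum.inr l) :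
      Fin 2 → MvPolynomial (Fin 2 ⊕ Fin 2) K) (n := 1)
      (fun l => (isHomogeneous_X _ _).add (isHomogeneous_X _ _))
    rwa [one_mul] at h
  have he : ∀ (i : Fin 2) (u w : Fin 2 → K), eval (Sum.elim u w) (g' i) = eval (u + w) (G i) := by
    intro i u w
    change eval (Sum.elim u w) (aeval _ (G i)) = _
    induction G i using MvPolynomial.induction_on with
    | C a => simp
    | add p q hp hq => rw [map_add, map_add, map_add, hp, hq]
    | mul_X p l hp => rw [map_mul, map_mul, map_mul, hp, aeval_X, eval_X]; simp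
  choose C hC hb using fun i => diff_bound f (g' i) (hg' i)
  set C' : ℝ := C 0 + C 1 with hC'
  have hC'0 : 0 ≤ C' := add_nonneg (hC 0) (hC 1)
  have hCle : ∀ i, C i ≤ C' := by
    intro i
    fin_cases i
    · have := hC 1
      change C 0 ≤ C'
      linarith
    · have := hC 0
      change C 1 ≤ C'
      linarith
  refine ⟨C' / c + 1, by have : 0 ≤ C' / c := by positivity
                         linarith, fun u w δ hu hδ hw => ?_⟩
  have hU := nrm_pos f hu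
  have hW := nrm_nonneg f w
  have hwu : nrm f w ≤ nrm f u := by nlinarith
  have hδ0 : 0 ≤ δ := by
    by_contra h
    push Not at h
    nlinarith
  have hlo := hlow u hu
  have hS := nrm_nonneg f (sp G u)
  refine nrm_le (by positivity) fun i => ?_
  have h1 := hb i u w hwu
  rw [he, he, add_zero] at h1
  have h2 : f (eval (u + w) (G i) - eval u (G i)) ≤ C' * δ * nrm f u ^ d := by
    refine le_of_mul_le_mul_right ?_ hU
    calc _ ≤ C i * (nrm f w * nrm f u ^ d) := h1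
      _ ≤ C' * (δ * nrm f u * nrm f u ^ d) := by
          refine mul_le_mul (hCle i) ?_ (by positivity) hC'0
          exact mul_le_mul_of_nonneg_right hw (by positivity)
      _ = _ := by ring
  change f (eval (u + w) (G i) - eval u (G i)) ≤ _
  refine h2.trans ?_
  calc C' * δ * nrm f u ^ d = C' / c * δ * (c * nrm f u ^ d) := by field_simp
    _ ≤ C' / c * δ * nrm f (sp G u) := by gcongr
    _ ≤ _ := by
        refine mul_le_mul_of_nonneg_right ?_ hS
        refine mul_le_mul_of_nonneg_right ?_ hδ0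
        linarith

/-- The perturbation of the orbit. -/
theorem pert_iter {d : ℕ} (G : Fin 2 → MvPolynomial (Fin 2) K) (hG : ∀ i, (G i).IsHomogeneous d)
    (h0 : ∀ x : Fin 2 → K, (∀ i, eval x (G i) = 0) → x = 0)
    (f : AbsoluteValue K ℝ) (c : ℝ) (hc : 0 < c)
    (hlow : ∀ x : Fin 2 → K, x ≠ 0 → c * nrm f x ^ d ≤ nrm f (sp G x)) :
    ∃ A : ℝ, 1 ≤ A ∧ ∀ (n : ℕ) (u w : Fin 2 → K) (δ : ℝ), u ≠ 0 → 0 ≤ δ → A ^ n * δ ≤ 1 →
      nrm f w ≤ δ * nrm f u →
      nrm f ((sp G)^[n] (u + w) - (sp G)^[n] u) ≤ A ^ n * δ * nrm f ((sp G)^[n] u) := by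
  obtain ⟨A, hA, hstep⟩ := pert_step G hG f c hc hlow
  refine ⟨A, hA, fun n u w δ hu hδ0 => ?_⟩
  induction n with
  | zero =>
    intro _ hw
    rw [pow_zero, one_mul]
    have e : (sp G)^[0] (u + w) - (sp G)^[0] u = w := by simp
    rw [e]
    exact hw
  | succ n ih =>
    intro hA1 hw
    have hAn : 0 ≤ A ^ n * δ := by positivity
    have h1 : A ^ n * δ ≤ 1 := by
      refine le_trans ?_ hA1
      rw [pow_succ]
      nlinarith
    have h2 := ih h1 hw
    have hu' : (sp G)^[n] u ≠ 0 := sp_iter_ne G h0 hu n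
    have h3 := hstep ((sp G)^[n] u) ((sp G)^[n] (u + w) - (sp G)^[n] u) (A ^ n * δ) hu' h1 h2
    rw [add_sub_cancel] at h3
    rw [Function.iterate_succ_apply', Function.iterate_succ_apply']
    refine h3.trans (le_of_eq ?_)
    rw [pow_succ]
    ring

end

/-- **Separation.** Two comparable orbits do not start at vectors whose quotient is nearly a number
which is larger than one. -/
theorem separation {d : ℕ} (hd : 2 ≤ d) (G : Fin 2 → MvPolynomial (Fin 2) ℂ)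
    (hG : ∀ i, (G i).IsHomogeneous d) (h0 : ∀ x : Fin 2 → ℂ, (∀ i, eval x (G i) = 0) → x = 0)
    (f : AbsoluteValue ℂ ℝ) (hf : ∀ r : ℝ, f (r : ℂ) = |r|) (c : ℝ) (hc : 0 < c)
    (hlow : ∀ x : Fin 2 → ℂ, x ≠ 0 → c * nrm f x ^ d ≤ nrm f (sp G x))
    (M ρ0 : ℝ) (hρ0 : 1 < ρ0) :
    ∃ Y : ℝ, 0 < Y ∧ ∀ (ρ : ℝ) (z w y : Fin 2 → ℂ), ρ0 ≤ ρ → Y ≤ nrm f z → nrm f w ≤ 1 →
      y = (ρ : ℂ) • z + w → ∃ n : ℕ, M * nrm f ((sp G)^[n] z) < nrm f ((sp G)^[n] y) := by
  obtain ⟨A, hA, hit⟩ := pert_iter G hG h0 f c hc hlow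
  obtain ⟨N, hN⟩ := pow_unbounded_of_one_lt (2 * |M| + 2) hρ0
  refine ⟨2 * A ^ N, by positivity, fun ρ z w y hρ hz hw hy => ⟨N, ?_⟩⟩
  have hAN : 1 ≤ A ^ N := one_le_pow₀ hA
  have hZ : 0 < nrm f z := by linarith
  have hz0 : z ≠ 0 := by
    rintro rfl
    have h1 : nrm f (0 : Fin 2 → ℂ) ≤ 0 := nrm_le le_rfl fun l => by
      rw [Pi.zero_apply, map_zero]
    linarith
  have hρ1 : 1 < ρ := hρ0.trans_le hρ
  have hρc : (ρ : ℂ) ≠ 0 := by
    exact_mod_cast (by linarith : ρ ≠ 0)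
  have hu : (ρ : ℂ) • z ≠ 0 := smul_ne_zero hρc hz0
  have hnu : nrm f ((ρ : ℂ) • z) = ρ * nrm f z := by
    rw [nrm_smul', hf, abs_of_pos (by linarith)]
  set δ : ℝ := (nrm f z)⁻¹ with hδ
  have hδ0 : 0 ≤ δ := by positivity
  have hAδ : A ^ N * δ ≤ 1 / 2 := by
    rw [hδ, ← div_eq_mul_inv, div_le_div_iff₀ hZ (by norm_num)]
    linarith
  have h1 := hit N ((ρ : ℂ) • z) w δ hu hδ0 (by linarith) (by
    rw [hnu, hδ]
    have : (nrm f z)⁻¹ * (ρ * nrm f z) = ρ := by field_simp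
    rw [this]
    linarith)
  rw [← hy] at h1
  have e1 : (sp G)^[N] ((ρ : ℂ) • z) = ((ρ : ℂ)) ^ (d ^ N) • (sp G)^[N] z :=
    spm_iter_smul G hG _ z N
  have h2 : nrm f ((sp G)^[N] ((ρ : ℂ) • z)) = ρ ^ (d ^ N) * nrm f ((sp G)^[N] z) := by
    rw [e1, nrm_smul', map_pow, hf, abs_of_pos (by linarith)]
  have hP : 0 < nrm f ((sp G)^[N] z) := nrm_pos f (sp_iter_ne G h0 hz0 N)
  have h3 : nrm f ((sp G)^[N] ((ρ : ℂ) • z)) ≤ nrm f ((sp G)^[N] y) +
      nrm f ((sp G)^[N] y - (sp G)^[N] ((ρ : ℂ) • z)) := by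
    have e2 : (sp G)^[N] ((ρ : ℂ) • z) = (sp G)^[N] y +
        (-((sp G)^[N] y - (sp G)^[N] ((ρ : ℂ) • z))) := by abel
    conv_lhs => rw [e2]
    refine (nrm_add_le f _ _).trans ?_
    gcongr
    refine nrm_le (nrm_nonneg _ _) fun i => ?_
    rw [Pi.neg_apply, AbsoluteValue.map_neg]
    exact le_nrm f _ i
  have h4 : ρ0 ^ N ≤ ρ ^ (d ^ N) :=
    (pow_le_pow_left₀ (by linarith) hρ N).trans
      (pow_le_pow_right₀ hρ1.le (Nat.lt_pow_self (by omega)).le)
  have h5 : 0 ≤ nrm f ((sp G)^[N] ((ρ : ℂ) • z)) := nrm_nonneg _ _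
  have h6 : 1 / 2 * (ρ ^ (d ^ N) * nrm f ((sp G)^[N] z)) ≤ nrm f ((sp G)^[N] y) := by
    rw [← h2]
    nlinarith
  refine lt_of_lt_of_le ?_ h6
  have h7 : 2 * M < ρ ^ (d ^ N) := by
    have := le_abs_self M
    have := abs_nonneg M
    linarith
  nlinarith

end Pool.Agent.L5helper26.JN
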