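import Pool.Agent.L5helper26.JN.L

/-!
The number of the integral points which have infinitely many returns.
-/

set_option autoImplicit false
set_option linter.unusedSectionVars false

open MvPolynomial

namespace Pool.Agent.L5helper26.JN

open Pool.Agent.W180.OP (nrm le_nrm nrm_pos nrm_nonneg exists_nrm nrm_le)
open Pool.Agent.L5helper26.RO

/-- The usual absolute value. -/
noncomputable def f0 : AbsoluteValue ℂ ℝ := NormedField.toAbsoluteValue ℂ

theorem f0_apply (z : ℂ) : f0 z = ‖z‖ := rfl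

theorem f0_real (r : ℝ) : f0 (r : ℂ) = |r| := by
  rw [f0_apply, Complex.norm_real, Real.norm_eq_abs]

theorem up_zero (F : Fin 2 → MvPolynomial (Fin 2) ℂ)
    (h0 : ∀ x : Fin 2 → ℂ, (∀ i, eval x (F i) = 0) → x = 0) :
    ∀ x : Fin 2 → AlgebraicClosure ℂ, (∀ i, aeval x (F i) = 0) → x = 0 := by
  intro x hx
  have hs : Function.Surjective (algebraMap ℂ (AlgebraicClosure ℂ)) :=
    (IsAlgClosed.algebraMap_bijective_of_isIntegral (k := ℂ) (K := AlgebraicClosure ℂ)).2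
  choose x' hx' using fun i => hs (x i)
  have ex : x = algebraMap ℂ (AlgebraicClosure ℂ) ∘ x' := funext fun i => (hx' i).symm
  have h1 : x' = 0 := h0 x' fun i => by
    have h2 := hx i
    rw [ex, aeval_algebraMap_apply, map_eq_zero] at h2
    exact (DFunLike.congr_fun (coe_aeval_eq_eval x') (F i)).symm.trans h2
  rw [ex, h1]
  funext i
  simp

section

variable {d : ℕ} (hd : 2 ≤ d) (F : Fin 2 → MvPolynomial (Fin 2) ℂ)
  (hF : ∀ i, (F i).IsHomogeneous d) (hFa : ∀ i κ, IsAlgebraic ℚ ((F i).coeff κ))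
  (hF0 : ∀ x : Fin 2 → ℂ, (∀ i, eval x (F i) = 0) → x = 0)
  (G : Fin 2 → MvPolynomial (Fin 2) ℂ)
  (hG : ∀ i, (G i).IsHomogeneous d) (hGa : ∀ i κ, IsAlgebraic ℚ ((G i).coeff κ))
  (hG0 : ∀ x : Fin 2 → ℂ, (∀ i, eval x (G i) = 0) → x = 0)

include hd hF hF0 in
theorem low : ∃ c : ℝ, 0 < c ∧ ∀ x : Fin 2 → ℂ, x ≠ 0 → c * nrm f0 x ^ d ≤ nrm f0 (sp F x) := by
  obtain ⟨κ, hκ, h⟩ := exists_const hd F hF (up_zero F hF0) F hF f0
  let y : Fin 2 → ℂ := fun _ => 1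
  have hy : y ≠ 0 := fun h => one_ne_zero (congrFun h 0)
  have hn : nrm f0 y = 1 := by
    obtain ⟨i, hi⟩ := exists_nrm f0 (by norm_num : 0 < 2) y
    rw [← hi]
    exact map_one f0
  have hp : 0 < nrm f0 (spm F y) := nrm_pos f0 (sp_ne F hF0 hy)
  refine ⟨nrm f0 (spm F y) / Real.exp κ, by positivity, fun x hx => ?_⟩
  have h1 := h x y hx
  rw [hn, one_pow, one_mul] at h1
  rw [div_mul_eq_mul_div, div_le_iff₀ (Real.exp_pos _), mul_comm (nrm f0 (sp F x))]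
  exact h1

theorem inf_ne_zero {x : Fin 2 → ℂ} (hd : 2 ≤ d) (hF : ∀ i, (F i).IsHomogeneous d)
    (hinf : Inf F x) : x ≠ 0 := by
  rintro rfl
  refine hinf 0 1 (by omega) ⟨1, one_ne_zero, ?_⟩
  rw [one_smul, Function.iterate_zero, id, Function.iterate_one]
  have h2 := spm_zero (K := ℂ) (by omega : 1 ≤ d) F hF
  exact h2.symm

include hd hF hFa hF0 hG hGa hG0 in
theorem esc : ∃ κ : ℝ, ∀ x y : Fin 2 → ℂ, (∀ i, IsAlgebraic ℚ (x i)) →
    (∀ i, IsAlgebraic ℚ (y i)) → Inf F x → y ≠ 0 → ¬ R1 F (jo F G) (Sum.elim x y) →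
      ∀ n, nrm f0 ((sp F)^[n] x) ≤ Real.exp (κ + 1) * nrm f0 ((sp G)^[n] y) := by
  obtain ⟨κ, hκ, h⟩ := exists_const hd F hF (up_zero F hF0) G hG f0
  refine ⟨κ, fun x y hxa hya hx hy hn => ?_⟩
  by_contra hcon
  push Not at hcon
  obtain ⟨n0, hn0⟩ := hcon
  have hx0 := inf_ne_zero F hd hF hx
  obtain ⟨c, hc, hcn⟩ := ratio_orbit hd F G f0 κ hκ h (fun n => (sp F)^[n] x)
    (fun n => (spm G)^[n] y) (fun n => sp_iter_ne F hF0 hx0 n)
    (fun n => Function.iterate_succ_apply' _ _ _) (fun n => Function.iterate_succ_apply' _ _ _)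
    n0 1 one_pos hn0.le
  apply hn
  refine unboundedJ2 F hF hFa hF0 G hG hGa hd (Sum.elim x y) ?_ hx f0
    (Or.inr ⟨RingHom.id ℂ, fun z => rfl⟩) fun B => ?_
  · rintro (i | i)
    · exact hxa i
    · exact hya i
  set n : ℕ := max n0 ⌈|B| / c⌉₊ with hnd
  have h1 := hcn n (le_max_left _ _)
  have h2 : |B| ≤ c * d ^ n := by
    have h3 : |B| / c ≤ n := (Nat.le_ceil _).trans (by exact_mod_cast le_max_right _ _)
    have h4 : (n : ℝ) ≤ (d : ℝ) ^ n := by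
      exact_mod_cast (Nat.lt_pow_self (by omega : 1 < d)).le
    rw [div_le_iff₀ hc] at h3
    nlinarith
  have h5 : |B| < Real.exp (c * d ^ n) := lt_of_le_of_lt h2 (by
    have := Real.add_one_le_exp (c * (d : ℝ) ^ n)
    linarith)
  obtain ⟨i, hi⟩ := exists_nrm f0 (by norm_num : 0 < 2) ((sp F)^[n] x)
  refine ⟨n, i, fun l => ?_⟩
  rw [cm_jo_iter]
  change B * f0 ((spm G)^[n] y l) < f0 ((sp F)^[n] x i)
  rw [hi]
  have hyn : 0 < nrm f0 ((spm G)^[n] y) := nrm_pos f0 (sp_iter_ne G hG0 hy n)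
  have h6 := le_nrm f0 ((spm G)^[n] y) l
  calc B * f0 ((spm G)^[n] y l) ≤ |B| * nrm f0 ((spm G)^[n] y) := by
        refine mul_le_mul (le_abs_self B) h6 (f0.nonneg _) (abs_nonneg _)
    _ < Real.exp (c * d ^ n) * nrm f0 ((spm G)^[n] y) := mul_lt_mul_of_pos_right h5 hyn
    _ ≤ _ := h1

theorem r2_of_r1 {x y : Fin 2 → ℂ} (h : R1 F (jo F G) (Sum.elim x y)) :
    R2 F G (jo F G) (Sum.elim x y) := fun S hS h1 _ => h S hS h1

theorem r2_of_swap {x y : Fin 2 → ℂ} (h : R1 G (jo G F) (Sum.elim y x)) :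
    R2 F G (jo F G) (Sum.elim x y) := by
  intro S hS _ hS2
  have hsw : Av1 G (rename Sum.swap '' S) := by
    refine ⟨?_, fun e he hne => ?_⟩
    · obtain ⟨g, hg, p, hp⟩ := hS2.1
      exact ⟨_, ⟨g, hg, rfl⟩, p, by rw [eval_swap]; exact hp⟩
    · obtain ⟨g, hg, hp⟩ := hS2.2 e he hne
      exact ⟨_, ⟨g, hg, rfl⟩, by rw [eval_swap]; exact hp⟩
  refine (h (rename Sum.swap '' S) ?_ hsw).subset fun n hn => ?_
  · rintro _ ⟨g, hg, rfl⟩
    obtain ⟨e, he⟩ := hS g hg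
    exact ⟨e, he.rename_isHomogeneous⟩
  rintro _ ⟨g, hg, rfl⟩
  have h1 := hn g hg
  rw [cm_jo_iter] at h1 ⊢
  rw [eval_swap]
  exact h1

include hd hF hFa hF0 hG hGa hG0 in
theorem comparable : ∃ C : ℝ, 0 < C ∧ ∀ x y : Fin 2 → ℂ, (∀ i, IsAlgebraic ℚ (x i)) →
    (∀ i, IsAlgebraic ℚ (y i)) → Inf F x → Inf G y → ¬ R2 F G (jo F G) (Sum.elim x y) →
      ∀ n, nrm f0 ((sp F)^[n] x) ≤ C * nrm f0 ((sp G)^[n] y) ∧
        nrm f0 ((sp G)^[n] y) ≤ C * nrm f0 ((sp F)^[n] x) := by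
  obtain ⟨κ1, h1⟩ := esc hd F hF hFa hF0 G hG hGa hG0
  obtain ⟨κ2, h2⟩ := esc hd G hG hGa hG0 F hF hFa hF0
  refine ⟨Real.exp (κ1 + 1) + Real.exp (κ2 + 1), by positivity, fun x y hxa hya hx hy hn n =>
    ⟨?_, ?_⟩⟩
  · refine (h1 x y hxa hya hx (inf_ne_zero G hd hG hy) (fun h => hn (r2_of_r1 F G h)) n).trans ?_
    refine mul_le_mul_of_nonneg_right ?_ (nrm_nonneg _ _)
    linarith [Real.exp_pos (κ2 + 1)]
  · refine (h2 y x hya hxa hy (inf_ne_zero F hd hF hx) (fun h => hn (r2_of_swap F G h)) n).trans ?_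
    refine mul_le_mul_of_nonneg_right ?_ (nrm_nonneg _ _)
    linarith [Real.exp_pos (κ1 + 1)]

end

/-- The box. -/
noncomputable def box (n : ℕ) : Finset (Fin 2 → ℤ) := Fintype.piFinset fun _ => Finset.Icc (-(n : ℤ)) n

theorem mem_box {n : ℕ} {y : Fin 2 → ℤ} : y ∈ box n ↔ ∀ i, |y i| ≤ n := by
  rw [box, Fintype.mem_piFinset]
  refine forall_congr' fun i => ?_
  rw [Finset.mem_Icc, abs_le]

theorem card_box (n : ℕ) : (box n).card = (2 * n + 1) ^ 2 := by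
  rw [box, Fintype.card_piFinset_const, Int.card_Icc]
  congr 1
  omega

/-- The counting argument. -/
theorem count_abstract (K B : ℕ) (hK : 0 < K) (T : Finset (Fin 2 → ℤ)) (hT : T ⊆ box B)
    (hsep : ∀ (ρ : ℝ) (z y : Fin 2 → ℤ) (w : Fin 2 → ℝ), z ∈ T → y ∈ T →
      1 + 1 / (2 * K) ≤ ρ → (∀ i, |w i| ≤ 1) → ¬ ∀ i, (y i : ℝ) = ρ * z i + w i) :
    K * T.card ≤ (2 * (2 * B + 1) + 1) ^ 2 := by
  have hK' : (0 : ℝ) < K := by exact_mod_cast hK
  let s : Fin K → ℝ := fun k => 1 + (k : ℝ) / K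
  have hs1 : ∀ k, 1 ≤ s k := fun k => by
    have : (0 : ℝ) ≤ (k : ℝ) / K := by positivity
    change 1 ≤ 1 + (k : ℝ) / K
    linarith
  have hs2 : ∀ k, s k ≤ 2 := fun k => by
    have : (k : ℝ) / K ≤ 1 := by
      rw [div_le_one hK']
      exact_mod_cast k.2.le
    change 1 + (k : ℝ) / K ≤ 2
    linarith
  let φ : Fin K × (Fin 2 → ℤ) → (Fin 2 → ℤ) := fun p i => ⌊s p.1 * (p.2 i : ℝ)⌋
  have hfl : ∀ (k : Fin K) (y : Fin 2 → ℤ) (i : Fin 2), (φ (k, y) i : ℝ) ≤ s k * y i ∧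
      s k * y i < φ (k, y) i + 1 := fun k y i => ⟨Int.floor_le _, Int.lt_floor_add_one _⟩
  have hlt : ∀ (k k' : Fin K) (y y' : Fin 2 → ℤ), y ∈ T → y' ∈ T → φ (k, y) = φ (k', y') →
      ¬ k < k' := by
    intro k k' y y' hy hy' he hkk
    have hkk' : (k : ℝ) + 1 ≤ (k' : ℝ) := by exact_mod_cast hkk
    have hsk : s k + 1 / K ≤ s k' := by
      change 1 + (k : ℝ) / K + 1 / K ≤ 1 + (k' : ℝ) / K
      have : (k : ℝ) / K + 1 / K ≤ (k' : ℝ) / K := by
        rw [← add_div]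
        gcongr
      linarith
    have hp : 0 < s k := lt_of_lt_of_le one_pos (hs1 k)
    refine hsep (s k' / s k) y' y (fun i => (y i : ℝ) - s k' / s k * y' i) hy' hy ?_ ?_ ?_
    · rw [le_div_iff₀ hp]
      have h1 := hs2 k
      have h2 : 1 / (2 * (K : ℝ)) * s k ≤ 1 / K := by
        calc 1 / (2 * (K : ℝ)) * s k ≤ 1 / (2 * (K : ℝ)) * 2 := by gcongr
          _ = 1 / K := by field_simp
      linarith
    · intro i
      have h1 := hfl k y i
      have h2 := hfl k' y' i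
      have h3 : φ (k, y) i = φ (k', y') i := congrFun he i
      rw [h3] at h1
      have h4 : (y i : ℝ) - s k' / s k * y' i = (s k * y i - s k' * y' i) / s k := by
        field_simp
      rw [h4, abs_div, abs_of_pos hp, div_le_one hp]
      refine le_trans ?_ (hs1 k)
      rw [abs_le]
      constructor <;> linarith [h1.1, h1.2, h2.1, h2.2]
    · intro i
      ring
  have hinj : Set.InjOn φ (((Finset.univ : Finset (Fin K)) ×ˢ T : Finset _) : Set _) := by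
    rintro ⟨k, y⟩ hp ⟨k', y'⟩ hq he
    have hy : y ∈ T := (Finset.mem_product.1 hp).2
    have hy' : y' ∈ T := (Finset.mem_product.1 hq).2
    have hk : k = k' := by
      rcases lt_trichotomy k k' with h | h | h
      · exact absurd h (hlt k k' y y' hy hy' he)
      · exact h
      · exact absurd h (hlt k' k y' y hy' hy he.symm)
    subst hk
    have : y = y' := by
      funext i
      have h1 := hfl k y i
      have h2 := hfl k y' i
      have h3 : φ (k, y) i = φ (k, y') i := congrFun he i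
      rw [h3] at h1
      have hp : 1 ≤ s k := hs1 k
      rcases lt_trichotomy (y i) (y' i) with h | h | h
      · have h4 : (y i : ℝ) + 1 ≤ y' i := by exact_mod_cast h
        nlinarith [h1.1, h1.2, h2.1, h2.2]
      · exact h
      · have h4 : (y' i : ℝ) + 1 ≤ y i := by exact_mod_cast h
        nlinarith [h1.1, h1.2, h2.1, h2.2]
    rw [this]
  have hmaps : ∀ p ∈ (Finset.univ : Finset (Fin K)) ×ˢ T, φ p ∈ box (2 * B + 1) := by
    rintro ⟨k, y⟩ hp
    have hy : y ∈ box B := hT (Finset.mem_product.1 hp).2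
    rw [mem_box] at hy ⊢
    intro i
    have h1 := hfl k y i
    have h2 : |(y i : ℝ)| ≤ B := by exact_mod_cast hy i
    have h3 : |s k * (y i : ℝ)| ≤ 2 * B := by
      rw [abs_mul, abs_of_pos (lt_of_lt_of_le one_pos (hs1 k))]
      exact mul_le_mul (hs2 k) h2 (abs_nonneg _) (by norm_num)
    rw [abs_le] at h3
    have h4 : |(φ (k, y) i : ℝ)| ≤ ((2 * B + 1 : ℕ) : ℝ) := by
      push_cast
      rw [abs_le]
      constructor <;> linarith [h1.1, h1.2, h3.1, h3.2]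
    exact_mod_cast h4
  have h := Finset.card_le_card_of_injOn φ hmaps hinj
  rwa [Finset.card_product, Finset.card_univ, Fintype.card_fin, card_box] at h

section

variable {d : ℕ} (hd : 2 ≤ d) (F : Fin 2 → MvPolynomial (Fin 2) ℂ)
  (hF : ∀ i, (F i).IsHomogeneous d) (hFa : ∀ i κ, IsAlgebraic ℚ ((F i).coeff κ))
  (hF0 : ∀ x : Fin 2 → ℂ, (∀ i, eval x (F i) = 0) → x = 0)
  (G : Fin 2 → MvPolynomial (Fin 2) ℂ)
  (hG : ∀ i, (G i).IsHomogeneous d) (hGa : ∀ i κ, IsAlgebraic ℚ ((G i).coeff κ))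
  (hG0 : ∀ x : Fin 2 → ℂ, (∀ i, eval x (G i) = 0) → x = 0)

include hd hF hFa hF0 hG hGa hG0 in
/-- **Most integral points**, uniformly in the first point. -/
theorem densityJ2 (ε : ℝ) (hε : 0 < ε) : ∃ B0 : ℕ, ∀ B : ℕ, B0 ≤ B → ∀ x : Fin 2 → ℂ,
    (∀ i, IsAlgebraic ℚ (x i)) → Inf F x →
      {y : Fin 2 → ℤ | (∀ i, |y i| ≤ B) ∧ Inf G (fun i => (y i : ℂ)) ∧
        ¬ R2 F G (jo F G) (Sum.elim x fun i => (y i : ℂ))}.Finite ∧
      ({y : Fin 2 → ℤ | (∀ i, |y i| ≤ B) ∧ Inf G (fun i => (y i : ℂ)) ∧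
        ¬ R2 F G (jo F G) (Sum.elim x fun i => (y i : ℂ))}.ncard : ℝ) ≤ ε * B ^ 2 := by
  classical
  obtain ⟨C, hC, hcomp⟩ := comparable hd F hF hFa hF0 G hG hGa hG0
  obtain ⟨c, hc, hlow⟩ := low hd G hG hG0
  obtain ⟨K, hK⟩ := exists_nat_gt (98 / ε)
  have hK0 : (0 : ℝ) < K := lt_trans (by positivity) hK
  obtain ⟨Y, hY, hsep⟩ := separation hd G hG hG0 f0 f0_real c hc hlow (C * C) (1 + 1 / (2 * K))
    (by have : (0 : ℝ) < 1 / (2 * K) := by positivity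
        linarith)
  obtain ⟨Y', hY'⟩ := exists_nat_gt Y
  obtain ⟨B1, hB1⟩ := exists_nat_gt ((2 * (Y' : ℝ) + 1) ^ 2 * 2 / ε)
  refine ⟨max B1 1, fun B hB x hxa hx => ?_⟩
  have hBB1 : (B1 : ℝ) ≤ B := by exact_mod_cast (le_max_left _ _).trans hB
  have hBone : (1 : ℝ) ≤ B := by exact_mod_cast (le_max_right _ _).trans hB
  set S : Set (Fin 2 → ℤ) := {y : Fin 2 → ℤ | (∀ i, |y i| ≤ B) ∧ Inf G (fun i => (y i : ℂ)) ∧
        ¬ R2 F G (jo F G) (Sum.elim x fun i => (y i : ℂ))} with hS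
  let T : Finset (Fin 2 → ℤ) := (box B).filter fun y => Inf G (fun i => (y i : ℂ)) ∧
        ¬ R2 F G (jo F G) (Sum.elim x fun i => (y i : ℂ)) ∧ Y ≤ nrm f0 fun i => (y i : ℂ)
  have hST : S ⊆ ((T ∪ box Y' : Finset (Fin 2 → ℤ)) : Set (Fin 2 → ℤ)) := by
    rintro y ⟨h1, h2, h3⟩
    rw [Finset.mem_coe, Finset.mem_union]
    by_cases hyY : Y ≤ nrm f0 fun i => (y i : ℂ)
    · exact Or.inl (Finset.mem_filter.2 ⟨mem_box.2 h1, h2, h3, hyY⟩)
    · right
      push Not at hyY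
      rw [mem_box]
      intro i
      have h4 := (le_nrm f0 (fun i => (y i : ℂ)) i).trans hyY.le
      rw [f0_apply, Complex.norm_intCast] at h4
      have h5 : |(y i : ℝ)| ≤ (Y' : ℝ) := h4.trans hY'.le
      exact_mod_cast h5
  have hfin : S.Finite := (Finset.finite_toSet _).subset hST
  refine ⟨hfin, ?_⟩
  have hcard : S.ncard ≤ T.card + (box Y').card := by
    calc S.ncard ≤ ((T ∪ box Y' : Finset (Fin 2 → ℤ)) : Set (Fin 2 → ℤ)).ncard :=
          Set.ncard_le_ncard hST (Finset.finite_toSet _)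
      _ = (T ∪ box Y').card := Set.ncard_coe_finset _
      _ ≤ _ := Finset.card_union_le _ _
  have hKT : K * T.card ≤ (2 * (2 * B + 1) + 1) ^ 2 := by
    refine count_abstract K B (by exact_mod_cast hK0) T (Finset.filter_subset _ _) ?_
    intro ρ z y w hz hy hρ hw he
    obtain ⟨-, hz1, hz2, hz3⟩ := Finset.mem_filter.1 hz
    obtain ⟨-, hy1, hy2, -⟩ := Finset.mem_filter.1 hy
    obtain ⟨n, hn⟩ := hsep ρ (fun i => (z i : ℂ)) (fun i => ((w i : ℝ) : ℂ))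
      (fun i => (y i : ℂ)) hρ hz3 (nrm_le zero_le_one fun i => by
        rw [f0_real]
        exact hw i) (by
      funext i
      have h1 := congrArg (fun t : ℝ => (t : ℂ)) (he i)
      simp only [Complex.ofReal_add, Complex.ofReal_mul, Complex.ofReal_intCast] at h1
      exact h1)
    have ha : ∀ (u : Fin 2 → ℤ) i, IsAlgebraic ℚ ((u i : ℤ) : ℂ) := fun u i =>
      isAlgebraic_int (u i)
    have h1 := (hcomp x (fun i => (y i : ℂ)) hxa (ha y) hx hy1 hy2 n).2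
    have h2 := (hcomp x (fun i => (z i : ℂ)) hxa (ha z) hx hz1 hz2 n).1
    have h3 : nrm f0 ((sp G)^[n] fun i => (y i : ℂ)) ≤
        C * C * nrm f0 ((sp G)^[n] fun i => (z i : ℂ)) := by
      calc _ ≤ C * nrm f0 ((sp F)^[n] x) := h1
        _ ≤ C * (C * nrm f0 ((sp G)^[n] fun i => (z i : ℂ))) := by gcongr
        _ = _ := by ring
    linarith
  have hKT' : (K : ℝ) * T.card ≤ (4 * B + 3) ^ 2 := by
    have h1 : ((K * T.card : ℕ) : ℝ) ≤ (((2 * (2 * B + 1) + 1) ^ 2 : ℕ) : ℝ) := by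
      exact_mod_cast hKT
    push_cast at h1
    refine h1.trans (le_of_eq ?_)
    ring
  have h49 : (K : ℝ) * T.card ≤ 49 * B ^ 2 := by
    refine hKT'.trans ?_
    have h1 : (4 * (B : ℝ) + 3) ≤ 7 * B := by linarith
    calc (4 * (B : ℝ) + 3) ^ 2 ≤ (7 * B) ^ 2 := by gcongr
      _ = _ := by ring
  have hT2 : (T.card : ℝ) ≤ ε / 2 * B ^ 2 := by
    have h1 : 98 < K * ε := by rwa [div_lt_iff₀ hε] at hK
    have h2 : (K : ℝ) * T.card ≤ K * (ε / 2 * B ^ 2) := by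
      refine h49.trans ?_
      nlinarith [sq_nonneg (B : ℝ)]
    exact le_of_mul_le_mul_left h2 hK0
  have hb2 : ((box Y').card : ℝ) ≤ ε / 2 * B ^ 2 := by
    rw [card_box]
    push_cast
    have h1 : (2 * (Y' : ℝ) + 1) ^ 2 * 2 < B * ε := by
      have := hB1.trans_le hBB1
      rwa [div_lt_iff₀ hε] at this
    nlinarith [mul_pos hε (lt_of_lt_of_le one_pos hBone)]
  calc (S.ncard : ℝ) ≤ ((T.card + (box Y').card : ℕ) : ℝ) := by exact_mod_cast hcard
    _ = (T.card : ℝ) + (box Y').card := by push_cast; ring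
    _ ≤ _ := by linarith

end

end Pool.Agent.L5helper26.JN
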