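import Pool.Agent.L5helper26.JN.M

/-!
The integral points of finite orbit, and the number of all integral points with infinitely many returns.
-/

set_option autoImplicit false
set_option linter.unusedSectionVars false

open MvPolynomial

namespace Pool.Agent.L5helper26.JN

open NumberField Height Module
open Pool.Agent.W180.OP (nrm le_nrm nrm_pos nrm_nonneg exists_nrm nrm_le)
open Pool.Agent.L5helper26.RO

/-- A point of large height has an infinite orbit. -/
theorem inf_of_height {k : Type} [Field k] [NumberField k] (j : k →+* ℂ) {d : ℕ} (hd : 2 ≤ d)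
    (G : Fin 2 → MvPolynomial (Fin 2) k) (hG : ∀ i, (G i).IsHomogeneous d)
    (hG0 : ∀ x : Fin 2 → ℂ, (∀ i, eval x (mp j G i) = 0) → x = 0) :
    ∃ C : ℝ, ∀ y : Fin 2 → k, y ≠ 0 → C < logHeight y → Inf (mp j G) fun i => j (y i) := by
  obtain ⟨h0', -⟩ := cl_data2 j (by omega) G hG hG0
  obtain ⟨C, hC⟩ := Pool.Agent.R847.HG.exists_lower (N := 1) G hG h0'
  refine ⟨|C|, fun y hy0 hy n m hnm => ?_⟩
  have hst : ∀ u : Fin 2 → k, Pool.Agent.R847.HG.stepR G u = sp G u := fun u => by
    funext i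
    exact DFunLike.congr_fun (coe_aeval_eq_eval u) (G i)
  have hdR : (2 : ℝ) ≤ d := by exact_mod_cast hd
  have hstep1 : ∀ u : Fin 2 → k, |C| < logHeight u → logHeight u < logHeight (sp G u) := by
    intro u hu
    have h1 := hC u
    rw [hst] at h1
    have h2 := neg_abs_le C
    have h3 := abs_nonneg C
    nlinarith
  have hgrow : ∀ n, |C| < logHeight ((sp G)^[n] y) := by
    intro n
    induction n with
    | zero => exact hy
    | succ n ih =>
      rw [Function.iterate_succ_apply']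
      exact ih.trans (hstep1 _ ih)
  have hmono : StrictMono fun n => logHeight ((sp G)^[n] y) := strictMono_nat_of_lt_succ fun n => by
    rw [Function.iterate_succ_apply']
    exact hstep1 _ (hgrow n)
  intro h
  have e : ∀ n, (cm (mp j G))^[n] (fun i => j (y i)) = fun i => j ((sp G)^[n] y i) :=
    fun n => cm_map_iter j G y n
  rw [e, e] at h
  have hn := sp_iter_ne G (base_zero G h0') hy0 n
  have hm := sp_iter_ne G (base_zero G h0') hy0 m
  have h1 := (par_iff j hn hm).1 h
  obtain ⟨a, ha, h2⟩ := par_of_cr hn hm h1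
  have h3 : logHeight ((sp G)^[m] y) = logHeight ((sp G)^[n] y) := by
    rw [h2]
    exact logHeight_smul_eq_logHeight _ ha
  exact hnm (hmono.injective h3.symm)

/-- There are few integral points of small height. -/
theorem few_small {k : Type} [Field k] [NumberField k] (C : ℝ) : ∃ A : ℕ, ∀ B : ℕ,
    ∀ T : Finset (Fin 2 → ℤ), T ⊆ box B →
      (∀ y ∈ T, logHeight (fun i => ((y i : ℤ) : k)) ≤ C) → T.card ≤ A * (2 * B + 1) := by
  classical
  have hfin : {z : k | logHeight₁ z ≤ C}.Finite := Northcott.finite_le C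
  refine ⟨hfin.toFinset.card + 1, fun B T hT hC => ?_⟩
  have hI : (Finset.Icc (-(B : ℤ)) B).card = 2 * B + 1 := by
    rw [Int.card_Icc]
    omega
  have h1 : (T.filter fun y => y 1 ≠ 0).card ≤ hfin.toFinset.card * (2 * B + 1) := by
    rw [← hI, ← Finset.card_product]
    refine Finset.card_le_card_of_injOn (fun y => (((y 0 : ℤ) : k) / ((y 1 : ℤ) : k), y 1)) ?_ ?_
    · intro y hy
      obtain ⟨hyT, hy1⟩ := Finset.mem_filter.1 (Finset.mem_coe.1 hy)
      rw [Finset.mem_coe, Finset.mem_product]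
      refine ⟨?_, ?_⟩
      · rw [Set.Finite.mem_toFinset, Set.mem_ofPred_eq, logHeight₁_div_eq_logHeight]
        refine le_trans (le_of_eq ?_) (hC y hyT)
        congr 1
        funext l
        fin_cases l
        · rfl
        · rfl
      · have := mem_box.1 (hT hyT) 1
        rw [Finset.mem_Icc]
        exact abs_le.1 this
    · intro y hy y' hy' he
      obtain ⟨-, hy1⟩ := Finset.mem_filter.1 (Finset.mem_coe.1 hy)
      obtain ⟨he1, he2⟩ := Prod.mk.inj he
      have he2 : y 1 = y' 1 := he2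
      have hk : ((y 1 : ℤ) : k) ≠ 0 := by exact_mod_cast hy1
      have he1 : ((y 0 : ℤ) : k) / ((y 1 : ℤ) : k) = ((y' 0 : ℤ) : k) / ((y' 1 : ℤ) : k) := he1
      rw [← he2, div_left_inj' hk] at he1
      have he3 : y 0 = y' 0 := by exact_mod_cast he1
      funext l
      fin_cases l
      · exact he3
      · exact he2
  have h2 : (T.filter fun y => ¬ y 1 ≠ 0).card ≤ 2 * B + 1 := by
    rw [← hI]
    refine Finset.card_le_card_of_injOn (fun y => y 0) ?_ ?_
    · intro y hy
      obtain ⟨hyT, -⟩ := Finset.mem_filter.1 (Finset.mem_coe.1 hy)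
      have := mem_box.1 (hT hyT) 0
      rw [Finset.mem_coe, Finset.mem_Icc]
      exact abs_le.1 this
    · intro y hy y' hy' he
      obtain ⟨-, hy1⟩ := Finset.mem_filter.1 (Finset.mem_coe.1 hy)
      obtain ⟨-, hy2⟩ := Finset.mem_filter.1 (Finset.mem_coe.1 hy')
      have he : y 0 = y' 0 := he
      push Not at hy1 hy2
      funext l
      fin_cases l
      · exact he
      · exact hy1.trans hy2.symm
  have h3 := Finset.card_filter_add_card_filter_not (s := T) (fun y => y 1 ≠ 0)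
  rw [← h3, add_mul, one_mul]
  exact add_le_add h1 h2

section

variable {d : ℕ} (hd : 2 ≤ d) (F : Fin 2 → MvPolynomial (Fin 2) ℂ)
  (hF : ∀ i, (F i).IsHomogeneous d) (hFa : ∀ i κ, IsAlgebraic ℚ ((F i).coeff κ))
  (hF0 : ∀ x : Fin 2 → ℂ, (∀ i, eval x (F i) = 0) → x = 0)
  (G : Fin 2 → MvPolynomial (Fin 2) ℂ)
  (hG : ∀ i, (G i).IsHomogeneous d) (hGa : ∀ i κ, IsAlgebraic ℚ ((G i).coeff κ))
  (hG0 : ∀ x : Fin 2 → ℂ, (∀ i, eval x (G i) = 0) → x = 0)

include hd hG hGa hG0 in
/-- There are few integral points of finite orbit. -/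
theorem few_preper : ∃ A : ℕ, ∀ (B : ℕ) (T : Finset (Fin 2 → ℤ)), T ⊆ box B →
    (∀ y ∈ T, ¬ Inf G fun i => (y i : ℂ)) → T.card ≤ A * (2 * B + 1) := by
  classical
  obtain ⟨k, _, _, j, G', -, e1, -, h3, -, -⟩ := exists_descJ G hG hGa G hG hGa ∅ (by simp)
  subst e1
  obtain ⟨C, hC⟩ := inf_of_height j hd G' h3 hG0
  obtain ⟨A, hA⟩ := few_small (k := k) C
  refine ⟨A + 1, fun B T hT hinf => ?_⟩
  have h4 : (T.erase 0).card ≤ A * (2 * B + 1) := by
    refine hA B (T.erase 0) ((Finset.erase_subset _ _).trans hT) fun y hy => ?_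
    obtain ⟨hy0, hyT⟩ := Finset.mem_erase.1 hy
    by_contra hcon
    push Not at hcon
    refine hinf y hyT ?_
    have h5 := hC (fun i => ((y i : ℤ) : k)) (fun h => hy0 (funext fun i => by
      have h6 : ((y i : ℤ) : k) = 0 := congrFun h i
      exact_mod_cast h6)) hcon
    have e : (fun i => j ((y i : ℤ) : k)) = fun i => ((y i : ℤ) : ℂ) := funext fun i =>
      map_intCast j _
    rwa [e] at h5
  have h5 : T.card ≤ (T.erase 0).card + 1 := by
    have := Finset.pred_card_le_card_erase (s := T) (a := (0 : Fin 2 → ℤ))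
    omega
  calc T.card ≤ A * (2 * B + 1) + 1 := h5.trans (by omega)
    _ ≤ (A + 1) * (2 * B + 1) := by ring_nf; omega

include hd hF hFa hF0 hG hGa hG0 in
/-- **Most integral points**, uniformly in the first point. -/
theorem densityJ3 (ε : ℝ) (hε : 0 < ε) : ∃ B0 : ℕ, ∀ B : ℕ, B0 ≤ B → ∀ x : Fin 2 → ℂ,
    (∀ i, IsAlgebraic ℚ (x i)) → Inf F x → ∀ T : Finset (Fin 2 → ℤ), T ⊆ box B →
      (∀ y ∈ T, ¬ R2 F G (jo F G) (Sum.elim x fun i => (y i : ℂ))) →
        (T.card : ℝ) ≤ ε * B ^ 2 := by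
  classical
  obtain ⟨N1, hN1⟩ := densityJ2 hd F hF hFa hF0 G hG hGa hG0 (ε / 2) (by positivity)
  obtain ⟨A, hA⟩ := few_preper hd G hG hGa hG0
  obtain ⟨N2, hN2⟩ := exists_nat_gt (6 * (A : ℝ) / ε)
  refine ⟨max N1 (max N2 1), fun B hB x hxa hx T hT hbad => ?_⟩
  have hB1 : N1 ≤ B := (le_max_left _ _).trans hB
  have hB2 : (N2 : ℝ) ≤ B := by
    exact_mod_cast ((le_max_left _ _).trans (le_max_right _ _)).trans hB
  have hB3 : (1 : ℝ) ≤ B := by
    exact_mod_cast ((le_max_right _ _).trans (le_max_right _ _)).trans hB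
  obtain ⟨hf, hc⟩ := hN1 B hB1 x hxa hx
  have h1 : ((T.filter fun y => Inf G fun i => (y i : ℂ)).card : ℝ) ≤ ε / 2 * B ^ 2 := by
    refine le_trans ?_ hc
    have h6 : ((T.filter fun y => Inf G fun i => (y i : ℂ) : Finset (Fin 2 → ℤ)) :
        Set (Fin 2 → ℤ)).ncard ≤ {y : Fin 2 → ℤ | (∀ i, |y i| ≤ B) ∧
          Inf G (fun i => (y i : ℂ)) ∧
          ¬ R2 F G (jo F G) (Sum.elim x fun i => (y i : ℂ))}.ncard :=
      Set.ncard_le_ncard (fun y hy => by
        obtain ⟨h1, h2⟩ := Finset.mem_filter.1 (Finset.mem_coe.1 hy)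
        exact ⟨mem_box.1 (hT h1), h2, hbad y h1⟩) hf
    rw [Set.ncard_coe_finset] at h6
    exact_mod_cast h6
  have h2 : ((T.filter fun y => ¬ Inf G fun i => (y i : ℂ)).card : ℝ) ≤ ε / 2 * B ^ 2 := by
    have h3 := hA B (T.filter fun y => ¬ Inf G fun i => (y i : ℂ))
      ((Finset.filter_subset _ _).trans hT) fun y hy => (Finset.mem_filter.1 hy).2
    have h4 : ((T.filter fun y => ¬ Inf G fun i => (y i : ℂ)).card : ℝ) ≤ A * (2 * B + 1) := by
      exact_mod_cast h3
    refine h4.trans ?_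
    have h5 : 6 * (A : ℝ) < B * ε := by
      have := hN2.trans_le hB2
      rwa [div_lt_iff₀ hε] at this
    have hA0 : (0 : ℝ) ≤ A := Nat.cast_nonneg A
    nlinarith [mul_nonneg hA0 (by linarith : (0 : ℝ) ≤ B - 1)]
  have h3 := Finset.card_filter_add_card_filter_not (s := T) (fun y => Inf G fun i => (y i : ℂ))
  have h4 : (T.card : ℝ) = ((T.filter fun y => Inf G fun i => (y i : ℂ)).card : ℝ) +
      ((T.filter fun y => ¬ Inf G fun i => (y i : ℂ)).card : ℝ) := by
    exact_mod_cast h3.symm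
  rw [h4]
  linarith

include hd hF hFa hF0 hG hGa hG0 in
/-- **Most integral points of the space.** -/
theorem densityJ4 (ε : ℝ) (hε : 0 < ε) : ∃ B0 : ℕ, ∀ B : ℕ, B0 ≤ B →
    ∀ T : Finset ((Fin 2 → ℤ) × (Fin 2 → ℤ)), T ⊆ box B ×ˢ box B →
      (∀ p ∈ T, ¬ R2 F G (jo F G) (Sum.elim (fun i => (p.1 i : ℂ)) fun i => (p.2 i : ℂ))) →
        (T.card : ℝ) ≤ ε * B ^ 4 := by
  classical
  obtain ⟨N1, hN1⟩ := densityJ3 hd F hF hFa hF0 G hG hGa hG0 (ε / 18) (by positivity)
  obtain ⟨A, hA⟩ := few_preper hd F hF hFa hF0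
  obtain ⟨N2, hN2⟩ := exists_nat_gt (54 * (A : ℝ) / ε)
  refine ⟨max N1 (max N2 1), fun B hB T hT hbad => ?_⟩
  have hB1 : N1 ≤ B := (le_max_left _ _).trans hB
  have hB2 : (N2 : ℝ) ≤ B := by
    exact_mod_cast ((le_max_left _ _).trans (le_max_right _ _)).trans hB
  have hB3 : (1 : ℝ) ≤ B := by
    exact_mod_cast ((le_max_right _ _).trans (le_max_right _ _)).trans hB
  have hcb : ((box B).card : ℝ) ≤ 9 * B ^ 2 := by
    rw [card_box]
    push_cast
    nlinarith
  -- the points whose first coordinate has an infinite orbit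
  have h1 : ((T.filter fun p => Inf F fun i => (p.1 i : ℂ)).card : ℝ) ≤ ε / 2 * B ^ 4 := by
    have h2 : (T.filter fun p => Inf F fun i => (p.1 i : ℂ)).card ≤
        ∑ x ∈ box B, ((T.filter fun p => Inf F fun i => (p.1 i : ℂ)).filter fun p =>
          p.1 = x).card := by
      rw [← Finset.card_eq_sum_card_fiberwise]
      intro p hp
      have hp1 := (Finset.mem_filter.1 (Finset.mem_coe.1 hp)).1
      exact (Finset.mem_product.1 (hT hp1)).1
    have h3 : ∀ x ∈ box B, (((T.filter fun p => Inf F fun i => (p.1 i : ℂ)).filter fun p =>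
          p.1 = x).card : ℝ) ≤ ε / 18 * B ^ 2 := by
      intro x _
      set U := (T.filter fun p => Inf F fun i => (p.1 i : ℂ)).filter fun p => p.1 = x with hU
      have hmem : ∀ p ∈ U, p ∈ T ∧ (Inf F fun i => (p.1 i : ℂ)) ∧ p.1 = x := by
        intro p hp
        obtain ⟨h4, h5⟩ := Finset.mem_filter.1 hp
        obtain ⟨h6, h7⟩ := Finset.mem_filter.1 h4
        exact ⟨h6, h7, h5⟩
      by_cases hx : Inf F fun i => (x i : ℂ)
      · have h4 : U.card = (U.image Prod.snd).card := by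
          rw [Finset.card_image_of_injOn]
          intro p hp q hq he
          exact Prod.ext (((hmem p hp).2.2).trans ((hmem q hq).2.2).symm) he
        rw [h4]
        refine hN1 B hB1 (fun i => (x i : ℂ)) (fun i => isAlgebraic_int (x i)) hx
          (U.image Prod.snd) ?_ ?_
        · intro y hy
          obtain ⟨p, hp, rfl⟩ := Finset.mem_image.1 hy
          exact (Finset.mem_product.1 (hT (hmem p hp).1)).2
        · intro y hy
          obtain ⟨p, hp, rfl⟩ := Finset.mem_image.1 hy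
          have := hbad p (hmem p hp).1
          rwa [(hmem p hp).2.2] at this
      · have h4 : U = ∅ := Finset.eq_empty_of_forall_notMem fun p hp => by
          have h5 := (hmem p hp).2.1
          rw [(hmem p hp).2.2] at h5
          exact hx h5
        rw [h4, Finset.card_empty]
        push_cast
        positivity
    calc ((T.filter fun p => Inf F fun i => (p.1 i : ℂ)).card : ℝ) ≤
          ∑ x ∈ box B, (((T.filter fun p => Inf F fun i => (p.1 i : ℂ)).filter fun p =>
            p.1 = x).card : ℝ) := by exact_mod_cast h2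
      _ ≤ ∑ x ∈ box B, ε / 18 * (B : ℝ) ^ 2 := Finset.sum_le_sum h3
      _ = (box B).card * (ε / 18 * B ^ 2) := by rw [Finset.sum_const, nsmul_eq_mul]
      _ ≤ 9 * B ^ 2 * (ε / 18 * B ^ 2) := by gcongr
      _ = _ := by ring
  have h2 : ((T.filter fun p => ¬ Inf F fun i => (p.1 i : ℂ)).card : ℝ) ≤ ε / 2 * B ^ 4 := by
    have h3 : (T.filter fun p => ¬ Inf F fun i => (p.1 i : ℂ)) ⊆
        ((box B).filter fun x => ¬ Inf F fun i => (x i : ℂ)) ×ˢ box B := by
      intro p hp
      obtain ⟨h4, h5⟩ := Finset.mem_filter.1 hp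
      obtain ⟨h6, h7⟩ := Finset.mem_product.1 (hT h4)
      exact Finset.mem_product.2 ⟨Finset.mem_filter.2 ⟨h6, h5⟩, h7⟩
    have h4 := Finset.card_le_card h3
    rw [Finset.card_product] at h4
    have h5 := hA B ((box B).filter fun x => ¬ Inf F fun i => (x i : ℂ))
      (Finset.filter_subset _ _) fun y hy => (Finset.mem_filter.1 hy).2
    have h6 : ((T.filter fun p => ¬ Inf F fun i => (p.1 i : ℂ)).card : ℝ) ≤
        (A * (2 * B + 1)) * (9 * B ^ 2) := by
      calc ((T.filter fun p => ¬ Inf F fun i => (p.1 i : ℂ)).card : ℝ) ≤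
            (((box B).filter fun x => ¬ Inf F fun i => (x i : ℂ)).card : ℝ) * (box B).card := by
            exact_mod_cast h4
        _ ≤ (A * (2 * B + 1)) * (9 * B ^ 2) := by
            refine mul_le_mul ?_ hcb (by positivity) (by positivity)
            exact_mod_cast h5
    refine h6.trans ?_
    have h7 : 54 * (A : ℝ) < B * ε := by
      have := hN2.trans_le hB2
      rwa [div_lt_iff₀ hε] at this
    have hA0 : (0 : ℝ) ≤ A := Nat.cast_nonneg A
    have h8 : (A : ℝ) * (2 * B + 1) * 9 ≤ ε / 2 * B ^ 2 := by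
      nlinarith [mul_nonneg hA0 (by linarith : (0 : ℝ) ≤ B - 1)]
    calc (A : ℝ) * (2 * B + 1) * (9 * B ^ 2) = (A : ℝ) * (2 * B + 1) * 9 * B ^ 2 := by ring
      _ ≤ ε / 2 * B ^ 2 * B ^ 2 := by gcongr
      _ = _ := by ring
  have h3 := Finset.card_filter_add_card_filter_not (s := T) (fun p => Inf F fun i => (p.1 i : ℂ))
  have h4 : (T.card : ℝ) = ((T.filter fun p => Inf F fun i => (p.1 i : ℂ)).card : ℝ) +
      ((T.filter fun p => ¬ Inf F fun i => (p.1 i : ℂ)).card : ℝ) := by
    exact_mod_cast h3.symm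
  rw [h4]
  linarith

/-- The count of a set of integral vectors. -/
theorem ncard_of {B : ℕ} {r : ℝ} (P : (Fin 2 → ℤ) → Prop)
    (h : ∀ T : Finset (Fin 2 → ℤ), T ⊆ box B → (∀ y ∈ T, P y) → (T.card : ℝ) ≤ r) :
    ({y : Fin 2 → ℤ | (∀ i, |y i| ≤ B) ∧ P y}.ncard : ℝ) ≤ r := by
  classical
  have e : {y : Fin 2 → ℤ | (∀ i, |y i| ≤ B) ∧ P y} = (((box B).filter P : Finset _) : Set _) := by
    ext y
    rw [Finset.mem_coe, Finset.mem_filter, mem_box, Set.mem_ofPred_eq]
  rw [e, Set.ncard_coe_finset]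
  exact h _ (Finset.filter_subset _ _) fun y hy => (Finset.mem_filter.1 hy).2

/-- The count of a set of integral vectors of length four. -/
theorem ncard_of4 {B : ℕ} {r : ℝ} (P : (Fin 2 → ℤ) × (Fin 2 → ℤ) → Prop)
    (h : ∀ T : Finset ((Fin 2 → ℤ) × (Fin 2 → ℤ)), T ⊆ box B ×ˢ box B → (∀ p ∈ T, P p) →
      (T.card : ℝ) ≤ r) :
    ({a : Fin 2 ⊕ Fin 2 → ℤ | (∀ i, |a i| ≤ B) ∧
      P (fun i => a (Sum.inl i), fun i => a (Sum.inr i))}.ncard : ℝ) ≤ r := by
  classical
  have e : {a : Fin 2 ⊕ Fin 2 → ℤ | (∀ i, |a i| ≤ B) ∧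
      P (fun i => a (Sum.inl i), fun i => a (Sum.inr i))} =
      (fun p : (Fin 2 → ℤ) × (Fin 2 → ℤ) => Sum.elim p.1 p.2) ''
        (((box B ×ˢ box B).filter P : Finset _) : Set _) := by
    ext a
    rw [Set.mem_ofPred_eq, Set.mem_image]
    constructor
    · rintro ⟨h1, h2⟩
      refine ⟨(fun i => a (Sum.inl i), fun i => a (Sum.inr i)), ?_, ?_⟩
      · rw [Finset.mem_coe, Finset.mem_filter, Finset.mem_product, mem_box, mem_box]
        exact ⟨⟨fun i => h1 _, fun i => h1 _⟩, h2⟩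
      · funext i
        rcases i with i | i
        · rfl
        · rfl
    · rintro ⟨q, hq, rfl⟩
      rw [Finset.mem_coe, Finset.mem_filter, Finset.mem_product, mem_box, mem_box] at hq
      refine ⟨?_, hq.2⟩
      rintro (i | i)
      · exact hq.1.1 i
      · exact hq.1.2 i
  rw [e, Set.ncard_image_of_injective _ (fun p q hpq => by
    refine Prod.ext (funext fun i => ?_) (funext fun i => ?_)
    · exact congrFun hpq (Sum.inl i)
    · exact congrFun hpq (Sum.inr i)), Set.ncard_coe_finset]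
  exact h _ (Finset.filter_subset _ _) fun y hy => (Finset.mem_filter.1 hy).2

end

end Pool.Agent.L5helper26.JN
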