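import Pool.Agent.L5helper26.JN.N

/-!
Joins of several rational functions.
-/

set_option autoImplicit false
set_option linter.unusedSectionVars false

open MvPolynomial Filter

namespace Pool.Agent.L5helper26.JN

open Pool.Agent.W180.OP (nrm le_nrm nrm_pos nrm_nonneg exists_nrm nrm_le)
open Pool.Agent.L5helper26.RO

section

variable {r : ℕ}

/-- The join of several pairs of binary forms. -/
noncomputable def joA (F : Fin r → Fin 2 → MvPolynomial (Fin 2) ℂ) :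
    Fin r × Fin 2 → MvPolynomial (Fin r × Fin 2) ℂ :=
  fun p => rename (fun l => (p.1, l)) (F p.1 p.2)

theorem cm_joA (F : Fin r → Fin 2 → MvPolynomial (Fin 2) ℂ) (a : Fin r × Fin 2 → ℂ) :
    cm (joA F) a = fun p => sp (F p.1) (fun l => a (p.1, l)) p.2 := by
  funext p
  change eval a (rename _ (F p.1 p.2)) = eval _ (F p.1 p.2)
  rw [eval_rename]
  rfl

theorem cm_joA_iter (F : Fin r → Fin 2 → MvPolynomial (Fin 2) ℂ) (a : Fin r × Fin 2 → ℂ) (n : ℕ) :
    (cm (joA F))^[n] a = fun p => (sp (F p.1))^[n] (fun l => a (p.1, l)) p.2 := by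
  induction n with
  | zero => rfl
  | succ n ih =>
    rw [Function.iterate_succ_apply', ih, cm_joA]
    funext p
    rw [Function.iterate_succ_apply']

/-- The vector of the `i`-th line. -/
def lv (i : Fin r) (p : Fin 2 → ℂ) : Fin r × Fin 2 → ℂ := fun q => if q.1 = i then p q.2 else 0

/-- The closed set contains none of the lines and none of the exceptional points on them. -/
def AvA (F : Fin r → Fin 2 → MvPolynomial (Fin 2) ℂ)
    (S : Set (MvPolynomial (Fin r × Fin 2) ℂ)) : Prop :=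
  ∀ i, (∃ g ∈ S, ∃ p : Fin 2 → ℂ, eval (lv i p) g ≠ 0) ∧
    ∀ e : Fin 2 → ℂ, e ≠ 0 → ¬ NE (F i) e → ∃ g ∈ S, eval (lv i e) g ≠ 0

/-- Finitely many returns. -/
def RA (F : Fin r → Fin 2 → MvPolynomial (Fin 2) ℂ) (a : Fin r × Fin 2 → ℂ) : Prop :=
  ∀ S : Set (MvPolynomial (Fin r × Fin 2) ℂ), (∀ g ∈ S, ∃ e : ℕ, g.IsHomogeneous e) →
    AvA F S → {n : ℕ | ∀ g ∈ S, eval ((cm (joA F))^[n] a) g = 0}.Finite

/-- The other coordinates. -/
abbrev Oth (i : Fin r) : Type := {p : Fin r × Fin 2 // p.1 ≠ i}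

noncomputable def sg (i : Fin r) : Oth i ≃ Fin (Fintype.card (Oth i)) := Fintype.equivFin _

noncomputable def ee (i : Fin r) (p : Fin r × Fin 2) : Fin 2 ⊕ Fin (Fintype.card (Oth i)) :=
  if h : p.1 = i then Sum.inl p.2 else Sum.inr (sg i ⟨p, h⟩)

noncomputable def er (i : Fin r) : Fin 2 ⊕ Fin (Fintype.card (Oth i)) → Fin r × Fin 2 :=
  Sum.elim (fun l => (i, l)) fun q => ((sg i).symm q).1

theorem er_ee (i : Fin r) (p : Fin r × Fin 2) : er i (ee i p) = p := by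
  by_cases h : p.1 = i
  · rw [ee, dif_pos h]
    change (i, p.2) = p
    rw [← h]
  · rw [ee, dif_neg h]
    change ((sg i).symm (sg i ⟨p, h⟩)).1 = p
    rw [Equiv.symm_apply_apply]

/-- The join of the other ones. -/
noncomputable def ps (F : Fin r → Fin 2 → MvPolynomial (Fin 2) ℂ) (i : Fin r) :
    Fin (Fintype.card (Oth i)) → MvPolynomial (Fin (Fintype.card (Oth i))) ℂ := fun q =>
  rename (fun l => sg i ⟨(((sg i).symm q).1.1, l), ((sg i).symm q).2⟩)
    (F ((sg i).symm q).1.1 ((sg i).symm q).1.2)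

theorem cm_ps (F : Fin r → Fin 2 → MvPolynomial (Fin 2) ℂ) (i : Fin r) (a : Fin r × Fin 2 → ℂ) :
    cm (jo (F i) (ps F i)) (a ∘ er i) = (cm (joA F) a) ∘ er i := by
  rw [cm_jo, cm_joA]
  funext u
  rcases u with l | q
  · rfl
  · change eval (fun q => a (er i (Sum.inr q))) (rename _ _) = eval _ _
    rw [eval_rename]
    congr 2
    funext l
    change a ((sg i).symm (sg i _)).1 = _
    rw [Equiv.symm_apply_apply]
    rfl

theorem cm_ps_iter (F : Fin r → Fin 2 → MvPolynomial (Fin 2) ℂ) (i : Fin r)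
    (a : Fin r × Fin 2 → ℂ) (n : ℕ) :
    (cm (jo (F i) (ps F i)))^[n] (a ∘ er i) = ((cm (joA F))^[n] a) ∘ er i := by
  induction n with
  | zero => rfl
  | succ n ih => rw [Function.iterate_succ_apply', ih, cm_ps, Function.iterate_succ_apply']

theorem ra_of_r1 (F : Fin r → Fin 2 → MvPolynomial (Fin 2) ℂ) (i : Fin r)
    (a : Fin r × Fin 2 → ℂ) (h : R1 (F i) (jo (F i) (ps F i)) (a ∘ er i)) : RA F a := by
  intro S hS hav
  have hl : ∀ (p : Fin 2 → ℂ) (g : MvPolynomial (Fin r × Fin 2) ℂ),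
      eval (Sum.elim p 0) (rename (ee i) g) = eval (lv i p) g := by
    intro p g
    rw [eval_rename]
    congr 2
    funext q
    by_cases hq : q.1 = i
    · rw [Function.comp_apply, ee, dif_pos hq, lv, if_pos hq]
      rfl
    · rw [Function.comp_apply, ee, dif_neg hq, lv, if_neg hq]
      rfl
  refine (h (rename (ee i) '' S) ?_ ⟨?_, fun e he hne => ?_⟩).subset fun n hn => ?_
  · rintro _ ⟨g, hg, rfl⟩
    obtain ⟨e, he⟩ := hS g hg
    exact ⟨e, he.rename_isHomogeneous⟩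
  · obtain ⟨g, hg, p, hp⟩ := (hav i).1
    exact ⟨_, ⟨g, hg, rfl⟩, p, by rw [hl]; exact hp⟩
  · obtain ⟨g, hg, hp⟩ := (hav i).2 e he hne
    exact ⟨_, ⟨g, hg, rfl⟩, by rw [hl]; exact hp⟩
  · rintro _ ⟨g, hg, rfl⟩
    have h1 := hn g hg
    rw [cm_ps_iter, eval_rename]
    have e : (((cm (joA F))^[n] a) ∘ er i) ∘ ee i = (cm (joA F))^[n] a := by
      funext q
      rw [Function.comp_apply, Function.comp_apply, er_ee]
    rw [e]
    exact h1

end

/-- The orbit of the first vector dominates. -/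
def Dom (F G : Fin 2 → MvPolynomial (Fin 2) ℂ) (x y : Fin 2 → ℂ) : Prop :=
  ∀ B : ℝ, ∀ᶠ n in atTop, B * nrm f0 ((sp G)^[n] y) < nrm f0 ((sp F)^[n] x)

/-- The orbits are comparable. -/
def Comp (C : ℝ) (F G : Fin 2 → MvPolynomial (Fin 2) ℂ) (x y : Fin 2 → ℂ) : Prop :=
  ∀ n, nrm f0 ((sp F)^[n] x) ≤ C * nrm f0 ((sp G)^[n] y) ∧
    nrm f0 ((sp G)^[n] y) ≤ C * nrm f0 ((sp F)^[n] x)

theorem Dom.trans {F G H : Fin 2 → MvPolynomial (Fin 2) ℂ} {x y z : Fin 2 → ℂ}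
    (h1 : Dom F G x y) (h2 : Dom G H y z) : Dom F H x z := by
  intro B
  filter_upwards [h1 1, h2 B] with n hn1 hn2
  rw [one_mul] at hn1
  exact hn2.trans hn1

section

variable {d : ℕ} (hd : 2 ≤ d)

include hd in
theorem dom_or (F : Fin 2 → MvPolynomial (Fin 2) ℂ)
    (hF : ∀ i, (F i).IsHomogeneous d)
    (hF0 : ∀ x : Fin 2 → ℂ, (∀ i, eval x (F i) = 0) → x = 0)
    (G : Fin 2 → MvPolynomial (Fin 2) ℂ)
    (hG : ∀ i, (G i).IsHomogeneous d)
    (hG0 : ∀ x : Fin 2 → ℂ, (∀ i, eval x (G i) = 0) → x = 0) :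
    ∃ C : ℝ, ∀ C' : ℝ, C ≤ C' → ∀ x y : Fin 2 → ℂ, x ≠ 0 → y ≠ 0 →
      (∃ n, C' * nrm f0 ((sp G)^[n] y) < nrm f0 ((sp F)^[n] x)) → Dom F G x y := by
  obtain ⟨κ, hκ, h⟩ := exists_const hd F hF (up_zero F hF0) G hG f0
  refine ⟨Real.exp (κ + 1), fun C' hC' x y hx hy => ?_⟩
  rintro ⟨n0, hn0⟩ B
  have hn0' : Real.exp (κ + 1) * nrm f0 ((sp G)^[n0] y) ≤ nrm f0 ((sp F)^[n0] x) :=
    (mul_le_mul_of_nonneg_right hC' (nrm_nonneg _ _)).trans hn0.le
  obtain ⟨c, hc, hcn⟩ := ratio_orbit hd F G f0 κ hκ h (fun n => (sp F)^[n] x)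
    (fun n => (spm G)^[n] y) (fun n => sp_iter_ne F hF0 hx n)
    (fun n => Function.iterate_succ_apply' _ _ _) (fun n => Function.iterate_succ_apply' _ _ _)
    n0 1 one_pos hn0'
  filter_upwards [eventually_ge_atTop (max n0 ⌈|B| / c⌉₊)] with n hn
  have h1 := hcn n ((le_max_left _ _).trans hn)
  have h2 : |B| ≤ c * d ^ n := by
    have h3 : |B| / c ≤ n := (Nat.le_ceil _).trans (by exact_mod_cast (le_max_right _ _).trans hn)
    have h4 : (n : ℝ) ≤ (d : ℝ) ^ n := by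
      exact_mod_cast (Nat.lt_pow_self (by omega : 1 < d)).le
    rw [div_le_iff₀ hc] at h3
    nlinarith
  have h5 : |B| < Real.exp (c * d ^ n) := lt_of_le_of_lt h2 (by
    have := Real.add_one_le_exp (c * (d : ℝ) ^ n)
    linarith)
  have hyn : 0 < nrm f0 ((sp G)^[n] y) := nrm_pos f0 (sp_iter_ne G hG0 hy n)
  calc B * nrm f0 ((sp G)^[n] y) ≤ |B| * nrm f0 ((sp G)^[n] y) :=
        mul_le_mul_of_nonneg_right (le_abs_self B) hyn.le
    _ < Real.exp (c * d ^ n) * nrm f0 ((sp G)^[n] y) := mul_lt_mul_of_pos_right h5 hyn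
    _ ≤ _ := h1

include hd in
/-- The number of the integral vectors with an orbit comparable to a given one. -/
theorem comp_count (F G : Fin 2 → MvPolynomial (Fin 2) ℂ)
    (hG : ∀ i, (G i).IsHomogeneous d)
    (hG0 : ∀ x : Fin 2 → ℂ, (∀ i, eval x (G i) = 0) → x = 0) (C : ℝ) (hC : 0 < C)
    (ε : ℝ) (hε : 0 < ε) : ∀ᶠ B : ℕ in atTop, ∀ x : Fin 2 → ℂ,
      ∀ T : Finset (Fin 2 → ℤ), T ⊆ box B → (∀ y ∈ T, Comp C F G x fun i => (y i : ℂ)) →
        (T.card : ℝ) ≤ ε * B ^ 2 := by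
  classical
  obtain ⟨c, hc, hlow⟩ := low hd G hG hG0
  obtain ⟨K, hK⟩ := exists_nat_gt (98 / ε)
  have hK0 : (0 : ℝ) < K := lt_trans (by positivity) hK
  obtain ⟨Y, hY, hsep⟩ := separation hd G hG hG0 f0 f0_real c hc hlow (C * C) (1 + 1 / (2 * K))
    (by have : (0 : ℝ) < 1 / (2 * K) := by positivity
        linarith)
  obtain ⟨Y', hY'⟩ := exists_nat_gt Y
  obtain ⟨B1, hB1⟩ := exists_nat_gt ((2 * (Y' : ℝ) + 1) ^ 2 * 2 / ε)
  filter_upwards [eventually_ge_atTop (max B1 1)] with B hB x T0 hT0 hcomp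
  have hBB1 : (B1 : ℝ) ≤ B := by exact_mod_cast (le_max_left _ _).trans hB
  have hBone : (1 : ℝ) ≤ B := by exact_mod_cast (le_max_right _ _).trans hB
  let T : Finset (Fin 2 → ℤ) := T0.filter fun y => Y ≤ nrm f0 fun i => (y i : ℂ)
  have hST : T0 ⊆ T ∪ box Y' := by
    intro y hy
    rw [Finset.mem_union]
    by_cases hyY : Y ≤ nrm f0 fun i => (y i : ℂ)
    · exact Or.inl (Finset.mem_filter.2 ⟨hy, hyY⟩)
    · right
      push Not at hyY
      rw [mem_box]
      intro i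
      have h4 := (le_nrm f0 (fun i => (y i : ℂ)) i).trans hyY.le
      rw [f0_apply, Complex.norm_intCast] at h4
      have h5 : |(y i : ℝ)| ≤ (Y' : ℝ) := h4.trans hY'.le
      exact_mod_cast h5
  have hcard : T0.card ≤ T.card + (box Y').card :=
    (Finset.card_le_card hST).trans (Finset.card_union_le _ _)
  have hKT : K * T.card ≤ (2 * (2 * B + 1) + 1) ^ 2 := by
    refine count_abstract K B (by exact_mod_cast hK0) T ((Finset.filter_subset _ _).trans hT0) ?_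
    intro ρ z y w hz hy hρ hw he
    obtain ⟨hz1, hz3⟩ := Finset.mem_filter.1 hz
    obtain ⟨hy1, -⟩ := Finset.mem_filter.1 hy
    obtain ⟨n, hn⟩ := hsep ρ (fun i => (z i : ℂ)) (fun i => ((w i : ℝ) : ℂ))
      (fun i => (y i : ℂ)) hρ hz3 (nrm_le zero_le_one fun i => by
        rw [f0_real]
        exact hw i) (by
      funext i
      have h1 := congrArg (fun t : ℝ => (t : ℂ)) (he i)
      simp only [Complex.ofReal_add, Complex.ofReal_mul, Complex.ofReal_intCast] at h1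
      exact h1)
    have h1 := (hcomp y hy1 n).2
    have h2 := (hcomp z hz1 n).1
    have h3 : nrm f0 ((sp G)^[n] fun i => (y i : ℂ)) ≤
        C * C * nrm f0 ((sp G)^[n] fun i => (z i : ℂ)) := by
      calc _ ≤ C * nrm f0 ((sp F)^[n] x) := h1
        _ ≤ C * (C * nrm f0 ((sp G)^[n] fun i => (z i : ℂ))) := by gcongr
        _ = _ := by ring
    linarith
  have hKT' : (K : ℝ) * T.card ≤ (4 * B + 3) ^ 2 := by
    have h1 : ((K * T.card : ℕ) : ℝ) ≤ (((2 * (2 * B + 1) + 1) ^ 2 : ℕ) : ℝ) := by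
      exact_mod_cast hKT
    push_cast at h1
    refine h1.trans (le_of_eq ?_)
    ring
  have h49 : (K : ℝ) * T.card ≤ 49 * B ^ 2 := by
    refine hKT'.trans ?_
    have h1 : (4 * (B : ℝ) + 3) ≤ 7 * B := by linarith
    calc (4 * (B : ℝ) + 3) ^ 2 ≤ (7 * B) ^ 2 := by gcongr
      _ = _ := by ring
  have hT2 : (T.card : ℝ) ≤ ε / 2 * B ^ 2 := by
    have h1 : 98 < K * ε := by rwa [div_lt_iff₀ hε] at hK
    have h2 : (K : ℝ) * T.card ≤ K * (ε / 2 * B ^ 2) := by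
      refine h49.trans ?_
      nlinarith [sq_nonneg (B : ℝ)]
    exact le_of_mul_le_mul_left h2 hK0
  have hb2 : ((box Y').card : ℝ) ≤ ε / 2 * B ^ 2 := by
    rw [card_box]
    push_cast
    have h1 : (2 * (Y' : ℝ) + 1) ^ 2 * 2 < B * ε := by
      have := hB1.trans_le hBB1
      rwa [div_lt_iff₀ hε] at this
    nlinarith [mul_pos hε (lt_of_lt_of_le one_pos hBone)]
  calc (T0.card : ℝ) ≤ ((T.card + (box Y').card : ℕ) : ℝ) := by exact_mod_cast hcard
    _ = (T.card : ℝ) + (box Y').card := by push_cast; ring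
    _ ≤ _ := by linarith

end

end Pool.Agent.L5helper26.JN
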