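import Pool.Agent.L5helper26.JN.O

/-!
Joins of several rational functions: most integral points.
-/

set_option autoImplicit false
set_option linter.unusedSectionVars false

open MvPolynomial Filter

namespace Pool.Agent.L5helper26.JN

open Pool.Agent.W180.OP (nrm le_nrm nrm_pos nrm_nonneg exists_nrm nrm_le)
open Pool.Agent.L5helper26.RO

/-- A finite set with a total transitive relation has a greatest element. -/
theorem exists_top {ι : Type} (R : ι → ι → Prop) (htr : ∀ i j k, R i j → R j k → R i k)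
    (htot : ∀ i j, i ≠ j → R i j ∨ R j i) (s : Finset ι) (hs : s.Nonempty) :
    ∃ i ∈ s, ∀ j ∈ s, j ≠ i → R i j := by
  classical
  induction s using Finset.induction_on with
  | empty => exact absurd hs Finset.not_nonempty_empty
  | insert a s ha ih =>
    rcases s.eq_empty_or_nonempty with rfl | hs'
    · exact ⟨a, Finset.mem_insert_self _ _, fun j hj hja => by
        rcases Finset.mem_insert.1 hj with h | h
        · exact absurd h hja
        · exact absurd h (Finset.notMem_empty _)⟩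
    · obtain ⟨i, hi, hmax⟩ := ih hs'
      have hai : a ≠ i := fun h => ha (h ▸ hi)
      rcases htot a i hai with h | h
      · refine ⟨a, Finset.mem_insert_self _ _, fun j hj hja => ?_⟩
        rcases Finset.mem_insert.1 hj with h1 | h1
        · exact absurd h1 hja
        · by_cases hji : j = i
          · rw [hji]; exact h
          · exact htr _ _ _ h (hmax j h1 hji)
      · refine ⟨i, Finset.mem_insert_of_mem hi, fun j hj hji => ?_⟩
        rcases Finset.mem_insert.1 hj with h1 | h1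
        · rw [h1]; exact h
        · exact hmax j h1 hji

section

variable {r d : ℕ} (hr : 0 < r) (hd : 2 ≤ d) (F : Fin r → Fin 2 → MvPolynomial (Fin 2) ℂ)
  (hF : ∀ s i, (F s i).IsHomogeneous d) (hFa : ∀ s i κ, IsAlgebraic ℚ ((F s i).coeff κ))
  (hF0 : ∀ s, ∀ x : Fin 2 → ℂ, (∀ i, eval x (F s i) = 0) → x = 0)

/-- A form and a renaming. -/
theorem coeff_rename_alg {σ τ : Type} (f : σ → τ) (hf : Function.Injective f)
    (p : MvPolynomial σ ℂ) (hp : ∀ κ, IsAlgebraic ℚ (p.coeff κ)) (κ : τ →₀ ℕ) :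
    IsAlgebraic ℚ ((rename f p).coeff κ) := by
  by_cases h : (rename f p).coeff κ = 0
  · rw [h]
    exact isAlgebraic_zero
  · obtain ⟨u, hu, -⟩ := coeff_rename_ne_zero f p κ h
    rw [← hu, coeff_rename_mapDomain f hf]
    exact hp u

include hr hd hF hFa hF0 in
theorem bad_cases : ∃ C : ℝ, 0 < C ∧ ∀ a : Fin r × Fin 2 → ℂ, (∀ p, IsAlgebraic ℚ (a p)) →
    ¬ RA F a → (∃ i, ¬ Inf (F i) fun l => a (i, l)) ∨
      ∃ i j, i ≠ j ∧ Comp C (F i) (F j) (fun l => a (i, l)) fun l => a (j, l) := by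
  classical
  choose C hC using fun i j => dom_or hd (F i) (hF i) (hF0 i) (F j) (hF j) (hF0 j)
  set C0 : ℝ := 1 + ∑ i, ∑ j, |C i j| with hC0
  have hCle : ∀ i j, C i j ≤ C0 := by
    intro i j
    have h1 : |C i j| ≤ ∑ j, |C i j| :=
      Finset.single_le_sum (f := fun j => |C i j|) (fun _ _ => abs_nonneg _) (Finset.mem_univ j)
    have h2 : ∑ j, |C i j| ≤ ∑ i, ∑ j, |C i j| :=
      Finset.single_le_sum (f := fun i => ∑ j, |C i j|)
        (fun _ _ => Finset.sum_nonneg fun _ _ => abs_nonneg _) (Finset.mem_univ i)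
    have h3 := le_abs_self (C i j)
    linarith
  have hC0pos : 0 < C0 := by
    have : 0 ≤ ∑ i, ∑ j, |C i j| :=
      Finset.sum_nonneg fun _ _ => Finset.sum_nonneg fun _ _ => abs_nonneg _
    linarith
  refine ⟨C0, hC0pos, fun a ha hbad => ?_⟩
  by_contra hcon
  push Not at hcon
  obtain ⟨hinf, hncomp⟩ := hcon
  have hne : ∀ i, (fun l => a (i, l)) ≠ 0 := fun i => inf_ne_zero (F i) hd (hF i) (hinf i)
  have htot : ∀ i j, i ≠ j → Dom (F i) (F j) (fun l => a (i, l)) (fun l => a (j, l)) ∨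
      Dom (F j) (F i) (fun l => a (j, l)) fun l => a (i, l) := by
    intro i j hij
    have h1 := hncomp i j hij
    unfold Comp at h1
    push Not at h1
    obtain ⟨n, hn⟩ := h1
    by_cases h2 : nrm f0 ((sp (F i))^[n] fun l => a (i, l)) ≤
        C0 * nrm f0 ((sp (F j))^[n] fun l => a (j, l))
    · exact Or.inr (hC j i C0 (hCle j i) _ _ (hne j) (hne i) ⟨n, hn h2⟩)
    · push Not at h2
      exact Or.inl (hC i j C0 (hCle i j) _ _ (hne i) (hne j) ⟨n, h2⟩)
  obtain ⟨i, -, hi⟩ := exists_top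
    (fun i j : Fin r => Dom (F i) (F j) (fun l => a (i, l)) fun l => a (j, l))
    (fun i j k h1 h2 => h1.trans h2) htot Finset.univ ⟨⟨0, hr⟩, Finset.mem_univ _⟩
  apply hbad
  refine ra_of_r1 F i a ?_
  refine unboundedJ2 (F i) (hF i) (hFa i) (hF0 i) (ps F i) (fun q => ?_) (fun q κ => ?_) hd
    (a ∘ er i) (fun u => ha _) (hinf i) f0 (Or.inr ⟨RingHom.id ℂ, fun z => rfl⟩) fun B => ?_
  · exact (hF _ _).rename_isHomogeneous
  · refine coeff_rename_alg _ ?_ _ (hFa _ _) κ
    intro l l' h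
    have h1 := (sg i).injective h
    have h2 := congrArg (fun q : Oth i => q.1.2) h1
    exact h2
  · have hev : ∀ᶠ n in atTop, ∀ j : Fin r, j ≠ i →
        |B| * nrm f0 ((sp (F j))^[n] fun l => a (j, l)) <
          nrm f0 ((sp (F i))^[n] fun l => a (i, l)) := by
      rw [eventually_all]
      intro j
      by_cases hj : j = i
      · exact Eventually.of_forall fun n h => absurd hj h
      · exact (hi j (Finset.mem_univ _) hj |B|).mono fun n hn _ => hn
    obtain ⟨n, hn⟩ := hev.exists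
    obtain ⟨l0, hl0⟩ := exists_nrm f0 (by norm_num : 0 < 2) ((sp (F i))^[n] fun l => a (i, l))
    refine ⟨n, l0, fun q => ?_⟩
    rw [cm_ps_iter, cm_joA_iter]
    change B * f0 ((sp (F ((sg i).symm q).1.1))^[n] (fun l => a (((sg i).symm q).1.1, l))
      ((sg i).symm q).1.2) < f0 ((sp (F i))^[n] (fun l => a (i, l)) l0)
    rw [hl0]
    refine lt_of_le_of_lt ?_ (hn _ ((sg i).symm q).2)
    exact mul_le_mul (le_abs_self B) (le_nrm f0 _ _) (f0.nonneg _) (abs_nonneg _)

end

/-- Counting fibre by fibre. -/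
theorem pi_count {r : ℕ} (B : ℕ) (c : ℝ) (hc : 0 ≤ c) (j : Fin r)
    (T : Finset (Fin r → Fin 2 → ℤ)) (hT : T ⊆ Fintype.piFinset fun _ => box B)
    (h : ∀ b : Fin r → Fin 2 → ℤ, ∀ U : Finset (Fin 2 → ℤ), U ⊆ box B →
      (∀ y ∈ U, Function.update b j y ∈ T) → (U.card : ℝ) ≤ c) :
    (T.card : ℝ) ≤ c * ((box B).card : ℝ) ^ (r - 1) := by
  classical
  let φ : (Fin r → Fin 2 → ℤ) → (Fin r → Fin 2 → ℤ) := fun a => Function.update a j 0
  let I : Finset (Fin r → Fin 2 → ℤ) :=
    Fintype.piFinset fun i => if i = j then {0} else box B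
  have hI : I.card = (box B).card ^ (r - 1) := by
    rw [Fintype.card_piFinset]
    rw [← Finset.mul_prod_erase Finset.univ _ (Finset.mem_univ j)]
    rw [if_pos rfl, Finset.card_singleton, one_mul]
    have h1 : ∀ i ∈ Finset.univ.erase j,
        (if i = j then ({0} : Finset (Fin 2 → ℤ)) else box B).card = (box B).card := fun i hi => by
      rw [if_neg (Finset.ne_of_mem_erase hi)]
    rw [Finset.prod_congr rfl h1, Finset.prod_const, Finset.card_erase_of_mem (Finset.mem_univ j),
      Finset.card_univ, Fintype.card_fin]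
  have hmap : Set.MapsTo φ (T : Set (Fin r → Fin 2 → ℤ)) (I : Set (Fin r → Fin 2 → ℤ)) := by
    intro a ha
    have ha' := hT ha
    rw [Fintype.mem_piFinset] at ha'
    rw [Finset.mem_coe, Fintype.mem_piFinset]
    intro i
    by_cases hi : i = j
    · subst hi
      rw [if_pos rfl, Finset.mem_singleton]
      exact Function.update_self _ _ _
    · rw [if_neg hi]
      change Function.update a j 0 i ∈ _
      rw [Function.update_of_ne hi]
      exact ha' i
  have h1 := Finset.card_eq_sum_card_fiberwise hmap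
  have h2 : ∀ b ∈ I, ((T.filter fun a => φ a = b).card : ℝ) ≤ c := by
    intro b _
    have h3 : (T.filter fun a => φ a = b).card =
        ((T.filter fun a => φ a = b).image fun a => a j).card := by
      rw [Finset.card_image_of_injOn]
      intro a ha a' ha' he
      obtain ⟨-, ha2⟩ := Finset.mem_filter.1 (Finset.mem_coe.1 ha)
      obtain ⟨-, ha2'⟩ := Finset.mem_filter.1 (Finset.mem_coe.1 ha')
      funext i
      by_cases hi : i = j
      · rw [hi]; exact he
      · have h4 := congrFun (ha2.trans ha2'.symm) i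
        change Function.update a j 0 i = Function.update a' j 0 i at h4
        rwa [Function.update_of_ne hi, Function.update_of_ne hi] at h4
    rw [h3]
    refine h b _ ?_ ?_
    · intro y hy
      obtain ⟨a, ha, rfl⟩ := Finset.mem_image.1 hy
      exact Fintype.mem_piFinset.1 (hT (Finset.mem_filter.1 ha).1) j
    · intro y hy
      obtain ⟨a, ha, rfl⟩ := Finset.mem_image.1 hy
      obtain ⟨ha1, ha2⟩ := Finset.mem_filter.1 ha
      have h5 : Function.update b j (a j) = a := by
        rw [← ha2]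
        change Function.update (Function.update a j 0) j (a j) = a
        rw [Function.update_idem, Function.update_eq_self]
      rw [h5]
      exact ha1
  calc (T.card : ℝ) = ∑ b ∈ I, ((T.filter fun a => φ a = b).card : ℝ) := by
        rw [h1]; push_cast; rfl
    _ ≤ ∑ _b ∈ I, c := Finset.sum_le_sum h2
    _ = I.card * c := by rw [Finset.sum_const, nsmul_eq_mul]
    _ = _ := by rw [hI]; push_cast; ring

section

variable {r d : ℕ} (hr : 0 < r) (hd : 2 ≤ d) (F : Fin r → Fin 2 → MvPolynomial (Fin 2) ℂ)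
  (hF : ∀ s i, (F s i).IsHomogeneous d) (hFa : ∀ s i κ, IsAlgebraic ℚ ((F s i).coeff κ))
  (hF0 : ∀ s, ∀ x : Fin 2 → ℂ, (∀ i, eval x (F s i) = 0) → x = 0)

include hr hd hF hFa hF0 in
/-- **Most integral points.** -/
theorem densityA (ε : ℝ) (hε : 0 < ε) : ∀ᶠ B : ℕ in atTop,
    ∀ T : Finset (Fin r → Fin 2 → ℤ), (T ⊆ Fintype.piFinset fun _ => box B) →
      (∀ a ∈ T, ¬ RA F fun p => ((a p.1 p.2 : ℤ) : ℂ)) → (T.card : ℝ) ≤ ε * B ^ (2 * r) := by
  classical
  obtain ⟨C, hC, hbad⟩ := bad_cases hr hd F hF hFa hF0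
  set ε' : ℝ := ε / ((r + r * r) * 9 ^ (r - 1)) with hε'
  have hrR : (0 : ℝ) < r := by exact_mod_cast hr
  have hε'0 : 0 < ε' := by positivity
  choose A hA using fun i => few_preper hd (F i) (hF i) (hFa i) (hF0 i)
  have h1 : ∀ᶠ B : ℕ in atTop, ∀ i : Fin r, (A i : ℝ) * (2 * B + 1) ≤ ε' * B ^ 2 := by
    rw [eventually_all]
    intro i
    obtain ⟨N, hN⟩ := exists_nat_gt (3 * (A i : ℝ) / ε')
    filter_upwards [eventually_ge_atTop (max N 1)] with B hB
    have hB1 : (N : ℝ) ≤ B := by exact_mod_cast (le_max_left _ _).trans hB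
    have hB2 : (1 : ℝ) ≤ B := by exact_mod_cast (le_max_right _ _).trans hB
    have h5 : 3 * (A i : ℝ) < B * ε' := by
      have := hN.trans_le hB1
      rwa [div_lt_iff₀ hε'0] at this
    have hA0 : (0 : ℝ) ≤ A i := Nat.cast_nonneg _
    nlinarith [mul_nonneg hA0 (by linarith : (0 : ℝ) ≤ B - 1)]
  have h2 : ∀ᶠ B : ℕ in atTop, ∀ i j : Fin r, ∀ x : Fin 2 → ℂ,
      ∀ T : Finset (Fin 2 → ℤ), T ⊆ box B →
        (∀ y ∈ T, Comp C (F i) (F j) x fun l => (y l : ℂ)) → (T.card : ℝ) ≤ ε' * B ^ 2 := by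
    rw [eventually_all]
    intro i
    rw [eventually_all]
    intro j
    exact comp_count hd (F i) (F j) (hF j) (hF0 j) C hC ε' hε'0
  filter_upwards [h1, h2, eventually_ge_atTop 1] with B hB1 hB2 hB3 T hT hTb
  have hBone : (1 : ℝ) ≤ B := by exact_mod_cast hB3
  have hcb : ((box B).card : ℝ) ≤ 9 * B ^ 2 := by
    rw [card_box]
    push_cast
    nlinarith
  have hc0 : 0 ≤ ε' * (B : ℝ) ^ 2 := by positivity
  set D : ℝ := ε' * B ^ 2 * ((box B).card : ℝ) ^ (r - 1) with hD
  -- the points with a coordinate of finite orbit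
  let T1 : Fin r → Finset (Fin r → Fin 2 → ℤ) := fun i =>
    T.filter fun a => ¬ Inf (F i) fun l => ((a i l : ℤ) : ℂ)
  have hT1 : ∀ i, ((T1 i).card : ℝ) ≤ D := by
    intro i
    refine pi_count B _ hc0 i (T1 i) ((Finset.filter_subset _ _).trans hT) fun b U hU hy => ?_
    refine le_trans ?_ (hB1 i)
    have h3 := hA i B U hU fun y hyU => by
      have h4 := (Finset.mem_filter.1 (hy y hyU)).2
      simp only [Function.update_self] at h4
      exact h4
    exact_mod_cast h3
  let T2 : Fin r × Fin r → Finset (Fin r → Fin 2 → ℤ) := fun q =>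
    T.filter fun a => q.1 ≠ q.2 ∧
      Comp C (F q.1) (F q.2) (fun l => ((a q.1 l : ℤ) : ℂ)) fun l => ((a q.2 l : ℤ) : ℂ)
  have hT2 : ∀ q, ((T2 q).card : ℝ) ≤ D := by
    rintro ⟨i, j⟩
    by_cases hij : i = j
    · have : T2 (i, j) = ∅ := by
        refine Finset.filter_eq_empty_iff.2 fun a _ h => ?_
        exact h.1 hij
      rw [this, Finset.card_empty, hD]
      push_cast
      positivity
    · refine pi_count B _ hc0 j (T2 (i, j)) ((Finset.filter_subset _ _).trans hT)
        fun b U hU hy => ?_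
      refine hB2 i j (fun l => ((b i l : ℤ) : ℂ)) U hU fun y hyU => ?_
      have h4 := (Finset.mem_filter.1 (hy y hyU)).2.2
      simp only [Function.update_self, Function.update_of_ne hij] at h4
      exact h4
  have hcov : T ⊆ (Finset.univ.biUnion T1) ∪ (Finset.univ.biUnion T2) := by
    intro a ha
    rw [Finset.mem_union, Finset.mem_biUnion, Finset.mem_biUnion]
    rcases hbad (fun p => ((a p.1 p.2 : ℤ) : ℂ)) (fun p => isAlgebraic_int _) (hTb a ha) with
      ⟨i, hi⟩ | ⟨i, j, hij, h⟩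
    · exact Or.inl ⟨i, Finset.mem_univ _, Finset.mem_filter.2 ⟨ha, hi⟩⟩
    · exact Or.inr ⟨(i, j), Finset.mem_univ _, Finset.mem_filter.2 ⟨ha, hij, h⟩⟩
  have hcard : (T.card : ℝ) ≤ ∑ i, ((T1 i).card : ℝ) + ∑ q, ((T2 q).card : ℝ) := by
    have h3 : T.card ≤ ∑ i, (T1 i).card + ∑ q, (T2 q).card :=
      (Finset.card_le_card hcov).trans ((Finset.card_union_le _ _).trans
        (add_le_add Finset.card_biUnion_le Finset.card_biUnion_le))
    exact_mod_cast h3
  have hs1 : ∑ i, ((T1 i).card : ℝ) ≤ r * D := by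
    calc ∑ i, ((T1 i).card : ℝ) ≤ ∑ _i : Fin r, D := Finset.sum_le_sum fun i _ => hT1 i
      _ = r * D := by rw [Finset.sum_const, Finset.card_univ, Fintype.card_fin, nsmul_eq_mul]
  have hs2 : ∑ q, ((T2 q).card : ℝ) ≤ r * r * D := by
    calc ∑ q, ((T2 q).card : ℝ) ≤ ∑ _q : Fin r × Fin r, D := Finset.sum_le_sum fun q _ => hT2 q
      _ = r * r * D := by
        rw [Finset.sum_const, Finset.card_univ, Fintype.card_prod, Fintype.card_fin, nsmul_eq_mul]
        push_cast
        ring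
  have hDle : D ≤ ε' * B ^ 2 * (9 * B ^ 2) ^ (r - 1) := by
    rw [hD]
    gcongr
  have hpow : (B : ℝ) ^ 2 * (9 * B ^ 2) ^ (r - 1) = 9 ^ (r - 1) * B ^ (2 * r) := by
    obtain ⟨m, rfl⟩ : ∃ m, r = m + 1 := ⟨r - 1, by omega⟩
    rw [Nat.add_sub_cancel, mul_pow, ← pow_mul]
    have : 2 * (m + 1) = 2 + 2 * m := by ring
    rw [this, pow_add]
    ring
  calc (T.card : ℝ) ≤ r * D + r * r * D := hcard.trans (add_le_add hs1 hs2)
    _ = (r + r * r) * D := by ring
    _ ≤ (r + r * r) * (ε' * B ^ 2 * (9 * B ^ 2) ^ (r - 1)) := by gcongr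
    _ = (r + r * r) * ε' * (B ^ 2 * (9 * B ^ 2) ^ (r - 1)) := by ring
    _ = (r + r * r) * ε' * (9 ^ (r - 1) * B ^ (2 * r)) := by rw [hpow]
    _ = ε * B ^ (2 * r) := by
        rw [hε']
        field_simp

end

/-- The count of a set of integral vectors. -/
theorem ncard_ofA {r B : ℕ} {c : ℝ} (P : (Fin r × Fin 2 → ℤ) → Prop)
    (h : ∀ T : Finset (Fin r → Fin 2 → ℤ), (T ⊆ Fintype.piFinset fun _ => box B) →
      (∀ a ∈ T, P fun p => a p.1 p.2) → (T.card : ℝ) ≤ c) :
    ({a : Fin r × Fin 2 → ℤ | (∀ p, |a p| ≤ B) ∧ P a}.ncard : ℝ) ≤ c := by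
  classical
  have e : {a : Fin r × Fin 2 → ℤ | (∀ p, |a p| ≤ B) ∧ P a} =
      (fun (a : Fin r → Fin 2 → ℤ) (p : Fin r × Fin 2) => a p.1 p.2) ''
        (((Fintype.piFinset fun _ => box B).filter fun a => P fun p => a p.1 p.2 :
          Finset (Fin r → Fin 2 → ℤ)) : Set (Fin r → Fin 2 → ℤ)) := by
    ext a
    rw [Set.mem_ofPred_eq, Set.mem_image]
    constructor
    · rintro ⟨h1, h2⟩
      refine ⟨fun i l => a (i, l), ?_, rfl⟩
      rw [Finset.mem_coe, Finset.mem_filter, Fintype.mem_piFinset]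
      exact ⟨fun i => mem_box.2 fun l => h1 _, h2⟩
    · rintro ⟨q, hq, rfl⟩
      rw [Finset.mem_coe, Finset.mem_filter, Fintype.mem_piFinset] at hq
      exact ⟨fun p => mem_box.1 (hq.1 p.1) p.2, hq.2⟩
  rw [e, Set.ncard_image_of_injective _ (fun p q hpq => by
    funext i l
    exact congrFun hpq (i, l)), Set.ncard_coe_finset]
  exact h _ (Finset.filter_subset _ _) fun y hy => (Finset.mem_filter.1 hy).2

end Pool.Agent.L5helper26.JN
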