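import Pool.Agent.L5helper26.JN.P

/-!
Joins of several rational functions: a power saving for the number of the exceptional integral points.
-/

set_option autoImplicit false
set_option linter.unusedSectionVars false

open MvPolynomial Filter

namespace Pool.Agent.L5helper26.JN

open Pool.Agent.W180.OP (nrm le_nrm nrm_pos nrm_nonneg exists_nrm nrm_le)
open Pool.Agent.L5helper26.RO

/-- **Separation**, with a polynomial bound. -/
theorem separation2 {d : ℕ} (hd : 2 ≤ d) (G : Fin 2 → MvPolynomial (Fin 2) ℂ)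
    (hG : ∀ i, (G i).IsHomogeneous d) (h0 : ∀ x : Fin 2 → ℂ, (∀ i, eval x (G i) = 0) → x = 0)
    (f : AbsoluteValue ℂ ℝ) (hf : ∀ r : ℝ, f (r : ℂ) = |r|) (c : ℝ) (hc : 0 < c)
    (hlow : ∀ x : Fin 2 → ℂ, x ≠ 0 → c * nrm f x ^ d ≤ nrm f (sp G x)) (M : ℝ) :
    ∃ (C1 : ℝ) (τ : ℕ), 0 < C1 ∧ ∀ K : ℕ, 0 < K → ∀ (ρ : ℝ) (z w y : Fin 2 → ℂ),
      1 + 1 / (2 * (K : ℝ)) ≤ ρ → C1 * (K : ℝ) ^ τ ≤ nrm f z → nrm f w ≤ 1 →
      y = (ρ : ℂ) • z + w → ∃ n : ℕ, M * nrm f ((sp G)^[n] z) < nrm f ((sp G)^[n] y) := by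
  obtain ⟨A, hA, hit⟩ := pert_iter G hG h0 f c hc hlow
  obtain ⟨L, hL⟩ := exists_nat_gt (2 * |M| + 2)
  have hL0 : 0 < L := by
    have : (0 : ℝ) < L := lt_trans (by positivity) hL
    exact_mod_cast this
  obtain ⟨s, hs⟩ := pow_unbounded_of_one_lt A (by exact_mod_cast (by omega : 1 < d) : (1 : ℝ) < d)
  have hdR : (2 : ℝ) ≤ d := by exact_mod_cast hd
  refine ⟨2 * (d * (2 * L)) ^ s, s, by positivity, fun K hK ρ z w y hρ hz hw hy => ?_⟩
  have hKR : (0 : ℝ) < K := by exact_mod_cast hK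
  set X : ℕ := 2 * K * L with hX
  have hX0 : X ≠ 0 := by positivity
  set N : ℕ := Nat.log d X + 1 with hN
  have hN1 : X < d ^ N := Nat.lt_pow_succ_log_self (by omega) X
  have hN2 : d ^ N ≤ d * X := by
    rw [hN, pow_succ, mul_comm]
    exact Nat.mul_le_mul_left _ (Nat.pow_log_le_self d hX0)
  have hAN : 1 ≤ A ^ N := one_le_pow₀ hA
  have hANle : 2 * A ^ N ≤ 2 * (d * (2 * L)) ^ s * (K : ℝ) ^ s := by
    have h1 : A ^ N ≤ ((d : ℝ) ^ s) ^ N := pow_le_pow_left₀ (by linarith) hs.le N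
    have h2 : ((d : ℝ) ^ s) ^ N = ((d : ℝ) ^ N) ^ s := by rw [← pow_mul, ← pow_mul, mul_comm]
    have h3 : ((d : ℝ) ^ N) ≤ d * (2 * K * L) := by
      have : ((d ^ N : ℕ) : ℝ) ≤ ((d * (2 * K * L) : ℕ) : ℝ) := by exact_mod_cast hN2
      push_cast at this
      exact this
    have h4 : ((d : ℝ) ^ N) ^ s ≤ (d * (2 * K * L)) ^ s := pow_le_pow_left₀ (by positivity) h3 s
    have h5 : (d * (2 * (K : ℝ) * L)) ^ s = (d * (2 * L)) ^ s * (K : ℝ) ^ s := by
      rw [← mul_pow]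
      congr 1
      ring
    rw [h2] at h1
    have h6 := h1.trans h4
    rw [h5] at h6
    linarith
  have hz' : 2 * A ^ N ≤ nrm f z := hANle.trans hz
  refine ⟨N, ?_⟩
  have hZ : 0 < nrm f z := by linarith
  have hz0 : z ≠ 0 := by
    rintro rfl
    have h1 : nrm f (0 : Fin 2 → ℂ) ≤ 0 := nrm_le le_rfl fun l => by
      rw [Pi.zero_apply, map_zero]
    linarith
  have hρ0 : (0 : ℝ) < 1 / (2 * (K : ℝ)) := by positivity
  have hρ1 : 1 < ρ := by linarith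
  have hρc : (ρ : ℂ) ≠ 0 := by
    exact_mod_cast (by linarith : ρ ≠ 0)
  have hu : (ρ : ℂ) • z ≠ 0 := smul_ne_zero hρc hz0
  have hnu : nrm f ((ρ : ℂ) • z) = ρ * nrm f z := by
    rw [nrm_smul', hf, abs_of_pos (by linarith)]
  set δ : ℝ := (nrm f z)⁻¹ with hδ
  have hδ0 : 0 ≤ δ := by positivity
  have hAδ : A ^ N * δ ≤ 1 / 2 := by
    rw [hδ, ← div_eq_mul_inv, div_le_div_iff₀ hZ (by norm_num)]
    linarith
  have h1 := hit N ((ρ : ℂ) • z) w δ hu hδ0 (by linarith) (by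
    rw [hnu, hδ]
    have : (nrm f z)⁻¹ * (ρ * nrm f z) = ρ := by field_simp
    rw [this]
    linarith)
  rw [← hy] at h1
  have e1 : (sp G)^[N] ((ρ : ℂ) • z) = ((ρ : ℂ)) ^ (d ^ N) • (sp G)^[N] z :=
    spm_iter_smul G hG _ z N
  have h2 : nrm f ((sp G)^[N] ((ρ : ℂ) • z)) = ρ ^ (d ^ N) * nrm f ((sp G)^[N] z) := by
    rw [e1, nrm_smul', map_pow, hf, abs_of_pos (by linarith)]
  have hP : 0 < nrm f ((sp G)^[N] z) := nrm_pos f (sp_iter_ne G h0 hz0 N)
  have h3 : nrm f ((sp G)^[N] ((ρ : ℂ) • z)) ≤ nrm f ((sp G)^[N] y) +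
      nrm f ((sp G)^[N] y - (sp G)^[N] ((ρ : ℂ) • z)) := by
    have e2 : (sp G)^[N] ((ρ : ℂ) • z) = (sp G)^[N] y +
        (-((sp G)^[N] y - (sp G)^[N] ((ρ : ℂ) • z))) := by abel
    conv_lhs => rw [e2]
    refine (nrm_add_le f _ _).trans ?_
    gcongr
    refine nrm_le (nrm_nonneg _ _) fun i => ?_
    rw [Pi.neg_apply, AbsoluteValue.map_neg]
    exact le_nrm f _ i
  have h4 : (2 * |M| + 2) ≤ ρ ^ (d ^ N) := by
    have h5 : 1 + ((d ^ N : ℕ) : ℝ) * (1 / (2 * K)) ≤ (1 + 1 / (2 * (K : ℝ))) ^ (d ^ N) :=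
      one_add_mul_le_pow (by linarith) _
    have h6 : (1 + 1 / (2 * (K : ℝ))) ^ (d ^ N) ≤ ρ ^ (d ^ N) :=
      pow_le_pow_left₀ (by positivity) hρ _
    have h7 : (L : ℝ) ≤ ((d ^ N : ℕ) : ℝ) * (1 / (2 * K)) := by
      rw [mul_one_div, le_div_iff₀ (by positivity)]
      have : ((X : ℕ) : ℝ) ≤ ((d ^ N : ℕ) : ℝ) := by exact_mod_cast hN1.le
      rw [hX] at this
      push_cast at this ⊢
      linarith
    linarith
  have h5 : 0 ≤ nrm f ((sp G)^[N] ((ρ : ℂ) • z)) := nrm_nonneg _ _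
  have h6 : 1 / 2 * (ρ ^ (d ^ N) * nrm f ((sp G)^[N] z)) ≤ nrm f ((sp G)^[N] y) := by
    rw [← h2]
    nlinarith
  refine lt_of_lt_of_le ?_ h6
  have h7 : 2 * M < ρ ^ (d ^ N) := by
    have := le_abs_self M
    have := abs_nonneg M
    linarith
  nlinarith

section

variable {d : ℕ} (hd : 2 ≤ d)

include hd in
/-- The number of the integral vectors with an orbit comparable to a given one, power saving. -/
theorem comp_count2 (F G : Fin 2 → MvPolynomial (Fin 2) ℂ)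
    (hG : ∀ i, (G i).IsHomogeneous d)
    (hG0 : ∀ x : Fin 2 → ℂ, (∀ i, eval x (G i) = 0) → x = 0) (C : ℝ) (hC : 0 < C) :
    ∃ D δ : ℝ, 0 < D ∧ 0 < δ ∧ δ ≤ 1 ∧ ∀ B : ℕ, 1 ≤ B → ∀ x : Fin 2 → ℂ,
      ∀ T : Finset (Fin 2 → ℤ), T ⊆ box B → (∀ y ∈ T, Comp C F G x fun i => (y i : ℂ)) →
        (T.card : ℝ) ≤ D * (B : ℝ) ^ (2 - δ) := by
  classical
  obtain ⟨c, hc, hlow⟩ := low hd G hG hG0
  obtain ⟨C1, τ, hC1, hsep⟩ := separation2 hd G hG hG0 f0 f0_real c hc hlow (C * C)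
  set δ : ℝ := 1 / ((τ : ℝ) + 1) with hδ
  have hτ : (0 : ℝ) < (τ : ℝ) + 1 := by positivity
  have hδ0 : 0 < δ := by positivity
  have hδ1 : δ ≤ 1 := by
    rw [hδ, div_le_one hτ]
    have : (0 : ℝ) ≤ τ := Nat.cast_nonneg _
    linarith
  refine ⟨98 + (2 * C1 + 1) ^ 2, δ, by positivity, hδ0, hδ1, fun B hB x T0 hT0 hcomp => ?_⟩
  have hBone : (1 : ℝ) ≤ B := by exact_mod_cast hB
  have hB0 : (0 : ℝ) < B := by linarith
  set t : ℝ := (B : ℝ) ^ δ with ht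
  have ht1 : 1 ≤ t := Real.one_le_rpow hBone hδ0.le
  set K : ℕ := ⌊t⌋₊ with hK
  have hK1 : 1 ≤ K := Nat.le_floor (by exact_mod_cast ht1)
  have hKR : (1 : ℝ) ≤ K := by exact_mod_cast hK1
  have hKt : (K : ℝ) ≤ t := Nat.floor_le (by linarith)
  have htK : t ≤ 2 * K := by
    have := Nat.lt_floor_add_one t
    linarith
  set Y : ℝ := C1 * (K : ℝ) ^ τ with hY
  have hY0 : 0 < Y := by positivity
  let T : Finset (Fin 2 → ℤ) := T0.filter fun y => Y ≤ nrm f0 fun i => (y i : ℂ)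
  have hST : T0 ⊆ T ∪ box ⌊Y⌋₊ := by
    intro y hy
    rw [Finset.mem_union]
    by_cases hyY : Y ≤ nrm f0 fun i => (y i : ℂ)
    · exact Or.inl (Finset.mem_filter.2 ⟨hy, hyY⟩)
    · right
      push Not at hyY
      rw [mem_box]
      intro i
      have h4 := (le_nrm f0 (fun i => (y i : ℂ)) i).trans hyY.le
      rw [f0_apply, Complex.norm_intCast] at h4
      have h5 : ((|y i| : ℤ) : ℝ) ≤ Y := by
        push_cast
        exact h4
      have h6 : (y i).natAbs ≤ ⌊Y⌋₊ := by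
        refine Nat.le_floor ?_
        rw [Nat.cast_natAbs]
        exact h5
      have h7 : |y i| = ((y i).natAbs : ℤ) := Int.abs_eq_natAbs _
      rw [h7]
      exact_mod_cast h6
  have hcard : T0.card ≤ T.card + (box ⌊Y⌋₊).card :=
    (Finset.card_le_card hST).trans (Finset.card_union_le _ _)
  have hKT : K * T.card ≤ (2 * (2 * B + 1) + 1) ^ 2 := by
    refine count_abstract K B hK1 T ((Finset.filter_subset _ _).trans hT0) ?_
    intro ρ z y w hz hy hρ hw he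
    obtain ⟨hz1, hz3⟩ := Finset.mem_filter.1 hz
    obtain ⟨hy1, -⟩ := Finset.mem_filter.1 hy
    obtain ⟨n, hn⟩ := hsep K hK1 ρ (fun i => (z i : ℂ)) (fun i => ((w i : ℝ) : ℂ))
      (fun i => (y i : ℂ)) hρ hz3 (nrm_le zero_le_one fun i => by
        rw [f0_real]
        exact hw i) (by
      funext i
      have h1 := congrArg (fun t : ℝ => (t : ℂ)) (he i)
      simp only [Complex.ofReal_add, Complex.ofReal_mul, Complex.ofReal_intCast] at h1
      exact h1)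
    have h1 := (hcomp y hy1 n).2
    have h2 := (hcomp z hz1 n).1
    have h3 : nrm f0 ((sp G)^[n] fun i => (y i : ℂ)) ≤
        C * C * nrm f0 ((sp G)^[n] fun i => (z i : ℂ)) := by
      calc _ ≤ C * nrm f0 ((sp F)^[n] x) := h1
        _ ≤ C * (C * nrm f0 ((sp G)^[n] fun i => (z i : ℂ))) := by gcongr
        _ = _ := by ring
    linarith
  have hKT' : (K : ℝ) * T.card ≤ (4 * B + 3) ^ 2 := by
    have h1 : ((K * T.card : ℕ) : ℝ) ≤ (((2 * (2 * B + 1) + 1) ^ 2 : ℕ) : ℝ) := by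
      exact_mod_cast hKT
    push_cast at h1
    refine h1.trans (le_of_eq ?_)
    ring
  have h49 : (K : ℝ) * T.card ≤ 49 * B ^ 2 := by
    refine hKT'.trans ?_
    have h1 : (4 * (B : ℝ) + 3) ≤ 7 * B := by linarith
    calc (4 * (B : ℝ) + 3) ^ 2 ≤ (7 * B) ^ 2 := by gcongr
      _ = _ := by ring
  have hpw : (B : ℝ) ^ (2 - δ) * t = B ^ 2 := by
    rw [ht, ← Real.rpow_add hB0]
    have : 2 - δ + δ = ((2 : ℕ) : ℝ) := by push_cast; ring
    rw [this, Real.rpow_natCast]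
  have hP0 : 0 < (B : ℝ) ^ (2 - δ) := Real.rpow_pos_of_pos hB0 _
  have hT2 : (T.card : ℝ) ≤ 98 * (B : ℝ) ^ (2 - δ) := by
    have h1 : t * (T.card : ℝ) ≤ t * (98 * (B : ℝ) ^ (2 - δ)) := by
      calc t * (T.card : ℝ) ≤ 2 * K * T.card := by gcongr
        _ = 2 * (K * T.card) := by ring
        _ ≤ 2 * (49 * B ^ 2) := by gcongr
        _ = 98 * ((B : ℝ) ^ (2 - δ) * t) := by rw [hpw]; ring
        _ = _ := by ring
    exact le_of_mul_le_mul_left h1 (by linarith)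
  have hb2 : ((box ⌊Y⌋₊).card : ℝ) ≤ (2 * C1 + 1) ^ 2 * (B : ℝ) ^ (2 - δ) := by
    rw [card_box]
    push_cast
    have h1 : ((⌊Y⌋₊ : ℕ) : ℝ) ≤ Y := Nat.floor_le hY0.le
    have htτ : 1 ≤ t ^ τ := one_le_pow₀ ht1
    have h2 : Y ≤ C1 * t ^ τ := by
      rw [hY]
      gcongr
    have h3 : 2 * ((⌊Y⌋₊ : ℕ) : ℝ) + 1 ≤ (2 * C1 + 1) * t ^ τ := by nlinarith
    have h4 : (2 * ((⌊Y⌋₊ : ℕ) : ℝ) + 1) ^ 2 ≤ ((2 * C1 + 1) * t ^ τ) ^ 2 := by
      gcongr
    refine h4.trans ?_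
    rw [mul_pow]
    refine mul_le_mul_of_nonneg_left ?_ (by positivity)
    rw [ht, ← Real.rpow_natCast ((B : ℝ) ^ δ) τ, ← Real.rpow_mul hB0.le,
      ← Real.rpow_natCast _ 2, ← Real.rpow_mul hB0.le]
    refine Real.rpow_le_rpow_of_exponent_le hBone ?_
    have h5 : δ * ((τ : ℝ) + 1) = 1 := by
      rw [hδ]
      field_simp
    push_cast
    nlinarith
  calc (T0.card : ℝ) ≤ ((T.card + (box ⌊Y⌋₊).card : ℕ) : ℝ) := by exact_mod_cast hcard
    _ = (T.card : ℝ) + (box ⌊Y⌋₊).card := by push_cast; ring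
    _ ≤ 98 * (B : ℝ) ^ (2 - δ) + (2 * C1 + 1) ^ 2 * (B : ℝ) ^ (2 - δ) := add_le_add hT2 hb2
    _ = _ := by ring

end

section

variable {r d : ℕ} (hr : 0 < r) (hd : 2 ≤ d) (F : Fin r → Fin 2 → MvPolynomial (Fin 2) ℂ)
  (hF : ∀ s i, (F s i).IsHomogeneous d) (hFa : ∀ s i κ, IsAlgebraic ℚ ((F s i).coeff κ))
  (hF0 : ∀ s, ∀ x : Fin 2 → ℂ, (∀ i, eval x (F s i) = 0) → x = 0)

include hr hd hF hFa hF0 in
/-- **Most integral points**, with a power saving. -/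
theorem densityB : ∃ E δ : ℝ, 0 < δ ∧ ∀ B : ℕ, 1 ≤ B →
    ∀ T : Finset (Fin r → Fin 2 → ℤ), (T ⊆ Fintype.piFinset fun _ => box B) →
      (∀ a ∈ T, ¬ RA F fun p => ((a p.1 p.2 : ℤ) : ℂ)) →
        (T.card : ℝ) ≤ E * (B : ℝ) ^ (2 * (r : ℝ) - δ) := by
  classical
  obtain ⟨C, hC, hbad⟩ := bad_cases hr hd F hF hFa hF0
  choose A hA using fun i => few_preper hd (F i) (hF i) (hFa i) (hF0 i)
  choose D2 δ2 hD2 hδ20 hδ21 hcount using fun i j : Fin r =>
    comp_count2 hd (F i) (F j) (hF j) (hF0 j) C hC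
  set S : ℝ := 1 + ∑ i, ∑ j, 1 / δ2 i j with hS
  have hS1 : 1 ≤ S := by
    have : 0 ≤ ∑ i, ∑ j, 1 / δ2 i j :=
      Finset.sum_nonneg fun i _ => Finset.sum_nonneg fun j _ => by
        have := hδ20 i j
        positivity
    linarith
  set δ : ℝ := 1 / S with hδ
  have hδ0 : 0 < δ := by positivity
  have hδ1 : δ ≤ 1 := by
    rw [hδ, div_le_one (by linarith)]
    exact hS1
  have hδle : ∀ i j, δ ≤ δ2 i j := by
    intro i j
    have h0 := hδ20 i j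
    have h1 : 1 / δ2 i j ≤ ∑ j, 1 / δ2 i j :=
      Finset.single_le_sum (f := fun j => 1 / δ2 i j) (fun j _ => by
        have := hδ20 i j
        positivity) (Finset.mem_univ j)
    have h2 : ∑ j, 1 / δ2 i j ≤ ∑ i, ∑ j, 1 / δ2 i j :=
      Finset.single_le_sum (f := fun i => ∑ j, 1 / δ2 i j)
        (fun i _ => Finset.sum_nonneg fun j _ => by
          have := hδ20 i j
          positivity) (Finset.mem_univ i)
    have h3 : 1 / δ2 i j ≤ S := by linarith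
    rw [hδ, div_le_iff₀ (by linarith)]
    rw [div_le_iff₀ h0] at h3
    linarith
  set D : ℝ := ∑ i, ∑ j, D2 i j + ∑ i, 3 * (A i : ℝ) with hD
  have hsD : 0 ≤ ∑ i, ∑ j, D2 i j :=
    Finset.sum_nonneg fun i _ => Finset.sum_nonneg fun j _ => (hD2 i j).le
  have hsA : 0 ≤ ∑ i, 3 * (A i : ℝ) := Finset.sum_nonneg fun i _ => by positivity
  have hDle : ∀ i j, D2 i j ≤ D := by
    intro i j
    have h1 : D2 i j ≤ ∑ j, D2 i j :=
      Finset.single_le_sum (f := fun j => D2 i j) (fun j _ => (hD2 i j).le) (Finset.mem_univ j)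
    have h2 : ∑ j, D2 i j ≤ ∑ i, ∑ j, D2 i j :=
      Finset.single_le_sum (f := fun i => ∑ j, D2 i j)
        (fun i _ => Finset.sum_nonneg fun j _ => (hD2 i j).le) (Finset.mem_univ i)
    linarith
  have hAle : ∀ i, 3 * (A i : ℝ) ≤ D := by
    intro i
    have h1 : 3 * (A i : ℝ) ≤ ∑ i, 3 * (A i : ℝ) :=
      Finset.single_le_sum (f := fun i => 3 * (A i : ℝ)) (fun i _ => by positivity)
        (Finset.mem_univ i)
    linarith
  have hD0 : 0 ≤ D := by linarith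
  refine ⟨(r + r * r) * (D * 9 ^ (r - 1)), δ, hδ0, fun B hB T hT hTb => ?_⟩
  have hBone : (1 : ℝ) ≤ B := by exact_mod_cast hB
  have hB0 : (0 : ℝ) < B := by linarith
  have hcb : ((box B).card : ℝ) ≤ 9 * B ^ 2 := by
    rw [card_box]
    push_cast
    nlinarith
  have hP0 : 0 < (B : ℝ) ^ (2 - δ) := Real.rpow_pos_of_pos hB0 _
  have hc0 : 0 ≤ D * (B : ℝ) ^ (2 - δ) := by positivity
  set W : ℝ := D * (B : ℝ) ^ (2 - δ) * ((box B).card : ℝ) ^ (r - 1) with hW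
  let T1 : Fin r → Finset (Fin r → Fin 2 → ℤ) := fun i =>
    T.filter fun a => ¬ Inf (F i) fun l => ((a i l : ℤ) : ℂ)
  have hT1 : ∀ i, ((T1 i).card : ℝ) ≤ W := by
    intro i
    refine pi_count B _ hc0 i (T1 i) ((Finset.filter_subset _ _).trans hT) fun b U hU hy => ?_
    have h3 := hA i B U hU fun y hyU => by
      have h4 := (Finset.mem_filter.1 (hy y hyU)).2
      simp only [Function.update_self] at h4
      exact h4
    have h5 : (U.card : ℝ) ≤ A i * (2 * B + 1) := by exact_mod_cast h3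
    have hBle : (B : ℝ) ≤ (B : ℝ) ^ (2 - δ) := by
      calc (B : ℝ) = (B : ℝ) ^ (1 : ℝ) := (Real.rpow_one _).symm
        _ ≤ _ := Real.rpow_le_rpow_of_exponent_le hBone (by linarith)
    have hA0 : (0 : ℝ) ≤ A i := Nat.cast_nonneg _
    calc (U.card : ℝ) ≤ A i * (2 * B + 1) := h5
      _ ≤ A i * (3 * B) := by
          refine mul_le_mul_of_nonneg_left ?_ hA0
          linarith
      _ = 3 * A i * B := by ring
      _ ≤ D * (B : ℝ) ^ (2 - δ) := mul_le_mul (hAle i) hBle hB0.le hD0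
  let T2 : Fin r × Fin r → Finset (Fin r → Fin 2 → ℤ) := fun q =>
    T.filter fun a => q.1 ≠ q.2 ∧
      Comp C (F q.1) (F q.2) (fun l => ((a q.1 l : ℤ) : ℂ)) fun l => ((a q.2 l : ℤ) : ℂ)
  have hT2 : ∀ q, ((T2 q).card : ℝ) ≤ W := by
    rintro ⟨i, j⟩
    by_cases hij : i = j
    · have : T2 (i, j) = ∅ := by
        refine Finset.filter_eq_empty_iff.2 fun a _ h => ?_
        exact h.1 hij
      rw [this, Finset.card_empty, hW]
      push_cast
      positivity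
    · refine pi_count B _ hc0 j (T2 (i, j)) ((Finset.filter_subset _ _).trans hT)
        fun b U hU hy => ?_
      have h3 := hcount i j B hB (fun l => ((b i l : ℤ) : ℂ)) U hU fun y hyU => by
        have h4 := (Finset.mem_filter.1 (hy y hyU)).2.2
        simp only [Function.update_self, Function.update_of_ne hij] at h4
        exact h4
      refine h3.trans ?_
      refine mul_le_mul (hDle i j) ?_ (Real.rpow_nonneg hB0.le _) hD0
      exact Real.rpow_le_rpow_of_exponent_le hBone (by linarith [hδle i j])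
  have hcov : T ⊆ (Finset.univ.biUnion T1) ∪ (Finset.univ.biUnion T2) := by
    intro a ha
    rw [Finset.mem_union, Finset.mem_biUnion, Finset.mem_biUnion]
    rcases hbad (fun p => ((a p.1 p.2 : ℤ) : ℂ)) (fun p => isAlgebraic_int _) (hTb a ha) with
      ⟨i, hi⟩ | ⟨i, j, hij, h⟩
    · exact Or.inl ⟨i, Finset.mem_univ _, Finset.mem_filter.2 ⟨ha, hi⟩⟩
    · exact Or.inr ⟨(i, j), Finset.mem_univ _, Finset.mem_filter.2 ⟨ha, hij, h⟩⟩
  have hcard : (T.card : ℝ) ≤ ∑ i, ((T1 i).card : ℝ) + ∑ q, ((T2 q).card : ℝ) := by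
    have h3 : T.card ≤ ∑ i, (T1 i).card + ∑ q, (T2 q).card :=
      (Finset.card_le_card hcov).trans ((Finset.card_union_le _ _).trans
        (add_le_add Finset.card_biUnion_le Finset.card_biUnion_le))
    exact_mod_cast h3
  have hs1 : ∑ i, ((T1 i).card : ℝ) ≤ r * W := by
    calc ∑ i, ((T1 i).card : ℝ) ≤ ∑ _i : Fin r, W := Finset.sum_le_sum fun i _ => hT1 i
      _ = r * W := by rw [Finset.sum_const, Finset.card_univ, Fintype.card_fin, nsmul_eq_mul]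
  have hs2 : ∑ q, ((T2 q).card : ℝ) ≤ r * r * W := by
    calc ∑ q, ((T2 q).card : ℝ) ≤ ∑ _q : Fin r × Fin r, W := Finset.sum_le_sum fun q _ => hT2 q
      _ = r * r * W := by
        rw [Finset.sum_const, Finset.card_univ, Fintype.card_prod, Fintype.card_fin, nsmul_eq_mul]
        push_cast
        ring
  have hWle : W ≤ D * (B : ℝ) ^ (2 - δ) * (9 * B ^ 2) ^ (r - 1) := by
    rw [hW]
    gcongr
  have hpow : (B : ℝ) ^ (2 - δ) * (9 * B ^ 2) ^ (r - 1) =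
      9 ^ (r - 1) * (B : ℝ) ^ (2 * (r : ℝ) - δ) := by
    obtain ⟨m, rfl⟩ : ∃ m, r = m + 1 := ⟨r - 1, by omega⟩
    rw [Nat.add_sub_cancel, mul_pow, ← pow_mul]
    have h5 : 2 * ((m + 1 : ℕ) : ℝ) - δ = (2 - δ) + ((2 * m : ℕ) : ℝ) := by push_cast; ring
    rw [h5, Real.rpow_add hB0, Real.rpow_natCast]
    ring
  calc (T.card : ℝ) ≤ r * W + r * r * W := hcard.trans (add_le_add hs1 hs2)
    _ = (r + r * r) * W := by ring
    _ ≤ (r + r * r) * (D * (B : ℝ) ^ (2 - δ) * (9 * B ^ 2) ^ (r - 1)) := by gcongr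
    _ = (r + r * r) * D * ((B : ℝ) ^ (2 - δ) * (9 * B ^ 2) ^ (r - 1)) := by ring
    _ = _ := by rw [hpow]; ring

end

end Pool.Agent.L5helper26.JN
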