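import Pool.Agent.L5helper26.JN.Q

/-!
Two rational functions: the exceptional integral points over a point of the first line.
-/

set_option autoImplicit false
set_option linter.unusedSectionVars false

open MvPolynomial Filter

namespace Pool.Agent.L5helper26.JN

open Pool.Agent.W180.OP (nrm le_nrm nrm_pos nrm_nonneg exists_nrm nrm_le)
open Pool.Agent.L5helper26.RO

section

variable {d : ℕ} (hd : 2 ≤ d) (F : Fin 2 → MvPolynomial (Fin 2) ℂ)
  (hF : ∀ i, (F i).IsHomogeneous d) (hFa : ∀ i κ, IsAlgebraic ℚ ((F i).coeff κ))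
  (hF0 : ∀ x : Fin 2 → ℂ, (∀ i, eval x (F i) = 0) → x = 0)
  (G : Fin 2 → MvPolynomial (Fin 2) ℂ)
  (hG : ∀ i, (G i).IsHomogeneous d) (hGa : ∀ i κ, IsAlgebraic ℚ ((G i).coeff κ))
  (hG0 : ∀ x : Fin 2 → ℂ, (∀ i, eval x (G i) = 0) → x = 0)

include hd hF hFa hF0 hG hGa hG0 in
/-- **Most integral points**, uniformly in the first point, power saving. -/
theorem densityC : ∃ E δ : ℝ, 0 < δ ∧ ∀ B : ℕ, 1 ≤ B → ∀ x : Fin 2 → ℂ,
    (∀ i, IsAlgebraic ℚ (x i)) → Inf F x → ∀ T : Finset (Fin 2 → ℤ), T ⊆ box B →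
      (∀ y ∈ T, ¬ R2 F G (jo F G) (Sum.elim x fun i => (y i : ℂ))) →
        (T.card : ℝ) ≤ E * (B : ℝ) ^ (2 - δ) := by
  classical
  obtain ⟨C, hC, hcomp⟩ := comparable hd F hF hFa hF0 G hG hGa hG0
  obtain ⟨D, δ, hD, hδ0, hδ1, hcount⟩ := comp_count2 hd F G hG hG0 C hC
  obtain ⟨A, hA⟩ := few_preper hd G hG hGa hG0
  refine ⟨D + 3 * A, δ, hδ0, fun B hB x hxa hx T hT hbad => ?_⟩
  have hBone : (1 : ℝ) ≤ B := by exact_mod_cast hB
  have hB0 : (0 : ℝ) < B := by linarith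
  have h1 : ((T.filter fun y => Inf G fun i => (y i : ℂ)).card : ℝ) ≤
      D * (B : ℝ) ^ (2 - δ) := by
    refine hcount B hB x _ ((Finset.filter_subset _ _).trans hT) fun y hy => ?_
    obtain ⟨h1, h2⟩ := Finset.mem_filter.1 hy
    exact hcomp x (fun i => (y i : ℂ)) hxa (fun i => isAlgebraic_int (y i)) hx h2 (hbad y h1)
  have h2 : ((T.filter fun y => ¬ Inf G fun i => (y i : ℂ)).card : ℝ) ≤
      3 * A * (B : ℝ) ^ (2 - δ) := by
    have h3 := hA B (T.filter fun y => ¬ Inf G fun i => (y i : ℂ))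
      ((Finset.filter_subset _ _).trans hT) fun y hy => (Finset.mem_filter.1 hy).2
    have h4 : ((T.filter fun y => ¬ Inf G fun i => (y i : ℂ)).card : ℝ) ≤ A * (2 * B + 1) := by
      exact_mod_cast h3
    have hBle : (B : ℝ) ≤ (B : ℝ) ^ (2 - δ) := by
      calc (B : ℝ) = (B : ℝ) ^ (1 : ℝ) := (Real.rpow_one _).symm
        _ ≤ _ := Real.rpow_le_rpow_of_exponent_le hBone (by linarith)
    have hA0 : (0 : ℝ) ≤ A := Nat.cast_nonneg _
    calc ((T.filter fun y => ¬ Inf G fun i => (y i : ℂ)).card : ℝ) ≤ A * (2 * B + 1) := h4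
      _ ≤ A * (3 * B) := by
          refine mul_le_mul_of_nonneg_left ?_ hA0
          linarith
      _ = 3 * A * B := by ring
      _ ≤ 3 * A * (B : ℝ) ^ (2 - δ) := by gcongr
  have h3 := Finset.card_filter_add_card_filter_not (s := T) (fun y => Inf G fun i => (y i : ℂ))
  have h4 : (T.card : ℝ) = ((T.filter fun y => Inf G fun i => (y i : ℂ)).card : ℝ) +
      ((T.filter fun y => ¬ Inf G fun i => (y i : ℂ)).card : ℝ) := by
    exact_mod_cast h3.symm
  rw [h4, add_mul]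
  exact add_le_add h1 h2

end

end Pool.Agent.L5helper26.JN
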